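import Pool.Agent.CMC.Defs

open MeasureTheory Matrix

noncomputable section

set_option linter.unusedSimpArgs false

namespace Pool.Agent.CMC

theorem dot3 (x y : V3) : x ⬝ᵥ y = x 0 * y 0 + x 1 * y 1 + x 2 * y 2 := by
  simp [dotProduct, Fin.sum_univ_three]

theorem cross0 (x y : V3) : (x ⨯₃ y) 0 = x 1 * y 2 - x 2 * y 1 := by simp [cross_apply]
theorem cross1 (x y : V3) : (x ⨯₃ y) 1 = x 2 * y 0 - x 0 * y 2 := by simp [cross_apply]
theorem cross2 (x y : V3) : (x ⨯₃ y) 2 = x 0 * y 1 - x 1 * y 0 := by simp [cross_apply]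

theorem bra0 (A : M2) (a b : V3) : (bra A a b) 0 =
    a 2 * (A 0 0 * b 0 + A 0 1 * b 1) - b 2 * (A 0 0 * a 0 + A 0 1 * a 1) := by
  simp [bra, vec, hor, Matrix.mulVec, dotProduct, Fin.sum_univ_two]
theorem bra1 (A : M2) (a b : V3) : (bra A a b) 1 =
    a 2 * (A 1 0 * b 0 + A 1 1 * b 1) - b 2 * (A 1 0 * a 0 + A 1 1 * a 1) := by
  simp [bra, vec, hor, Matrix.mulVec, dotProduct, Fin.sum_univ_two]
theorem bra2 (A : M2) (a b : V3) : (bra A a b) 2 = 0 := by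
  simp [bra, vec]

theorem conn0 (A : M2) (a b : V3) : (conn A a b) 0 =
    a 2 * ((A 0 1 - A 1 0) / 2 * b 1) - b 2 * (A 0 0 * a 0 + (A 0 1 + A 1 0) / 2 * a 1) := by
  have e : (Pi.single (0 : Fin 3) (1 : ℝ) : V3) = ![1, 0, 0] := by
    funext i; fin_cases i <;> simp
  simp only [conn, e, dot3, bra0, bra1, bra2]
  simp
  ring
theorem conn1 (A : M2) (a b : V3) : (conn A a b) 1 =
    a 2 * ((A 1 0 - A 0 1) / 2 * b 0) - b 2 * ((A 0 1 + A 1 0) / 2 * a 0 + A 1 1 * a 1) := by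
  have e : (Pi.single (1 : Fin 3) (1 : ℝ) : V3) = ![0, 1, 0] := by
    funext i; fin_cases i <;> simp
  simp only [conn, e, dot3, bra0, bra1, bra2]
  simp
  ring
theorem conn2 (A : M2) (a b : V3) : (conn A a b) 2 =
    (A 0 0 * a 0 + (A 0 1 + A 1 0) / 2 * a 1) * b 0 +
      ((A 0 1 + A 1 0) / 2 * a 0 + A 1 1 * a 1) * b 1 := by
  have e : (Pi.single (2 : Fin 3) (1 : ℝ) : V3) = ![0, 0, 1] := by
    funext i; fin_cases i <;> simp
  simp only [conn, e, dot3, bra0, bra1, bra2]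
  simp
  ring

/-- derivative of the field `W = x ∂_x + y ∂_y` in the frame -/
def dv (A : M2) (a v : V3) : V3 := vec (hor a - a 2 • A.mulVec (hor v)) 0

theorem dv0 (A : M2) (a v : V3) : (dv A a v) 0 = a 0 - a 2 * (A 0 0 * v 0 + A 0 1 * v 1) := by
  simp [dv, vec, hor, Matrix.mulVec, dotProduct, Fin.sum_univ_two]
theorem dv1 (A : M2) (a v : V3) : (dv A a v) 1 = a 1 - a 2 * (A 1 0 * v 0 + A 1 1 * v 1) := by
  simp [dv, vec, hor, Matrix.mulVec, dotProduct, Fin.sum_univ_two]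
theorem dv2 (A : M2) (a v : V3) : (dv A a v) 2 = 0 := by
  simp [dv, vec]

/-- The basic polynomial identity behind the Minkowski formula. -/
theorem key_identity (A : M2) (a b v : V3) (hv : v 2 = 0) :
    -(conn A a (a ⨯₃ b)) ⬝ᵥ (v ⨯₃ b) + (conn A b (a ⨯₃ b)) ⬝ᵥ (v ⨯₃ a)
      + (a ⨯₃ b) ⬝ᵥ (dv A a v ⨯₃ b) - (a ⨯₃ b) ⬝ᵥ (dv A b v ⨯₃ a)
      - (a ⨯₃ b) ⬝ᵥ (v ⨯₃ bra A a b) =
    (a ⨯₃ b) ⬝ᵥ (a ⨯₃ b) + ((a ⨯₃ b) 2) ^ 2 := by
  simp only [dot3, Pi.neg_apply, conn0, conn1, conn2, cross0, cross1, cross2, dv0, dv1, dv2, bra0,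
    bra1, bra2, hv]
  ring

/-- The flux identity. -/
theorem flux_identity (A : M2) (a b v : V3) (hv : v 2 = 0) :
    ((dv A a v ⨯₃ b) 2 - (dv A b v ⨯₃ a) 2 - (v ⨯₃ bra A a b) 2) / 2 =
      (a ⨯₃ b) 2 + A.trace / 2 * (v ⬝ᵥ (a ⨯₃ b)) := by
  simp only [dot3, cross0, cross1, cross2, dv0, dv1, dv2, bra0, bra1, bra2, hv,
    Matrix.trace_fin_two]
  ring

theorem cross_eq_smul {a b n : V3} (ha : n ⬝ᵥ a = 0) (hb : n ⬝ᵥ b = 0) (hn : n ⬝ᵥ n = 1) :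
    a ⨯₃ b = (n ⬝ᵥ (a ⨯₃ b)) • n := by
  rw [dot3] at ha hb hn
  funext i
  fin_cases i
  · simp only [Fin.zero_eta, Fin.isValue, cross0, Pi.smul_apply, smul_eq_mul, dot3, cross1, cross2]
    linear_combination (-(n 1 * a 2 - n 2 * a 1)) * hb + (n 1 * b 2 - n 2 * b 1) * ha
      - (a 1 * b 2 - a 2 * b 1) * hn
  · simp only [Fin.mk_one, Fin.isValue, cross0, Pi.smul_apply, smul_eq_mul, dot3, cross1, cross2]
    linear_combination (-(n 2 * a 0 - n 0 * a 2)) * hb + (n 2 * b 0 - n 0 * b 2) * ha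
      - (a 2 * b 0 - a 0 * b 2) * hn
  · simp only [Fin.reduceFinMk, Fin.isValue, cross0, Pi.smul_apply, smul_eq_mul, dot3, cross1,
      cross2]
    linear_combination (-(n 0 * a 1 - n 1 * a 0)) * hb + (n 0 * b 1 - n 1 * b 0) * ha
      - (a 0 * b 1 - a 1 * b 0) * hn

end Pool.Agent.CMC
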