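import Mathlib

/-!
# Metric semidirect products `ℝ² ⋊_A ℝ` and immersed spheres of constant mean curvature

`ℝ³ = Fin 3 → ℝ`, a point is `(p, z)` with `p ∈ ℝ²` (coordinates `0, 1`) and `z` (coordinate `2`).
-/

open MeasureTheory Matrix

noncomputable section

namespace Pool.Agent.CMC

/-- Points and vectors of `ℝ³`. -/
abbrev V3 := Fin 3 → ℝ

/-- Real `2 × 2` matrices. -/
abbrev M2 := Matrix (Fin 2) (Fin 2) ℝ

/-- The horizontal part `p` of `(p, z)`. -/
def hor (u : V3) : Fin 2 → ℝ := ![u 0, u 1]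

/-- The vector `(h, c)` with horizontal part `h` and vertical part `c`. -/
def vec (h : Fin 2 → ℝ) (c : ℝ) : V3 := ![h 0, h 1, c]

/-- The group law of `X_A = ℝ² ⋊_A ℝ`: `(p, z) (q, w) = (p + e^{zA} q, z + w)`. -/
def gmul (A : M2) (x y : V3) : V3 :=
  vec (hor x + (NormedSpace.exp (x 2 • A)).mulVec (hor y)) (x 2 + y 2)

/-- The matrix `e^{-zA}`. -/
def em (A : M2) (z : ℝ) : M2 := NormedSpace.exp ((-z) • A)

/-- Components, in the left-invariant frame which is the standard basis at the identity, of the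
tangent vector `u` at the point `x = (p, z)`: `θ_x(u) = (e^{-zA} u_h, u_3)`. The canonical
left-invariant metric of `X_A` is `⟨u, w⟩_x = θ_x(u) ⬝ᵥ θ_x(w)`. -/
def frame (A : M2) (x u : V3) : V3 := vec ((em A (x 2)).mulVec (hor u)) (u 2)

/-- The Lie bracket of `X_A` in the left-invariant frame. -/
def bra (A : M2) (a b : V3) : V3 := vec (a 2 • A.mulVec (hor b) - b 2 • A.mulVec (hor a)) 0

/-- The Levi-Civita connection of `X_A` on left-invariant fields, by the Koszul formula
`2 ⟨∇_a b, c⟩ = ⟨[a, b], c⟩ - ⟨[b, c], a⟩ + ⟨[c, a], b⟩` in the orthonormal frame. -/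
def conn (A : M2) (a b : V3) : V3 := fun k =>
  (bra A a b ⬝ᵥ Pi.single k 1 - bra A b (Pi.single k 1) ⬝ᵥ a + bra A (Pi.single k 1) a ⬝ᵥ b) / 2

/-- Frame components of the differential of `f` at `p` in the direction `v`. -/
def dfr (A : M2) (f : V3 → V3) (p v : V3) : V3 := frame A (f p) (fderiv ℝ f p v)

/-- Frame components of the covariant derivative along `f`, in the direction `v`, of the vector
field whose frame components are `N`. -/
def cov (A : M2) (f N : V3 → V3) (p v : V3) : V3 := fderiv ℝ N p v + conn A (dfr A f p v) (N p)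

/-- An immersed `C²` sphere of constant mean curvature `H` in `X_A`: `f` and `N` are maps defined
near the unit sphere `S² = {p ⬝ᵥ p = 1}` of `ℝ³` (only their restrictions to `S²` matter), `f` is an
immersion of `S²`, `N` gives the frame components of a unit normal, and the shape operator `-∇N` has
trace `2 H`. -/
structure HSphere (A : M2) (H : ℝ) where
  /-- the immersion -/
  f : V3 → V3
  /-- the unit normal (left-invariant Gauss map) -/
  N : V3 → V3
  smooth_f : ∀ p : V3, p ⬝ᵥ p = 1 → ContDiffAt ℝ 2 f p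
  smooth_N : ∀ p : V3, p ⬝ᵥ p = 1 → ContDiffAt ℝ 1 N p
  immersion : ∀ p v : V3, p ⬝ᵥ p = 1 → p ⬝ᵥ v = 0 → v ≠ 0 → fderiv ℝ f p v ≠ 0
  unit : ∀ p : V3, p ⬝ᵥ p = 1 → N p ⬝ᵥ N p = 1
  normal : ∀ p v : V3, p ⬝ᵥ p = 1 → p ⬝ᵥ v = 0 → N p ⬝ᵥ dfr A f p v = 0
  cmc : ∀ p u v : V3, p ⬝ᵥ p = 1 → p ⬝ᵥ u = 0 → p ⬝ᵥ v = 0 → LinearIndependent ℝ ![u, v] →
    ∃ s : Matrix (Fin 2) (Fin 2) ℝ,
      cov A f N p u = -(s 0 0 • dfr A f p u + s 1 0 • dfr A f p v) ∧
      cov A f N p v = -(s 0 1 • dfr A f p u + s 1 1 • dfr A f p v) ∧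
      s 0 0 + s 1 1 = 2 * H

/-- Spherical coordinates on `S²`. -/
def sph (t s : ℝ) : V3 := ![Real.sin t * Real.cos s, Real.sin t * Real.sin s, Real.cos t]

/-- `∂/∂t` of the spherical coordinates. -/
def sphT (t s : ℝ) : V3 := ![Real.cos t * Real.cos s, Real.cos t * Real.sin s, -Real.sin t]

/-- `∂/∂s` of the spherical coordinates. -/
def sphS (t s : ℝ) : V3 := ![-(Real.sin t * Real.sin s), Real.sin t * Real.cos s, 0]

/-- The area density of the immersion `f : S² → X_A` in spherical coordinates. -/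
def jac (A : M2) (f : V3 → V3) (t s : ℝ) : ℝ :=
  Real.sqrt ((dfr A f (sph t s) (sphT t s) ⨯₃ dfr A f (sph t s) (sphS t s)) ⬝ᵥ
    (dfr A f (sph t s) (sphT t s) ⨯₃ dfr A f (sph t s) (sphS t s)))

/-- The surface integral `∫_{S²} h dA` of a function `h` on `S²` against the area element of the
immersion `f`. -/
def sint (A : M2) (f : V3 → V3) (h : V3 → ℝ) : ℝ :=
  ∫ t in (0 : ℝ)..Real.pi, ∫ s in (0 : ℝ)..(2 * Real.pi), h (sph t s) * jac A f t s

/-- The area of the immersed sphere `f`. -/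
def area (A : M2) (f : V3 → V3) : ℝ := sint A f fun _ => 1

/-- The algebraic volume `-½ ∫ ⟨W, N⟩ dA`, where `W = x ∂_x + y ∂_y` has divergence `2`. -/
def algVol {A : M2} {H : ℝ} (S : HSphere A H) : ℝ :=
  -(1 / 2) * sint A S.f fun p => frame A (S.f p) (vec (hor (S.f p)) 0) ⬝ᵥ S.N p

/-- The Riemannian volume `∫_Ω e^{-z tr A} dx dy dz` of a set. -/
def vol (A : M2) (Ω : Set V3) : ℝ := ∫ x in Ω, Real.exp (-(x 2 * A.trace))

/-- The divergence of the vector field `W` (given in the coordinates of `ℝ³`) for the volume form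
`e^{-z tr A} dx dy dz`. -/
def dvg (A : M2) (W : V3 → V3) (x : V3) : ℝ :=
  (∑ i : Fin 3, fderiv ℝ W x (Pi.single i 1) i) - A.trace * W x 2

/-- `∫_Ω div W dvol`. -/
def dint (A : M2) (W : V3 → V3) (Ω : Set V3) : ℝ :=
  ∫ x in Ω, dvg A W x * Real.exp (-(x 2 * A.trace))

/-- The immersed sphere `S` bounds the set `B`: the Gauss-Green formula holds for all `C¹` vector
fields, for one of the two choices of the sign of the normal. -/
def Bounds {A : M2} {H : ℝ} (S : HSphere A H) (B : Set V3) : Prop :=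
  ∃ ε : ℝ, (ε = 1 ∨ ε = -1) ∧ ∀ W : V3 → V3, ContDiff ℝ 1 W →
    dint A W B = ε * sint A S.f fun p => frame A (S.f p) (W (S.f p)) ⬝ᵥ S.N p

/-- The test fields of the perimeter: `C¹`, compactly supported, of length at most one. -/
def IsTest (A : M2) (W : V3 → V3) : Prop :=
  ContDiff ℝ 1 W ∧ HasCompactSupport W ∧ ∀ x, frame A x (W x) ⬝ᵥ frame A x (W x) ≤ 1

/-- The (De Giorgi) perimeter of `Ω` in `X_A`; for a set with smooth boundary it is the Riemannian
area of the boundary. -/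
def perim (A : M2) (Ω : Set V3) : ENNReal :=
  ⨆ (W : V3 → V3) (_ : IsTest A W), ENNReal.ofReal (dint A W Ω)

end Pool.Agent.CMC
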