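import Pool.Agent.CMC.Defs

open MeasureTheory Matrix

noncomputable section

namespace Pool.Agent.CMC

section
attribute [local instance] Matrix.linftyOpNormedRing Matrix.linftyOpNormedAlgebra

theorem hasDerivAt_em (A : M2) (z : ℝ) (i j : Fin 2) :
    HasDerivAt (fun w => em A w i j) (-(A * em A z) i j) z := by
  have h := (hasDerivAt_exp_smul_const' (𝕂 := ℝ) A (-z)).scomp z (hasDerivAt_neg z)
  let L : M2 →L[ℝ] ℝ := LinearMap.toContinuousLinearMap (Matrix.entryLinearMap ℝ ℝ i j)
  have h2 := L.hasFDerivAt.comp_hasDerivAt z h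
  refine h2.congr_deriv ?_
  change ((-1 : ℝ) • (A * NormedSpace.exp ((-z) • A))) i j = -((A * NormedSpace.exp ((-z) • A)) i j)
  rw [Matrix.smul_apply, smul_eq_mul, neg_one_mul]

theorem em_add (A : M2) (z w : ℝ) : em A (z + w) = em A z * em A w := by
  unfold em
  rw [← Matrix.exp_add_of_commute]
  · congr 1
    module
  · exact (Commute.refl A).smul_left _ |>.smul_right _

theorem isUnit_em (A : M2) (z : ℝ) : IsUnit (em A z) := Matrix.isUnit_exp _

end

theorem contDiff_em (A : M2) (i j : Fin 2) : ContDiff ℝ 1 (fun z => em A z i j) := by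
  have hd : ∀ i j, Differentiable ℝ (fun z => em A z i j) := fun i j z =>
    (hasDerivAt_em A z i j).differentiableAt
  rw [contDiff_one_iff_deriv]
  refine ⟨hd i j, ?_⟩
  have : deriv (fun z => em A z i j) = fun z => -(A * em A z) i j := by
    funext z
    exact (hasDerivAt_em A z i j).deriv
  rw [this]
  simp only [Matrix.mul_apply]
  exact (continuous_finsetSum _ fun k _ => continuous_const.mul (hd k j).continuous).neg

theorem frame_injective (A : M2) (x : V3) {u : V3} (h : frame A x u = 0) : u = 0 := by
  have h0 := congrFun h 0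
  have h1 := congrFun h 1
  have h2 := congrFun h 2
  simp only [frame, vec, Matrix.cons_val_zero, Matrix.cons_val_one, Pi.zero_apply] at h0 h1
  have h2' : u 2 = 0 := by simpa [frame, vec] using h2
  have hm : (em A (x 2)).mulVec (hor u) = (em A (x 2)).mulVec 0 := by
    rw [Matrix.mulVec_zero]
    funext i
    fin_cases i
    · exact h0
    · exact h1
  have hi := Matrix.mulVec_injective_of_isUnit (isUnit_em A (x 2)) hm
  have a0 := congrFun hi 0
  have a1 := congrFun hi 1
  simp only [hor, Matrix.cons_val_zero, Matrix.cons_val_one, Pi.zero_apply] at a0 a1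
  funext i
  fin_cases i
  · exact a0
  · exact a1
  · exact h2'

end Pool.Agent.CMC
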