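import Pool.Agent.CMC.Near

open MeasureTheory Matrix

noncomputable section

set_option linter.unusedSimpArgs false

namespace Pool.Agent.CMC

variable {A : M2} {H : ℝ} (S : HSphere A H)

theorem moments {B : M2} (hB : B * A = A * B) (u : Fin 2 → ℝ) :
    (sint A S.f fun p => (B.mulVec (hor (S.N p)) + S.N p 2 • u) ⬝ᵥ hor (S.N p)) =
      B.trace * (area A S.f - 2 * H * algVol S) := by
  have h1 := S.mq_eq hB u
  have h2 := S.algVol_eq
  have h3 := S.area_eq
  rw [S.sint_eq]
  unfold HSphere.mq qf at h1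
  change dbl (fun q => ((B.mulVec (hor (S.nn q)) + S.nn q 2 • u) ⬝ᵥ hor (S.nn q)) * |S.cc q|) = _
  rw [h1, h2, h3]
  ring

/-- Two commuting `2 × 2` matrices, the first not scalar with real eigenvalues, the second of
determinant one. -/
theorem two_le_abs_trace {B : M2} (hA : 4 * A.det ≤ A.trace ^ 2) (hs : ∀ c : ℝ, A ≠ c • (1 : M2))
    (hB : B * A = A * B) (hdet : B.det = 1) : 2 ≤ |B.trace| := by
  have b00 := congrFun (congrFun hB 0) 0
  have b01 := congrFun (congrFun hB 0) 1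
  have b10 := congrFun (congrFun hB 1) 0
  simp only [Matrix.mul_apply, Fin.sum_univ_two] at b00 b01 b10
  rw [Matrix.det_fin_two] at hdet hA
  rw [Matrix.trace_fin_two] at hA ⊢
  have hdisc : 0 ≤ (B 0 0 - B 1 1) ^ 2 + 4 * (B 0 1 * B 1 0) := by
    have hdA : 0 ≤ (A 0 0 - A 1 1) ^ 2 + 4 * (A 0 1 * A 1 0) := by nlinarith
    by_cases h1 : A 0 1 = 0
    · by_cases h2 : A 1 0 = 0
      · -- diagonal, not scalar
        have h3 : A 0 0 ≠ A 1 1 := by
          intro h
          apply hs (A 0 0)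
          ext i j
          fin_cases i <;> fin_cases j <;> simp [h1, h2, h]
        have h4 : B 0 1 = 0 := by
          have : (A 0 0 - A 1 1) * B 0 1 = 0 := by
            rw [h1] at b01
            linarith
          exact (mul_eq_zero.1 this).resolve_left (sub_ne_zero.2 h3)
        rw [h4]
        nlinarith [sq_nonneg (B 0 0 - B 1 1)]
      · -- A 1 0 ≠ 0
        have e1 : B 0 1 = B 1 0 / A 1 0 * A 0 1 := by
          field_simp
          linarith
        have e2 : B 0 0 - B 1 1 = B 1 0 / A 1 0 * (A 0 0 - A 1 1) := by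
          field_simp
          linarith
        have e3 : B 1 0 = B 1 0 / A 1 0 * A 1 0 := by
          field_simp
        set β := B 1 0 / A 1 0
        rw [e1, e2, e3]
        have := mul_nonneg (sq_nonneg β) hdA
        nlinarith
    · have e1 : B 1 0 = B 0 1 / A 0 1 * A 1 0 := by
        field_simp
        linarith
      have e2 : B 0 0 - B 1 1 = B 0 1 / A 0 1 * (A 0 0 - A 1 1) := by
        field_simp
        linarith
      have e3 : B 0 1 = B 0 1 / A 0 1 * A 0 1 := by
        field_simp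
      set β := B 0 1 / A 0 1
      rw [e1, e2, e3]
      have := mul_nonneg (sq_nonneg β) hdA
      nlinarith
  have h4 : (4 : ℝ) ≤ (B 0 0 + B 1 1) ^ 2 := by nlinarith
  by_contra h
  push Not at h
  have := abs_lt.1 h
  nlinarith

theorem det_blk {D : V3 →L[ℝ] V3} (h2 : ∀ w, D w 2 = w 2) (hD : D.det = 1) : (blk D).det = 1 := by
  rw [ContinuousLinearMap.det, ← LinearMap.det_toMatrix', Matrix.det_fin_three] at hD
  have e : ∀ j : Fin 2, (Pi.single (Fin.castSucc j) (1 : ℝ) : V3) = vec (Pi.single j 1) 0 := by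
    intro j
    funext i
    fin_cases i <;> fin_cases j <;> simp [vec]
  have e0 : (Pi.single 0 (1 : ℝ) : V3) = vec (Pi.single 0 1) 0 := e 0
  have e1 : (Pi.single 1 (1 : ℝ) : V3) = vec (Pi.single 1 1) 0 := e 1
  simp only [LinearMap.toMatrix'_apply, ContinuousLinearMap.coe_coe] at hD
  have h20 : D (Pi.single 0 1) 2 = 0 := by rw [h2]; simp
  have h21 : D (Pi.single 1 1) 2 = 0 := by rw [h2]; simp
  have h22 : D (Pi.single 2 1) 2 = 1 := by rw [h2]; simp
  rw [Matrix.det_fin_two]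
  change D (vec (Pi.single 0 1) 0) 0 * D (vec (Pi.single 1 1) 0) 1 -
    D (vec (Pi.single 1 1) 0) 0 * D (vec (Pi.single 0 1) 0) 1 = 1
  rw [← e0, ← e1]
  have hD' : D (Pi.single 0 1) 0 * D (Pi.single 1 1) 1 * D (Pi.single 2 1) 2 -
      D (Pi.single 0 1) 0 * D (Pi.single 2 1) 1 * D (Pi.single 1 1) 2 -
      D (Pi.single 1 1) 0 * D (Pi.single 0 1) 1 * D (Pi.single 2 1) 2 +
      D (Pi.single 1 1) 0 * D (Pi.single 2 1) 1 * D (Pi.single 0 1) 2 +
      D (Pi.single 2 1) 0 * D (Pi.single 0 1) 1 * D (Pi.single 1 1) 2 -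
      D (Pi.single 2 1) 0 * D (Pi.single 1 1) 1 * D (Pi.single 0 1) 2 = 1 := by
    convert hD using 1
  rw [h20, h21, h22] at hD'
  linarith

theorem fderiv_hom2 {φ : V3 → V3} (hφ : Differentiable ℝ φ) (h2 : ∀ x, φ x 2 = x 2) (w : V3) :
    fderiv ℝ φ 0 w 2 = w 2 := by
  have h := hasFDerivAt_pi'.1 (hφ 0).hasFDerivAt 2
  have e : (fun x => φ x 2) = fun x : V3 => x 2 := by
    funext x
    exact h2 x
  rw [e] at h
  exact congrArg (fun L : V3 →L[ℝ] ℝ => L w) (h.unique (hasFDerivAt_apply (𝕜 := ℝ) 2 (0 : V3)))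

/-- Area in the orbit of the volume preserving automorphisms. -/
theorem orbit (hA : 4 * A.det ≤ A.trace ^ 2) (hs : ∀ c : ℝ, A ≠ c • (1 : M2)) {φ : V3 → V3}
    (hφ : Differentiable ℝ φ) (hom : ∀ x y, φ (gmul A x y) = gmul A (φ x) (φ y))
    (h2 : ∀ x, φ x 2 = x 2) (hdet : (fderiv ℝ φ 0).det = 1) :
    2 ≤ |(blk (fderiv ℝ φ 0)).trace| ∧ 0 < area A S.f - 2 * H * algVol S ∧
      area A S.f + (|(blk (fderiv ℝ φ 0)).trace| - 2) * (area A S.f - 2 * H * algVol S) ≤
        area A (φ ∘ S.f) := by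
  have hB := blk_comm hφ hom h2
  have hdB := det_blk (fderiv_hom2 hφ h2) hdet
  have h3 := two_le_abs_trace hA hs hB hdB
  refine ⟨h3, by linarith [lower_strict S], ?_⟩
  have key : ∀ σ : ℝ, σ ^ 2 = 1 → σ * (blk (fderiv ℝ φ 0)).trace =
      |(blk (fderiv ℝ φ 0)).trace| → area A S.f + (|(blk (fderiv ℝ φ 0)).trace| - 2) *
        (area A S.f - 2 * H * algVol S) ≤ area A (φ ∘ S.f) := by
    intro σ hσ he
    have h := S.area_image_ge hφ hom h2 σ hσ
    rw [hdB, he] at h
    linarith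
  by_cases h : 0 ≤ (blk (fderiv ℝ φ 0)).trace
  · exact key 1 (by norm_num) (by rw [abs_of_nonneg h, one_mul])
  · exact key (-1) (by norm_num) (by rw [abs_of_neg (not_le.1 h)]; ring)

end Pool.Agent.CMC
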