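import Pool.Agent.CMC.Perim

open MeasureTheory Matrix

noncomputable section

set_option linter.unusedSimpArgs false

namespace Pool.Agent.CMC

/-! ### The fields of the derivations `(B, u)` -/

/-- `k(z) = ∫₀ᶻ e^{-rA} u dr` -/
def kk (A : M2) (u : Fin 2 → ℝ) (z : ℝ) : Fin 2 → ℝ := fun i =>
  ∫ r in (0 : ℝ)..z, (em A r).mulVec u i

theorem continuous_emu (A : M2) (u : Fin 2 → ℝ) (i : Fin 2) :
    Continuous (fun r => (em A r).mulVec u i) := by
  simp only [Matrix.mulVec, dotProduct, Fin.sum_univ_two]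
  exact ((contDiff_em A i 0).continuous.mul continuous_const).add
    ((contDiff_em A i 1).continuous.mul continuous_const)

theorem hasDerivAt_kk (A : M2) (u : Fin 2 → ℝ) (z : ℝ) (i : Fin 2) :
    HasDerivAt (fun z => kk A u z i) ((em A z).mulVec u i) z :=
  intervalIntegral.integral_hasDerivAt_right ((continuous_emu A u i).intervalIntegrable _ _)
    ((continuous_emu A u i).stronglyMeasurableAtFilter _ _) (continuous_emu A u i).continuousAt

theorem em_zero (A : M2) : em A 0 = 1 := by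
  simp [em]

theorem emu_eq (A : M2) (u : Fin 2 → ℝ) (z : ℝ) (i : Fin 2) :
    (em A z).mulVec u i = u i - A.mulVec (kk A u z) i := by
  have hd : ∀ w, HasDerivAt (fun w => (em A w).mulVec u i + A.mulVec (kk A u w) i) 0 w := by
    intro w
    have h0 := ((hasDerivAt_em A w i 0).mul_const (u 0)).add ((hasDerivAt_em A w i 1).mul_const (u 1))
    have h1 := ((hasDerivAt_kk A u w 0).const_mul (A i 0)).add
      ((hasDerivAt_kk A u w 1).const_mul (A i 1))
    have h2 := h0.add h1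
    have e : (fun w => (em A w).mulVec u i + A.mulVec (kk A u w) i) =
        fun w => (em A w i 0 * u 0 + em A w i 1 * u 1) +
          (A i 0 * kk A u w 0 + A i 1 * kk A u w 1) := by
      funext w
      simp only [Matrix.mulVec, dotProduct, Fin.sum_univ_two]
    rw [e]
    refine h2.congr_deriv ?_
    simp only [Matrix.mulVec, dotProduct, Fin.sum_univ_two, Matrix.mul_apply]
    ring
  have hc : (em A z).mulVec u i + A.mulVec (kk A u z) i =
      (em A 0).mulVec u i + A.mulVec (kk A u 0) i :=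
    is_const_of_deriv_eq_zero (fun w => (hd w).differentiableAt) (fun w => (hd w).deriv) z 0
  rw [em_zero] at hc
  have k0 : kk A u 0 = 0 := by
    funext j
    simp [kk]
  rw [k0, Matrix.mulVec_zero, Matrix.one_mulVec] at hc
  simp only [Pi.zero_apply, add_zero] at hc
  linarith

theorem contDiff_kk (A : M2) (u : Fin 2 → ℝ) (i : Fin 2) : ContDiff ℝ 1 (fun z => kk A u z i) := by
  rw [contDiff_one_iff_deriv]
  refine ⟨fun z => (hasDerivAt_kk A u z i).differentiableAt, ?_⟩
  have : deriv (fun z => kk A u z i) = fun z => (em A z).mulVec u i := by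
    funext z
    exact (hasDerivAt_kk A u z i).deriv
  rw [this]
  exact continuous_emu A u i

/-- derivative of the field of the derivation `(B, u)` in the frame -/
def dw (A B : M2) (u : Fin 2 → ℝ) (a w : V3) : V3 :=
  vec (B.mulVec (hor a) + a 2 • u - a 2 • A.mulVec (hor w)) 0

theorem dw0 (A B : M2) (u : Fin 2 → ℝ) (a w : V3) : (dw A B u a w) 0 =
    B 0 0 * a 0 + B 0 1 * a 1 + a 2 * u 0 - a 2 * (A 0 0 * w 0 + A 0 1 * w 1) := by
  simp [dw, vec, hor, Matrix.mulVec, dotProduct, Fin.sum_univ_two, Matrix.vecHead, Matrix.vecTail]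
theorem dw1 (A B : M2) (u : Fin 2 → ℝ) (a w : V3) : (dw A B u a w) 1 =
    B 1 0 * a 0 + B 1 1 * a 1 + a 2 * u 1 - a 2 * (A 1 0 * w 0 + A 1 1 * w 1) := by
  simp [dw, vec, hor, Matrix.mulVec, dotProduct, Fin.sum_univ_two, Matrix.vecHead, Matrix.vecTail]
theorem dw2 (A B : M2) (u : Fin 2 → ℝ) (a w : V3) : (dw A B u a w) 2 = 0 := by
  simp [dw, vec]

/-- The quadratic form `⟨D n, n⟩` of the derivation `D = (B, u)`. -/
def qf (B : M2) (u : Fin 2 → ℝ) (n : V3) : ℝ :=
  (B.mulVec (hor n) + n 2 • u) ⬝ᵥ hor n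

theorem qf_eq (B : M2) (u : Fin 2 → ℝ) (n : V3) : qf B u n =
    (B 0 0 * n 0 + B 0 1 * n 1 + n 2 * u 0) * n 0 +
      (B 1 0 * n 0 + B 1 1 * n 1 + n 2 * u 1) * n 1 := by
  simp [qf, hor, Matrix.mulVec, dotProduct, Fin.sum_univ_two]

theorem key_identity_gen (A B : M2) (u : Fin 2 → ℝ) (a b w : V3) (hw : w 2 = 0) :
    -(conn A a (a ⨯₃ b)) ⬝ᵥ (w ⨯₃ b) + (conn A b (a ⨯₃ b)) ⬝ᵥ (w ⨯₃ a)
      + (a ⨯₃ b) ⬝ᵥ (dw A B u a w ⨯₃ b) - (a ⨯₃ b) ⬝ᵥ (dw A B u b w ⨯₃ a)
      - (a ⨯₃ b) ⬝ᵥ (w ⨯₃ bra A a b) =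
    B.trace * ((a ⨯₃ b) ⬝ᵥ (a ⨯₃ b)) - qf B u (a ⨯₃ b) := by
  simp only [dot3, Pi.neg_apply, conn0, conn1, conn2, cross0, cross1, cross2, dw0, dw1, dw2, bra0,
    bra1, bra2, hw, qf_eq, Matrix.trace_fin_two]
  ring

/-- potential of the flux of `w = B v + k` minus half the trace times `v` -/
def pot (B : M2) (v : V3) (k : Fin 2 → ℝ) : ℝ :=
  ((B 0 0 * v 0 + B 0 1 * v 1) * v 1 - (B 1 0 * v 0 + B 1 1 * v 1) * v 0) / 2 +
    (k 0 * v 1 - k 1 * v 0)

variable {A : M2} {H : ℝ} (S : HSphere A H)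

namespace HSphere

/-- `k` along the sphere -/
def ku (u : Fin 2 → ℝ) (q : ℝ × ℝ) : Fin 2 → ℝ := kk A u (S.G q 2)

/-- the field of the derivation `(B, u)` along the sphere -/
def ww (B : M2) (u : Fin 2 → ℝ) (q : ℝ × ℝ) : V3 :=
  vec (B.mulVec (hor (S.vv q)) + S.ku u q) 0

theorem contDiff_ku (u : Fin 2 → ℝ) (i : Fin 2) : ContDiff ℝ 1 (fun q => S.ku u q i) :=
  (contDiff_kk A u i).comp (contDiff_pi.1 S.contDiff_G1 2)

theorem fderiv_ku (u : Fin 2 → ℝ) (i : Fin 2) (q d : ℝ × ℝ) :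
    fderiv ℝ (fun q => S.ku u q i) q d =
      frame A (S.G q) (fderiv ℝ S.G q d) 2 * (u i - A.mulVec (S.ku u q) i) := by
  have hG1 : DifferentiableAt ℝ S.G q := (S.contDiff_G1.differentiable (by norm_num)).differentiableAt
  have hG2 := hasFDerivAt_pi'.1 hG1.hasFDerivAt 2
  have h := ((hasDerivAt_kk A u (S.G q 2) i).comp_hasFDerivAt q hG2).fderiv
  simp only [Function.comp_def] at h
  unfold ku
  rw [h, emu_eq]
  simp [frame, vec, mul_comm]

theorem contDiff_ww (B : M2) (u : Fin 2 → ℝ) : ContDiff ℝ 1 (S.ww B u) := by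
  have hv := contDiff_pi.1 S.contDiff_vv
  have hk := S.contDiff_ku u
  rw [contDiff_pi]
  intro i
  fin_cases i
  · have e : (fun q => S.ww B u q ⟨0, by norm_num⟩) = fun q =>
        B 0 0 * S.vv q 0 + B 0 1 * S.vv q 1 + S.ku u q 0 := by
      funext q
      simp [ww, vec, hor, Matrix.mulVec, dotProduct, Fin.sum_univ_two]
    rw [e]
    exact ((contDiff_const.mul (hv 0)).add (contDiff_const.mul (hv 1))).add (hk 0)
  · have e : (fun q => S.ww B u q ⟨1, by norm_num⟩) = fun q =>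
        B 1 0 * S.vv q 0 + B 1 1 * S.vv q 1 + S.ku u q 1 := by
      funext q
      simp [ww, vec, hor, Matrix.mulVec, dotProduct, Fin.sum_univ_two]
    rw [e]
    exact ((contDiff_const.mul (hv 0)).add (contDiff_const.mul (hv 1))).add (hk 1)
  · exact contDiff_const

theorem fderiv_vv_apply (q d : ℝ × ℝ) (i : Fin 3) :
    fderiv ℝ (fun q => S.vv q i) q d = dv A (frame A (S.G q) (fderiv ℝ S.G q d)) (S.vv q) i := by
  rw [← fderiv_vv]
  exact (fderiv_comp_apply ((S.contDiff_vv.differentiable (by norm_num)).differentiableAt) d i).symm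

theorem fderiv_ww {B : M2} (hB : B * A = A * B) (u : Fin 2 → ℝ) (q d : ℝ × ℝ) :
    fderiv ℝ (S.ww B u) q d =
      dw A B u (frame A (S.G q) (fderiv ℝ S.G q d)) (S.ww B u q) := by
  have hv := fun i => ((contDiff_pi.1 S.contDiff_vv i).differentiable
    (by norm_num)).differentiableAt (x := q) |>.hasFDerivAt
  have hk := fun i => ((S.contDiff_ku u i).differentiable
    (by norm_num)).differentiableAt (x := q) |>.hasFDerivAt
  have hd := ((S.contDiff_ww B u).differentiable (by norm_num)).differentiableAt (x := q)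
  have b00 := congrFun (congrFun hB 0) 0
  have b01 := congrFun (congrFun hB 0) 1
  have b10 := congrFun (congrFun hB 1) 0
  have b11 := congrFun (congrFun hB 1) 1
  simp only [Matrix.mul_apply, Fin.sum_univ_two] at b00 b01 b10 b11
  have k0 := S.fderiv_ku u 0 q d
  have k1 := S.fderiv_ku u 1 q d
  have v0 := S.fderiv_vv_apply q d 0
  have v1 := S.fderiv_vv_apply q d 1
  rw [dv0] at v0
  rw [dv1] at v1
  have w0 : S.ww B u q 0 = B 0 0 * S.vv q 0 + B 0 1 * S.vv q 1 + S.ku u q 0 := by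
    simp [ww, vec, hor, Matrix.mulVec, dotProduct, Fin.sum_univ_two]
  have w1 : S.ww B u q 1 = B 1 0 * S.vv q 0 + B 1 1 * S.vv q 1 + S.ku u q 1 := by
    simp [ww, vec, hor, Matrix.mulVec, dotProduct, Fin.sum_univ_two]
  simp only [Matrix.mulVec, dotProduct, Fin.sum_univ_two] at k0 k1
  funext i
  rw [fderiv_comp_apply hd]
  fin_cases i
  · have e : (fun q => S.ww B u q ⟨0, by norm_num⟩) = fun q =>
        B 0 0 * S.vv q 0 + B 0 1 * S.vv q 1 + S.ku u q 0 := by
      funext q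
      simp [ww, vec, hor, Matrix.mulVec, dotProduct, Fin.sum_univ_two]
    rw [e]
    have h := ((((hv 0).const_mul (B 0 0)).add ((hv 1).const_mul (B 0 1))).add (hk 0)).fderiv
    erw [h]
    change _ = dw A B u _ _ 0
    rw [dw0, w0, w1]
    simp only [_root_.add_apply, _root_.smul_apply, smul_eq_mul, v0, v1,
      k0]
    linear_combination
      -(frame A (S.G q) (fderiv ℝ S.G q d) 2) * (S.vv q 0 * b00 + S.vv q 1 * b01)
  · have e : (fun q => S.ww B u q ⟨1, by norm_num⟩) = fun q =>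
        B 1 0 * S.vv q 0 + B 1 1 * S.vv q 1 + S.ku u q 1 := by
      funext q
      simp [ww, vec, hor, Matrix.mulVec, dotProduct, Fin.sum_univ_two]
    rw [e]
    have h := ((((hv 0).const_mul (B 1 0)).add ((hv 1).const_mul (B 1 1))).add (hk 1)).fderiv
    erw [h]
    change _ = dw A B u _ _ 1
    rw [dw1, w0, w1]
    simp only [_root_.add_apply, _root_.smul_apply, smul_eq_mul, v0, v1,
      k1]
    linear_combination
      -(frame A (S.G q) (fderiv ℝ S.G q d) 2) * (S.vv q 0 * b10 + S.vv q 1 * b11)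
  · have e : (fun q => S.ww B u q ⟨2, by norm_num⟩) = fun _ => 0 := by
      funext q
      simp [ww, vec]
    rw [e]
    simp [dw, vec]

end HSphere

end Pool.Agent.CMC
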