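import Pool.Agent.CMC.Gen

open MeasureTheory Matrix

noncomputable section

set_option linter.unusedSimpArgs false

namespace Pool.Agent.CMC

variable {A : M2} {H : ℝ} (S : HSphere A H)

namespace HSphere

/-- pointwise Minkowski identity for the derivation `(B, u)` -/
theorem mink_pt_gen {B : M2} (hB : B * A = A * B) (u : Fin 2 → ℝ) {t : ℝ} (s : ℝ)
    (h : Real.sin t ≠ 0) :
    fderiv ℝ (fun q => S.nn q ⬝ᵥ (S.ww B u q ⨯₃ S.vb q)) (t, s) (1, 0) -
      fderiv ℝ (fun q => S.nn q ⬝ᵥ (S.ww B u q ⨯₃ S.va q)) (t, s) (0, 1) =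
    S.cc (t, s) * (B.trace - qf B u (S.nn (t, s)) +
      2 * H * (S.ww B u (t, s) ⬝ᵥ S.nn (t, s))) := by
  rw [fderiv_det S.contDiff_nn (S.contDiff_ww B u) S.contDiff_vb,
    fderiv_det S.contDiff_nn (S.contDiff_ww B u) S.contDiff_va]
  obtain ⟨m, hm1, hm2, hm3⟩ := S.cmc (sph t s) (sphT t s) (sphS t s) (sph_dot t s)
    (sph_dot_sphT t s) (sph_dot_sphS t s) (sphTS_indep s h)
  unfold cov at hm1 hm2
  rw [← va_eq, ← vb_eq] at hm1 hm2
  rw [← fderiv_sph_fst, ← fderiv_nn] at hm1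
  rw [← fderiv_sph_snd, ← fderiv_nn] at hm2
  change fderiv ℝ S.nn (t, s) (1, 0) + conn A (S.va (t, s)) (S.nn (t, s)) = _ at hm1
  change fderiv ℝ S.nn (t, s) (0, 1) + conn A (S.vb (t, s)) (S.nn (t, s)) = _ at hm2
  have hab := S.fderiv_va_vb t s
  have hva := S.fderiv_ww hB u (t, s) (1, 0)
  have hvb := S.fderiv_ww hB u (t, s) (0, 1)
  change _ = dw A B u (S.va (t, s)) (S.ww B u (t, s)) at hva
  change _ = dw A B u (S.vb (t, s)) (S.ww B u (t, s)) at hvb
  have hc := S.cross_eq t s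
  have hc0 := S.cc_ne_zero s h
  have hn := S.nn_unit (t, s)
  have hv2 : S.ww B u (t, s) 2 = 0 := by simp [ww, vec]
  have hkey := key_identity_gen A B u (S.va (t, s)) (S.vb (t, s)) (S.ww B u (t, s)) hv2
  rw [hc] at hkey
  rw [hva, hvb]
  generalize S.cc (t, s) = c at *
  generalize S.nn (t, s) = n at *
  generalize S.va (t, s) = a at *
  generalize S.vb (t, s) = b at *
  generalize S.ww B u (t, s) = v at *
  generalize fderiv ℝ S.nn (t, s) (1, 0) = n1 at *
  generalize fderiv ℝ S.nn (t, s) (0, 1) = n2 at *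
  generalize fderiv ℝ S.vb (t, s) (1, 0) = b1 at *
  generalize fderiv ℝ S.va (t, s) (0, 1) = a2 at *
  generalize m 0 0 = m00 at *
  generalize m 0 1 = m01 at *
  generalize m 1 0 = m10 at *
  generalize m 1 1 = m11 at *
  have en1 : n1 = -(m00 • a + m10 • b) - conn A a n := by rw [← hm1]; abel
  have en2 : n2 = -(m01 • a + m11 • b) - conn A b n := by rw [← hm2]; abel
  have eb1 : b1 = a2 - bra A a b := by
    rw [sub_eq_iff_eq_add] at hab
    rw [hab]
    abel
  have hm00 : m00 = 2 * H - m11 := by linarith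
  have hc' : ∀ i, (a ⨯₃ b) i = c * n i := fun i => by rw [hc]; rfl
  have c0 := hc' 0
  have c1 := hc' 1
  have c2 := hc' 2
  rw [cross0] at c0
  rw [cross1] at c1
  rw [cross2] at c2
  apply mul_left_cancel₀ hc0
  rw [en1, en2, eb1, hm00]
  simp only [dot3, Pi.neg_apply, Pi.sub_apply, Pi.add_apply, Pi.smul_apply, smul_eq_mul, conn0,
    conn1, conn2, cross0, cross1, cross2, dw0, dw1, dw2, bra0, bra1, bra2, hv2, qf_eq] at hkey hn ⊢
  linear_combination hkey + c * 2 * H * (v 0 * c0 + v 1 * c1) + c ^ 2 * B.trace * hn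

theorem contDiff_pot (B : M2) (u : Fin 2 → ℝ) : ContDiff ℝ 1 (fun q => pot B (S.vv q) (S.ku u q)) := by
  have hv := contDiff_pi.1 S.contDiff_vv
  have hk := S.contDiff_ku u
  unfold pot
  have h0 := hv 0
  have h1 := hv 1
  have k0 := hk 0
  have k1 := hk 1
  fun_prop

theorem fderiv_pot (B : M2) (u : Fin 2 → ℝ) (q d : ℝ × ℝ) :
    fderiv ℝ (fun q => pot B (S.vv q) (S.ku u q)) q d =
      (((B 0 0 * fderiv ℝ (fun q => S.vv q 0) q d + B 0 1 * fderiv ℝ (fun q => S.vv q 1) q d) *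
          S.vv q 1 + (B 0 0 * S.vv q 0 + B 0 1 * S.vv q 1) * fderiv ℝ (fun q => S.vv q 1) q d) -
        ((B 1 0 * fderiv ℝ (fun q => S.vv q 0) q d + B 1 1 * fderiv ℝ (fun q => S.vv q 1) q d) *
          S.vv q 0 + (B 1 0 * S.vv q 0 + B 1 1 * S.vv q 1) *
            fderiv ℝ (fun q => S.vv q 0) q d)) / 2 +
      ((fderiv ℝ (fun q => S.ku u q 0) q d * S.vv q 1 +
          S.ku u q 0 * fderiv ℝ (fun q => S.vv q 1) q d) -
        (fderiv ℝ (fun q => S.ku u q 1) q d * S.vv q 0 +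
          S.ku u q 1 * fderiv ℝ (fun q => S.vv q 0) q d)) := by
  have hv := fun i => ((contDiff_pi.1 S.contDiff_vv i).differentiable
    (by norm_num)).differentiableAt (x := q) |>.hasFDerivAt
  have hk := fun i => ((S.contDiff_ku u i).differentiable
    (by norm_num)).differentiableAt (x := q) |>.hasFDerivAt
  have h := (((((((hv 0).const_mul (B 0 0)).add ((hv 1).const_mul (B 0 1))).mul (hv 1)).sub
    ((((hv 0).const_mul (B 1 0)).add ((hv 1).const_mul (B 1 1))).mul (hv 0))).mul_const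
    (1 / 2 : ℝ)).add (((hk 0).mul (hv 1)).sub ((hk 1).mul (hv 0)))).fderiv
  have e : (fun q => pot B (S.vv q) (S.ku u q)) = fun q =>
      ((B 0 0 * S.vv q 0 + B 0 1 * S.vv q 1) * S.vv q 1 -
        (B 1 0 * S.vv q 0 + B 1 1 * S.vv q 1) * S.vv q 0) * (1 / 2) +
      (S.ku u q 0 * S.vv q 1 - S.ku u q 1 * S.vv q 0) := by
    funext q
    unfold pot
    ring
  rw [e]
  erw [h]
  simp only [_root_.add_apply, _root_.sub_apply, _root_.smul_apply, smul_eq_mul, Pi.add_apply]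
  ring

theorem fderiv_va2 (q d : ℝ × ℝ) : fderiv ℝ (fun q => S.va q 2) q d = fderiv ℝ S.va q d 2 :=
  (fderiv_comp_apply ((S.contDiff_va.differentiable (by norm_num)).differentiableAt) d 2).symm

theorem fderiv_vb2 (q d : ℝ × ℝ) : fderiv ℝ (fun q => S.vb q 2) q d = fderiv ℝ S.vb q d 2 :=
  (fderiv_comp_apply ((S.contDiff_vb.differentiable (by norm_num)).differentiableAt) d 2).symm

theorem contDiff_va2 : ContDiff ℝ 1 (fun q => S.va q 2) := contDiff_pi.1 S.contDiff_va 2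
theorem contDiff_vb2 : ContDiff ℝ 1 (fun q => S.vb q 2) := contDiff_pi.1 S.contDiff_vb 2

/-- pointwise flux identity for the derivation `(B, u)` -/
theorem flux_pt_gen (B : M2) (u : Fin 2 → ℝ) (t s : ℝ) :
    fderiv ℝ (fun q => pot B (S.vv q) (S.ku u q) * S.vb q 2) (t, s) (1, 0) -
      fderiv ℝ (fun q => pot B (S.vv q) (S.ku u q) * S.va q 2) (t, s) (0, 1) =
    S.cc (t, s) * (S.ww B u (t, s) ⬝ᵥ S.nn (t, s) -
      B.trace / 2 * (S.vv (t, s) ⬝ᵥ S.nn (t, s))) := by
  have hp := ((S.contDiff_pot B u).differentiable (by norm_num)).differentiableAt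
    (x := (t, s)) |>.hasFDerivAt
  have ha := (S.contDiff_va2.differentiable (by norm_num)).differentiableAt
    (x := (t, s)) |>.hasFDerivAt
  have hb := (S.contDiff_vb2.differentiable (by norm_num)).differentiableAt
    (x := (t, s)) |>.hasFDerivAt
  have e1 := (hp.mul hb).fderiv
  have e2 := (hp.mul ha).fderiv
  erw [e1, e2]
  simp only [_root_.add_apply, _root_.smul_apply, smul_eq_mul, S.fderiv_pot, fderiv_va2,
    fderiv_vb2, fderiv_vv_apply, fderiv_ku]
  have hab := congrFun (S.fderiv_va_vb t s) 2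
  simp only [Pi.sub_apply, Pi.neg_apply, bra2] at hab
  have hc := S.cross_eq t s
  have hc' : ∀ i, (S.va (t, s) ⨯₃ S.vb (t, s)) i = S.cc (t, s) * S.nn (t, s) i :=
    fun i => by rw [hc]; rfl
  have c0 := hc' 0
  have c1 := hc' 1
  rw [cross0] at c0
  rw [cross1] at c1
  have fa : frame A (S.G (t, s)) (fderiv ℝ S.G (t, s) (1, 0)) = S.va (t, s) := rfl
  have fb : frame A (S.G (t, s)) (fderiv ℝ S.G (t, s) (0, 1)) = S.vb (t, s) := rfl
  have w0 : S.ww B u (t, s) 0 =
      B 0 0 * S.vv (t, s) 0 + B 0 1 * S.vv (t, s) 1 + S.ku u (t, s) 0 := by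
    simp [ww, vec, hor, Matrix.mulVec, dotProduct, Fin.sum_univ_two]
  have w1 : S.ww B u (t, s) 1 =
      B 1 0 * S.vv (t, s) 0 + B 1 1 * S.vv (t, s) 1 + S.ku u (t, s) 1 := by
    simp [ww, vec, hor, Matrix.mulVec, dotProduct, Fin.sum_univ_two]
  have w2 : S.ww B u (t, s) 2 = 0 := by simp [ww, vec]
  have v2 : S.vv (t, s) 2 = 0 := by simp [vv, frame, vec]
  simp only [fa, fb, dv0, dv1, dot3, w0, w1, w2, v2, Matrix.trace_fin_two, pot]
  simp only [Matrix.mulVec, dotProduct, Fin.sum_univ_two]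
  generalize S.cc (t, s) = c at *
  generalize S.nn (t, s) = n at *
  generalize S.va (t, s) = a at *
  generalize S.vb (t, s) = b at *
  generalize S.vv (t, s) = v at *
  generalize S.ku u (t, s) = k at *
  generalize fderiv ℝ S.vb (t, s) (1, 0) 2 = b1 at *
  generalize fderiv ℝ S.va (t, s) (0, 1) 2 = a2 at *
  have eb1 : b1 = a2 := by linarith
  rw [eb1]
  linear_combination ((B 0 0 * v 0 + B 0 1 * v 1 + k 0) - (B 0 0 + B 1 1) / 2 * v 0) * c0 +
    ((B 1 0 * v 0 + B 1 1 * v 1 + k 1) - (B 0 0 + B 1 1) / 2 * v 1) * c1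

theorem ku_per (u : Fin 2 → ℝ) (t : ℝ) : S.ku u (t, 2 * Real.pi) = S.ku u (t, 0) := by
  have e1 : sph t (2 * Real.pi) = sph t 0 := by simp [sph]
  simp only [ku, G, e1]

theorem ww_per (B : M2) (u : Fin 2 → ℝ) (t : ℝ) : S.ww B u (t, 2 * Real.pi) = S.ww B u (t, 0) := by
  simp only [ww, S.ku_per, S.vv_per]

theorem continuous_ww (B : M2) (u : Fin 2 → ℝ) : Continuous (S.ww B u) :=
  (S.contDiff_ww B u).continuous

theorem continuous_wn (B : M2) (u : Fin 2 → ℝ) : Continuous (fun q => S.ww B u q ⬝ᵥ S.nn q) := by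
  have h1 := S.continuous_ww B u
  have h2 := S.continuous_nn
  fun_prop

theorem continuous_qf (B : M2) (u : Fin 2 → ℝ) : Continuous (fun q => qf B u (S.nn q)) := by
  have h2 := S.continuous_nn
  simp only [qf_eq]
  fun_prop

/-- the integrated Minkowski identity, signed -/
theorem mink_signed_gen {B : M2} (hB : B * A = A * B) (u : Fin 2 → ℝ) :
    dbl (fun q => S.cc q * (B.trace - qf B u (S.nn q) +
      2 * H * (S.ww B u q ⬝ᵥ S.nn q))) = 0 := by
  have h := stokes (contDiff_det S.contDiff_nn (S.contDiff_ww B u) S.contDiff_vb)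
    (contDiff_det S.contDiff_nn (S.contDiff_ww B u) S.contDiff_va)
    (fun s => by rw [S.vb_pole Real.sin_zero]; simp)
    (fun s => by rw [S.vb_pole Real.sin_pi]; simp)
    (fun t => by rw [S.va_per, S.nn_per, S.ww_per])
  rw [← h]
  exact dbl_congr (v := fun q => fderiv ℝ (fun q => S.nn q ⬝ᵥ (S.ww B u q ⨯₃ S.vb q)) q (1, 0) -
      fderiv ℝ (fun q => S.nn q ⬝ᵥ (S.ww B u q ⨯₃ S.va q)) q (0, 1))
    (fun t s hs => (S.mink_pt_gen hB u s hs).symm)

/-- the integrated flux identity, signed -/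
theorem flux_signed_gen (B : M2) (u : Fin 2 → ℝ) :
    dbl (fun q => S.cc q * (S.ww B u q ⬝ᵥ S.nn q - B.trace / 2 * (S.vv q ⬝ᵥ S.nn q))) = 0 := by
  have h := stokes ((S.contDiff_pot B u).mul S.contDiff_vb2)
    ((S.contDiff_pot B u).mul S.contDiff_va2)
    (fun s => by rw [S.vb_pole Real.sin_zero]; simp)
    (fun s => by rw [S.vb_pole Real.sin_pi]; simp)
    (fun t => by rw [S.va_per, S.vv_per, S.ku_per])
  rw [← h]
  exact dbl_congr (v := fun q => fderiv ℝ (fun q => pot B (S.vv q) (S.ku u q) * S.vb q 2) q (1, 0) -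
      fderiv ℝ (fun q => pot B (S.vv q) (S.ku u q) * S.va q 2) q (0, 1))
    (fun t s _ => (S.flux_pt_gen B u t s).symm)

/-- flux of the field of `(B, u)` -/
def wf (B : M2) (u : Fin 2 → ℝ) : ℝ := dbl (fun q => (S.ww B u q ⬝ᵥ S.nn q) * |S.cc q|)
/-- second moment paired with `(B, u)` -/
def mq (B : M2) (u : Fin 2 → ℝ) : ℝ := dbl (fun q => qf B u (S.nn q) * |S.cc q|)

theorem unsign {u : ℝ × ℝ → ℝ} (h : dbl (fun q => S.cc q * u q) = 0) :
    dbl (fun q => u q * |S.cc q|) = 0 := by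
  obtain ⟨ε, hε, hs⟩ := S.exists_sign
  have hε2 : ε * ε = 1 := by rcases hε with h | h <;> rw [h] <;> norm_num
  have e : dbl (fun q => S.cc q * u q) = dbl (fun q => ε * (u q * |S.cc q|)) := by
    apply dbl_congr'
    intro t s k1 k2 k3
    have := hs t s k1 k2 k3
    nth_rewrite 1 [this]
    ring
  rw [e, dbl_const_mul] at h
  have h' := congrArg (fun x => ε * x) h
  simp only [mul_zero, ← mul_assoc, hε2, one_mul] at h'
  exact h'

theorem wf_eq (B : M2) (u : Fin 2 → ℝ) : S.wf B u = B.trace / 2 * S.vf := by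
  have h := S.unsign (S.flux_signed_gen B u)
  have h1 := S.continuous_cc.abs
  have h2 := S.continuous_wn B u
  have h3 := S.continuous_vn
  have e : (fun q => (S.ww B u q ⬝ᵥ S.nn q - B.trace / 2 * (S.vv q ⬝ᵥ S.nn q)) * |S.cc q|) =
      fun q => (S.ww B u q ⬝ᵥ S.nn q) * |S.cc q| +
        (-(B.trace / 2)) * ((S.vv q ⬝ᵥ S.nn q) * |S.cc q|) := by
    funext q
    ring
  rw [e, dbl_add (by fun_prop) (by fun_prop), dbl_const_mul] at h
  unfold wf vf
  linarith

/-- The Minkowski formula for the derivation `(B, u)`. -/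
theorem mq_eq {B : M2} (hB : B * A = A * B) (u : Fin 2 → ℝ) :
    S.mq B u = B.trace * (S.ar + H * S.vf) := by
  have h := S.unsign (S.mink_signed_gen hB u)
  have h1 := S.continuous_cc.abs
  have h2 := S.continuous_wn B u
  have h3 := S.continuous_qf B u
  have e : (fun q => (B.trace - qf B u (S.nn q) + 2 * H * (S.ww B u q ⬝ᵥ S.nn q)) * |S.cc q|) =
      fun q => B.trace * |S.cc q| + (-1) * (qf B u (S.nn q) * |S.cc q|) +
        (2 * H) * ((S.ww B u q ⬝ᵥ S.nn q) * |S.cc q|) := by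
    funext q
    ring
  rw [e, dbl_add (by fun_prop) (by fun_prop), dbl_add (by fun_prop) (by fun_prop), dbl_const_mul,
    dbl_const_mul, dbl_const_mul] at h
  have h4 := S.wf_eq B u
  unfold wf at h4
  rw [h4] at h
  unfold mq ar
  linarith

end HSphere

end Pool.Agent.CMC
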