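import Pool.Agent.CMC.Mink

open MeasureTheory Matrix

noncomputable section

namespace Pool.Agent.CMC

variable {A : M2} {H : ℝ} (S : HSphere A H)

/-- double integral over the rectangle -/
def dbl (u : ℝ × ℝ → ℝ) : ℝ :=
  ∫ t in (0 : ℝ)..Real.pi, ∫ s in (0 : ℝ)..(2 * Real.pi), u (t, s)

theorem dbl_congr {u v : ℝ × ℝ → ℝ} (h : ∀ t s, Real.sin t ≠ 0 → u (t, s) = v (t, s)) :
    dbl u = dbl v := by
  unfold dbl
  apply intervalIntegral.integral_congr_ae
  have h1 : ∀ᵐ t : ℝ, t ≠ Real.pi := by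
    rw [ae_iff]
    have : {a : ℝ | ¬ a ≠ Real.pi} = {Real.pi} := by
      ext x
      simp
    rw [this]
    exact measure_singleton _
  filter_upwards [h1] with t ht hm
  rw [Set.uIoc_of_le Real.pi_pos.le] at hm
  have hs : Real.sin t ≠ 0 := (Real.sin_pos_of_pos_of_lt_pi hm.1 (lt_of_le_of_ne hm.2 ht)).ne'
  apply intervalIntegral.integral_congr
  intro s _
  exact h t s hs

theorem dbl_add {u v : ℝ × ℝ → ℝ} (hu : Continuous u) (hv : Continuous v) :
    dbl (fun q => u q + v q) = dbl u + dbl v := by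
  unfold dbl
  rw [← intervalIntegral.integral_add ((continuous_inner hu _ _).intervalIntegrable _ _)
    ((continuous_inner hv _ _).intervalIntegrable _ _)]
  apply intervalIntegral.integral_congr
  intro t _
  exact intervalIntegral.integral_add
    ((hu.comp (Continuous.prodMk_right t)).intervalIntegrable _ _)
    ((hv.comp (Continuous.prodMk_right t)).intervalIntegrable _ _)

theorem dbl_const_mul (c : ℝ) (u : ℝ × ℝ → ℝ) : dbl (fun q => c * u q) = c * dbl u := by
  unfold dbl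
  simp only [intervalIntegral.integral_const_mul]

theorem dbl_nonneg {u : ℝ × ℝ → ℝ} (h : ∀ t s, 0 ≤ u (t, s)) : 0 ≤ dbl u := by
  unfold dbl
  apply intervalIntegral.integral_nonneg Real.pi_pos.le
  intro t _
  apply intervalIntegral.integral_nonneg (by positivity)
  intro s _
  exact h t s

theorem dbl_pos {u : ℝ × ℝ → ℝ} (hu : Continuous u) (h : ∀ t s, Real.sin t ≠ 0 → 0 < u (t, s)) :
    0 < dbl u := by
  unfold dbl
  apply intervalIntegral.intervalIntegral_pos_of_pos_on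
    ((continuous_inner hu _ _).intervalIntegrable _ _) _ Real.pi_pos
  intro t ht
  apply intervalIntegral.intervalIntegral_pos_of_pos_on
    ((hu.comp (Continuous.prodMk_right t)).intervalIntegrable _ _) _ (by positivity)
  intro s _
  exact h t s (Real.sin_pos_of_pos_of_lt_pi ht.1 ht.2).ne'

namespace HSphere

theorem continuous_nn : Continuous S.nn := S.contDiff_nn.continuous
theorem continuous_vv : Continuous S.vv := S.contDiff_vv.continuous
theorem continuous_va : Continuous S.va := S.contDiff_va.continuous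
theorem continuous_vb : Continuous S.vb := S.contDiff_vb.continuous

theorem continuous_nn2 : Continuous (fun q => S.nn q 2) := (continuous_apply 2).comp S.continuous_nn

theorem continuous_cc : Continuous S.cc :=
  (contDiff_det S.contDiff_nn S.contDiff_va S.contDiff_vb).continuous

theorem continuous_vn : Continuous (fun q => S.vv q ⬝ᵥ S.nn q) := by
  have h1 := S.continuous_vv
  have h2 := S.continuous_nn
  fun_prop

theorem sint_eq (h : V3 → ℝ) : sint A S.f h = dbl (fun q => h (sph q.1 q.2) * |S.cc q|) := by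
  unfold sint dbl
  simp only [jac_eq]

/-- The signed area density has a constant sign. -/
theorem exists_sign : ∃ ε : ℝ, (ε = 1 ∨ ε = -1) ∧ ∀ t s, Real.sin t ≠ 0 → 0 < t → t < Real.pi →
    S.cc (t, s) = ε * |S.cc (t, s)| := by
  have hconv : Convex ℝ (Set.Ioo (0 : ℝ) Real.pi ×ˢ (Set.univ : Set ℝ)) :=
    (convex_Ioo _ _).prod convex_univ
  have hpre := hconv.isPreconnected
  have hne : ∀ q ∈ Set.Ioo (0 : ℝ) Real.pi ×ˢ (Set.univ : Set ℝ), S.cc q ≠ 0 := by
    rintro ⟨t, s⟩ ⟨ht, _⟩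
    exact S.cc_ne_zero s (Real.sin_pos_of_pos_of_lt_pi ht.1 ht.2).ne'
  by_cases hex : ∃ q ∈ Set.Ioo (0 : ℝ) Real.pi ×ˢ (Set.univ : Set ℝ), S.cc q < 0
  · obtain ⟨q0, hq0, hneg⟩ := hex
    refine ⟨-1, Or.inr rfl, ?_⟩
    intro t s _ h1 h2
    have hm : ((t, s) : ℝ × ℝ) ∈ Set.Ioo (0 : ℝ) Real.pi ×ˢ (Set.univ : Set ℝ) :=
      ⟨⟨h1, h2⟩, Set.mem_univ _⟩
    have hlt : S.cc (t, s) < 0 := by
      by_contra hge
      push Not at hge
      obtain ⟨q, hq, hq2⟩ := hpre.intermediate_value hq0 hm S.continuous_cc.continuousOn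
        (show (0 : ℝ) ∈ Set.Icc (S.cc q0) (S.cc (t, s)) from ⟨hneg.le, hge⟩)
      exact hne q hq hq2
    rw [abs_of_neg hlt]
    ring
  · push Not at hex
    refine ⟨1, Or.inl rfl, ?_⟩
    intro t s _ h1 h2
    have hm : ((t, s) : ℝ × ℝ) ∈ Set.Ioo (0 : ℝ) Real.pi ×ˢ (Set.univ : Set ℝ) :=
      ⟨⟨h1, h2⟩, Set.mem_univ _⟩
    rw [abs_of_nonneg (hex _ hm), one_mul]

end HSphere

theorem dbl_congr' {u v : ℝ × ℝ → ℝ} (h : ∀ t s, Real.sin t ≠ 0 → 0 < t → t < Real.pi →
    u (t, s) = v (t, s)) : dbl u = dbl v := by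
  unfold dbl
  apply intervalIntegral.integral_congr_ae
  have h1 : ∀ᵐ t : ℝ, t ≠ Real.pi := by
    rw [ae_iff]
    have : {a : ℝ | ¬ a ≠ Real.pi} = {Real.pi} := by
      ext x
      simp
    rw [this]
    exact measure_singleton _
  filter_upwards [h1] with t ht hm
  rw [Set.uIoc_of_le Real.pi_pos.le] at hm
  have hlt := lt_of_le_of_ne hm.2 ht
  have hs : Real.sin t ≠ 0 := (Real.sin_pos_of_pos_of_lt_pi hm.1 hlt).ne'
  apply intervalIntegral.integral_congr
  intro s _
  exact h t s hs hm.1 hlt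

namespace HSphere

theorem va_per (t : ℝ) : S.va (t, 2 * Real.pi) = S.va (t, 0) := by
  rw [va_eq, va_eq]
  have e1 : sph t (2 * Real.pi) = sph t 0 := by simp [sph]
  have e2 : sphT t (2 * Real.pi) = sphT t 0 := by simp [sphT]
  rw [e1, e2]

theorem nn_per (t : ℝ) : S.nn (t, 2 * Real.pi) = S.nn (t, 0) := by
  have e1 : sph t (2 * Real.pi) = sph t 0 := by simp [sph]
  simp only [nn, e1]

theorem vv_per (t : ℝ) : S.vv (t, 2 * Real.pi) = S.vv (t, 0) := by
  have e1 : sph t (2 * Real.pi) = sph t 0 := by simp [sph]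
  simp only [vv, G, e1]

theorem vb_pole {t : ℝ} (h : Real.sin t = 0) (s : ℝ) : S.vb (t, s) = 0 := by
  rw [vb_eq]
  have e : sphS t s = 0 := by
    funext i
    fin_cases i <;> simp [sphS, h]
  unfold dfr
  rw [e, map_zero]
  funext i
  fin_cases i <;> simp [frame, vec, hor, Matrix.mulVec, dotProduct]

/-- the integrated Minkowski identity, signed -/
theorem mink_signed :
    dbl (fun q => S.cc q * (1 + (S.nn q 2) ^ 2 + 2 * H * (S.vv q ⬝ᵥ S.nn q))) = 0 := by
  have h := stokes (contDiff_det S.contDiff_nn S.contDiff_vv S.contDiff_vb)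
    (contDiff_det S.contDiff_nn S.contDiff_vv S.contDiff_va)
    (fun s => by rw [S.vb_pole Real.sin_zero]; simp)
    (fun s => by rw [S.vb_pole Real.sin_pi]; simp)
    (fun t => by rw [S.va_per, S.nn_per, S.vv_per])
  rw [← h]
  exact dbl_congr (v := fun q => fderiv ℝ (fun q => S.nn q ⬝ᵥ (S.vv q ⨯₃ S.vb q)) q (1, 0) -
      fderiv ℝ (fun q => S.nn q ⬝ᵥ (S.vv q ⨯₃ S.va q)) q (0, 1))
    (fun t s hs => (S.mink_pt s hs).symm)

/-- the integrated flux identity, signed -/
theorem flux_signed :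
    dbl (fun q => S.cc q * (S.nn q 2 + A.trace / 2 * (S.vv q ⬝ᵥ S.nn q))) = 0 := by
  have h := stokes (contDiff_cr2 S.contDiff_vv S.contDiff_vb)
    (contDiff_cr2 S.contDiff_vv S.contDiff_va)
    (fun s => by rw [S.vb_pole Real.sin_zero]; simp)
    (fun s => by rw [S.vb_pole Real.sin_pi]; simp)
    (fun t => by rw [S.va_per, S.vv_per])
  rw [← h]
  exact dbl_congr (v := fun q => fderiv ℝ (fun q => (S.vv q ⨯₃ S.vb q) 2 / 2) q (1, 0) -
      fderiv ℝ (fun q => (S.vv q ⨯₃ S.va q) 2 / 2) q (0, 1))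
    (fun t s _ => (S.flux_pt t s).symm)

/-- area -/
def ar : ℝ := dbl (fun q => |S.cc q|)
/-- second vertical moment of the normal -/
def m2 : ℝ := dbl (fun q => (S.nn q 2) ^ 2 * |S.cc q|)
/-- first vertical moment of the normal -/
def m1 : ℝ := dbl (fun q => S.nn q 2 * |S.cc q|)
/-- flux of the horizontal field -/
def vf : ℝ := dbl (fun q => (S.vv q ⬝ᵥ S.nn q) * |S.cc q|)

theorem mink : S.ar + S.m2 + 2 * H * S.vf = 0 := by
  obtain ⟨ε, hε, hs⟩ := S.exists_sign
  have hε2 : ε * ε = 1 := by rcases hε with h | h <;> rw [h] <;> norm_num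
  have h := S.mink_signed
  have h1 := S.continuous_cc.abs
  have h2 := S.continuous_nn2
  have h3 := S.continuous_vn
  have e : dbl (fun q => S.cc q * (1 + (S.nn q 2) ^ 2 + 2 * H * (S.vv q ⬝ᵥ S.nn q))) =
      dbl (fun q => ε * (|S.cc q| + (S.nn q 2) ^ 2 * |S.cc q| +
        2 * H * ((S.vv q ⬝ᵥ S.nn q) * |S.cc q|))) := by
    apply dbl_congr'
    intro t s k1 k2 k3
    have := hs t s k1 k2 k3
    nth_rewrite 1 [this]
    ring
  rw [e, dbl_const_mul, dbl_add (by fun_prop) (by fun_prop), dbl_add h1 (by fun_prop),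
    dbl_const_mul] at h
  have h' := congrArg (fun x => ε * x) h
  simp only [mul_zero, ← mul_assoc, hε2, one_mul] at h'
  unfold ar m2 vf
  linarith

theorem flux : S.m1 + A.trace / 2 * S.vf = 0 := by
  obtain ⟨ε, hε, hs⟩ := S.exists_sign
  have hε2 : ε * ε = 1 := by rcases hε with h | h <;> rw [h] <;> norm_num
  have h := S.flux_signed
  have h1 := S.continuous_cc.abs
  have h2 := S.continuous_nn2
  have h3 := S.continuous_vn
  have e : dbl (fun q => S.cc q * (S.nn q 2 + A.trace / 2 * (S.vv q ⬝ᵥ S.nn q))) =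
      dbl (fun q => ε * (S.nn q 2 * |S.cc q| +
        A.trace / 2 * ((S.vv q ⬝ᵥ S.nn q) * |S.cc q|))) := by
    apply dbl_congr'
    intro t s k1 k2 k3
    have := hs t s k1 k2 k3
    nth_rewrite 1 [this]
    ring
  rw [e, dbl_const_mul, dbl_add (by fun_prop) (by fun_prop), dbl_const_mul] at h
  have h' := congrArg (fun x => ε * x) h
  simp only [mul_zero, ← mul_assoc, hε2, one_mul] at h'
  unfold m1 vf
  linarith

theorem ar_pos : 0 < S.ar :=
  dbl_pos S.continuous_cc.abs fun _ s h => abs_pos.2 (S.cc_ne_zero s h)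

theorem m2_nonneg : 0 ≤ S.m2 := dbl_nonneg fun _ _ => mul_nonneg (sq_nonneg _) (abs_nonneg _)

theorem nn2_sq_le (q : ℝ × ℝ) : (S.nn q 2) ^ 2 ≤ 1 := by
  have := S.nn_unit q
  rw [dot3] at this
  nlinarith [mul_self_nonneg (S.nn q 0), mul_self_nonneg (S.nn q 1)]

theorem m2_le : S.m2 ≤ S.ar := by
  have h1 := S.continuous_cc.abs
  have h2 := S.continuous_nn2
  have : 0 ≤ dbl (fun q => |S.cc q| + (-1) * ((S.nn q 2) ^ 2 * |S.cc q|)) := by
    apply dbl_nonneg
    intro t s
    nlinarith [abs_nonneg (S.cc (t, s)), S.nn2_sq_le (t, s)]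
  rw [dbl_add h1 (by fun_prop), dbl_const_mul] at this
  unfold m2 ar
  linarith

theorem cauchy : S.m1 ^ 2 ≤ S.ar * S.m2 := by
  have h1 := S.continuous_cc.abs
  have h2 := S.continuous_nn2
  have key : ∀ x y : ℝ, 0 ≤ x ^ 2 * S.ar + (-2 * x * y) * S.m1 + y ^ 2 * S.m2 := by
    intro x y
    have : 0 ≤ dbl (fun q => x ^ 2 * |S.cc q| + (-2 * x * y) * (S.nn q 2 * |S.cc q|) +
        y ^ 2 * ((S.nn q 2) ^ 2 * |S.cc q|)) := by
      apply dbl_nonneg
      intro t s
      have : x ^ 2 * |S.cc (t, s)| + (-2 * x * y) * (S.nn (t, s) 2 * |S.cc (t, s)|) +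
        y ^ 2 * ((S.nn (t, s) 2) ^ 2 * |S.cc (t, s)|) =
        (x - y * S.nn (t, s) 2) ^ 2 * |S.cc (t, s)| := by ring
      rw [this]
      positivity
    rw [dbl_add (by fun_prop) (by fun_prop), dbl_add (by fun_prop) (by fun_prop), dbl_const_mul,
      dbl_const_mul, dbl_const_mul] at this
    exact this
  have := key S.m1 S.ar
  have hp := S.ar_pos
  have h3 : 0 ≤ S.ar * (S.ar * S.m2 - S.m1 ^ 2) := by nlinarith
  have h4 := nonneg_of_mul_nonneg_right h3 hp
  linarith

end HSphere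

end Pool.Agent.CMC
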