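import Pool.Agent.CMC.Sphere

open MeasureTheory Matrix

noncomputable section

set_option linter.unusedSimpArgs false

namespace Pool.Agent.CMC

theorem contDiff_det {x y z : ℝ × ℝ → V3} (hx : ContDiff ℝ 1 x) (hy : ContDiff ℝ 1 y)
    (hz : ContDiff ℝ 1 z) : ContDiff ℝ 1 (fun q => x q ⬝ᵥ (y q ⨯₃ z q)) := by
  have hxi := contDiff_pi.1 hx
  have hyi := contDiff_pi.1 hy
  have hzi := contDiff_pi.1 hz
  simp only [dot3, cross0, cross1, cross2]
  exact (((hxi 0).mul (((hyi 1).mul (hzi 2)).sub ((hyi 2).mul (hzi 1)))).add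
    ((hxi 1).mul (((hyi 2).mul (hzi 0)).sub ((hyi 0).mul (hzi 2))))).add
    ((hxi 2).mul (((hyi 0).mul (hzi 1)).sub ((hyi 1).mul (hzi 0))))

theorem fderiv_det {x y z : ℝ × ℝ → V3} (hx : ContDiff ℝ 1 x) (hy : ContDiff ℝ 1 y)
    (hz : ContDiff ℝ 1 z) (q d : ℝ × ℝ) :
    fderiv ℝ (fun q => x q ⬝ᵥ (y q ⨯₃ z q)) q d =
      fderiv ℝ x q d ⬝ᵥ (y q ⨯₃ z q) + x q ⬝ᵥ (fderiv ℝ y q d ⨯₃ z q) +
        x q ⬝ᵥ (y q ⨯₃ fderiv ℝ z q d) := by
  have hxi := fun i => hasFDerivAt_pi'.1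
    ((hx.differentiable (by norm_num)).differentiableAt (x := q)).hasFDerivAt i
  have hyi := fun i => hasFDerivAt_pi'.1
    ((hy.differentiable (by norm_num)).differentiableAt (x := q)).hasFDerivAt i
  have hzi := fun i => hasFDerivAt_pi'.1
    ((hz.differentiable (by norm_num)).differentiableAt (x := q)).hasFDerivAt i
  have h := ((((hxi 0).mul (((hyi 1).mul (hzi 2)).sub ((hyi 2).mul (hzi 1)))).add
    ((hxi 1).mul (((hyi 2).mul (hzi 0)).sub ((hyi 0).mul (hzi 2))))).add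
    ((hxi 2).mul (((hyi 0).mul (hzi 1)).sub ((hyi 1).mul (hzi 0))))).fderiv
  simp only [dot3, cross0, cross1, cross2]
  erw [h]
  simp
  ring

theorem contDiff_cr2 {y z : ℝ × ℝ → V3} (hy : ContDiff ℝ 1 y)
    (hz : ContDiff ℝ 1 z) : ContDiff ℝ 1 (fun q => (y q ⨯₃ z q) 2 / 2) := by
  have hyi := contDiff_pi.1 hy
  have hzi := contDiff_pi.1 hz
  simp only [cross2]
  exact (((hyi 0).mul (hzi 1)).sub ((hyi 1).mul (hzi 0))).div_const 2

theorem fderiv_cr2 {y z : ℝ × ℝ → V3} (hy : ContDiff ℝ 1 y)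
    (hz : ContDiff ℝ 1 z) (q d : ℝ × ℝ) :
    fderiv ℝ (fun q => (y q ⨯₃ z q) 2 / 2) q d =
      ((fderiv ℝ y q d ⨯₃ z q) 2 + (y q ⨯₃ fderiv ℝ z q d) 2) / 2 := by
  have hyi := fun i => hasFDerivAt_pi'.1
    ((hy.differentiable (by norm_num)).differentiableAt (x := q)).hasFDerivAt i
  have hzi := fun i => hasFDerivAt_pi'.1
    ((hz.differentiable (by norm_num)).differentiableAt (x := q)).hasFDerivAt i
  have h := ((((hyi 0).mul (hzi 1)).sub ((hyi 1).mul (hzi 0))).mul_const (1 / 2)).fderiv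
  have e : (fun q => (y q ⨯₃ z q) 2 / 2) = fun q => (y q 0 * z q 1 - y q 1 * z q 0) * (1 / 2) := by
    funext q
    rw [cross2]
    ring
  rw [e]
  erw [h]
  simp [cross2]
  ring

variable {A : M2} {H : ℝ} (S : HSphere A H)

namespace HSphere

theorem fderiv_vv (q : ℝ × ℝ) (d : ℝ × ℝ) : fderiv ℝ S.vv q d =
    dv A (frame A (S.G q) (fderiv ℝ S.G q d)) (S.vv q) := by
  unfold vv
  rw [fderiv_frame A S.contDiff_G1 S.contDiff_hG]
  have h1 : fderiv ℝ (fun q => vec (hor (S.G q)) 0) q d = vec (hor (fderiv ℝ S.G q d)) 0 := by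
    have hd : DifferentiableAt ℝ (fun q => vec (hor (S.G q)) 0) q :=
      (S.contDiff_hG.differentiable (by norm_num)).differentiableAt
    have hG : DifferentiableAt ℝ S.G q :=
      (S.contDiff_G1.differentiable (by norm_num)).differentiableAt
    funext i
    rw [fderiv_comp_apply hd]
    fin_cases i
    · have := fderiv_comp_apply hG d 0
      simp only [vec, hor, Fin.zero_eta, Fin.isValue, Matrix.cons_val_zero]
      exact this.symm
    · have := fderiv_comp_apply hG d 1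
      simp only [vec, hor, Fin.mk_one, Fin.isValue, Matrix.cons_val_one, Matrix.cons_val_zero]
      exact this.symm
    · simp [vec]
  rw [h1]
  funext i
  fin_cases i <;>
  simp [frame, dv, vec, hor, Matrix.mulVec, dotProduct, Fin.sum_univ_two]

theorem fderiv_va_vb (t s : ℝ) : fderiv ℝ S.vb (t, s) (1, 0) - fderiv ℝ S.va (t, s) (0, 1) =
    -bra A (S.va (t, s)) (S.vb (t, s)) := by
  unfold va vb
  rw [fderiv_frame A S.contDiff_G1 (S.contDiff_DG _), fderiv_frame A S.contDiff_G1 (S.contDiff_DG _)]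
  have hsym : fderiv ℝ (fun q => fderiv ℝ S.G q (0, 1)) (t, s) (1, 0) =
      fderiv ℝ (fun q => fderiv ℝ S.G q (1, 0)) (t, s) (0, 1) := by
    have hd : DifferentiableAt ℝ (fderiv ℝ S.G) (t, s) :=
      ((S.contDiff_G.fderiv_right (m := 1) (by norm_num)).differentiable
        (by norm_num)).differentiableAt
    have e : ∀ d d' : ℝ × ℝ, fderiv ℝ (fun q => fderiv ℝ S.G q d) (t, s) d' =
        fderiv ℝ (fderiv ℝ S.G) (t, s) d' d := by
      intro d d'
      rw [fderiv_clm_apply hd (differentiableAt_const d)]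
      simp
    rw [e, e]
    exact (S.contDiff_G.contDiffAt.isSymmSndFDerivAt (by simp)) _ _
  rw [hsym]
  funext i
  fin_cases i <;>
  simp [frame, bra, vec, hor, Matrix.mulVec, dotProduct, Fin.sum_univ_two]

/-- pointwise Minkowski identity -/
theorem mink_pt {t : ℝ} (s : ℝ) (h : Real.sin t ≠ 0) :
    fderiv ℝ (fun q => S.nn q ⬝ᵥ (S.vv q ⨯₃ S.vb q)) (t, s) (1, 0) -
      fderiv ℝ (fun q => S.nn q ⬝ᵥ (S.vv q ⨯₃ S.va q)) (t, s) (0, 1) =
    S.cc (t, s) * (1 + (S.nn (t, s) 2) ^ 2 + 2 * H * (S.vv (t, s) ⬝ᵥ S.nn (t, s))) := by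
  rw [fderiv_det S.contDiff_nn S.contDiff_vv S.contDiff_vb,
    fderiv_det S.contDiff_nn S.contDiff_vv S.contDiff_va]
  obtain ⟨m, hm1, hm2, hm3⟩ := S.cmc (sph t s) (sphT t s) (sphS t s) (sph_dot t s)
    (sph_dot_sphT t s) (sph_dot_sphS t s) (sphTS_indep s h)
  unfold cov at hm1 hm2
  rw [← va_eq, ← vb_eq] at hm1 hm2
  rw [← fderiv_sph_fst, ← fderiv_nn] at hm1
  rw [← fderiv_sph_snd, ← fderiv_nn] at hm2
  change fderiv ℝ S.nn (t, s) (1, 0) + conn A (S.va (t, s)) (S.nn (t, s)) = _ at hm1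
  change fderiv ℝ S.nn (t, s) (0, 1) + conn A (S.vb (t, s)) (S.nn (t, s)) = _ at hm2
  have hab := S.fderiv_va_vb t s
  have hva := S.fderiv_vv (t, s) (1, 0)
  have hvb := S.fderiv_vv (t, s) (0, 1)
  change _ = dv A (S.va (t, s)) (S.vv (t, s)) at hva
  change _ = dv A (S.vb (t, s)) (S.vv (t, s)) at hvb
  have hc := S.cross_eq t s
  have hc0 := S.cc_ne_zero s h
  have hn := S.nn_unit (t, s)
  have hv2 : S.vv (t, s) 2 = 0 := by simp [vv, frame, vec]
  have hkey := key_identity A (S.va (t, s)) (S.vb (t, s)) (S.vv (t, s)) hv2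
  rw [hc] at hkey
  rw [hva, hvb]
  generalize S.cc (t, s) = c at *
  generalize S.nn (t, s) = n at *
  generalize S.va (t, s) = a at *
  generalize S.vb (t, s) = b at *
  generalize S.vv (t, s) = v at *
  generalize fderiv ℝ S.nn (t, s) (1, 0) = n1 at *
  generalize fderiv ℝ S.nn (t, s) (0, 1) = n2 at *
  generalize fderiv ℝ S.vb (t, s) (1, 0) = b1 at *
  generalize fderiv ℝ S.va (t, s) (0, 1) = a2 at *
  generalize m 0 0 = m00 at *
  generalize m 0 1 = m01 at *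
  generalize m 1 0 = m10 at *
  generalize m 1 1 = m11 at *
  have en1 : n1 = -(m00 • a + m10 • b) - conn A a n := by rw [← hm1]; abel
  have en2 : n2 = -(m01 • a + m11 • b) - conn A b n := by rw [← hm2]; abel
  have eb1 : b1 = a2 - bra A a b := by
    rw [sub_eq_iff_eq_add] at hab
    rw [hab]
    abel
  have hm00 : m00 = 2 * H - m11 := by linarith
  have hc' : ∀ i, (a ⨯₃ b) i = c * n i := fun i => by rw [hc]; rfl
  have c0 := hc' 0
  have c1 := hc' 1
  have c2 := hc' 2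
  rw [cross0] at c0
  rw [cross1] at c1
  rw [cross2] at c2
  apply mul_left_cancel₀ hc0
  rw [en1, en2, eb1, hm00]
  simp only [dot3, Pi.neg_apply, Pi.sub_apply, Pi.add_apply, Pi.smul_apply, smul_eq_mul, conn0,
    conn1, conn2, cross0, cross1, cross2, dv0, dv1, dv2, bra0, bra1, bra2, hv2] at hkey hn ⊢
  linear_combination hkey + c * 2 * H * (v 0 * c0 + v 1 * c1) + c ^ 2 * hn

/-- pointwise flux identity -/
theorem flux_pt (t s : ℝ) :
    fderiv ℝ (fun q => (S.vv q ⨯₃ S.vb q) 2 / 2) (t, s) (1, 0) -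
      fderiv ℝ (fun q => (S.vv q ⨯₃ S.va q) 2 / 2) (t, s) (0, 1) =
    S.cc (t, s) * (S.nn (t, s) 2 + A.trace / 2 * (S.vv (t, s) ⬝ᵥ S.nn (t, s))) := by
  rw [fderiv_cr2 S.contDiff_vv S.contDiff_vb, fderiv_cr2 S.contDiff_vv S.contDiff_va]
  have hab := S.fderiv_va_vb t s
  have hva := S.fderiv_vv (t, s) (1, 0)
  have hvb := S.fderiv_vv (t, s) (0, 1)
  change _ = dv A (S.va (t, s)) (S.vv (t, s)) at hva
  change _ = dv A (S.vb (t, s)) (S.vv (t, s)) at hvb
  have hc := S.cross_eq t s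
  have hv2 : S.vv (t, s) 2 = 0 := by simp [vv, frame, vec]
  have hkey := flux_identity A (S.va (t, s)) (S.vb (t, s)) (S.vv (t, s)) hv2
  rw [hc] at hkey
  rw [hva, hvb]
  generalize S.cc (t, s) = c at *
  generalize S.nn (t, s) = n at *
  generalize S.va (t, s) = a at *
  generalize S.vb (t, s) = b at *
  generalize S.vv (t, s) = v at *
  generalize fderiv ℝ S.vb (t, s) (1, 0) = b1 at *
  generalize fderiv ℝ S.va (t, s) (0, 1) = a2 at *
  have eb1 : b1 = a2 - bra A a b := by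
    rw [sub_eq_iff_eq_add] at hab
    rw [hab]
    abel
  rw [eb1]
  simp only [dot3, Pi.sub_apply, Pi.smul_apply, smul_eq_mul, cross2] at hkey ⊢
  linear_combination hkey

end HSphere

end Pool.Agent.CMC
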