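import Pool.Agent.CMC.Strict

open MeasureTheory Matrix Filter Topology

noncomputable section

set_option linter.unusedSimpArgs false

namespace Pool.Agent.CMC

/-- The perimeter is at least `|tr A|` times the volume, for every measurable set. -/
theorem perim_ge' (A : M2) {Ω : Set V3} (hm : MeasurableSet Ω) :
    ENNReal.ofReal (|A.trace| * vol A Ω) ≤ perim A Ω := by
  by_cases hint : IntegrableOn (fun x : V3 => Real.exp (-(x 2 * A.trace))) Ω
  swap
  · have : vol A Ω = 0 := integral_undef hint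
    rw [this, mul_zero, ENNReal.ofReal_zero]
    exact zero_le
  let χ : ContDiffBump (0 : V3) := ⟨1, 2, one_pos, by norm_num⟩
  have hχ : ContDiff ℝ 1 χ := χ.contDiff
  have hχd : Differentiable ℝ χ := hχ.differentiable (by norm_num)
  obtain ⟨σ, hσ1, hσ2⟩ : ∃ σ : ℝ, (σ ^ 2 = 1) ∧ -(A.trace * σ) = |A.trace| := by
    by_cases h : 0 ≤ A.trace
    · exact ⟨-1, by norm_num, by rw [abs_of_nonneg h]; ring⟩
    · exact ⟨1, by norm_num, by rw [abs_of_neg (not_le.1 h)]; ring⟩
  have hσa : |σ| = 1 := by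
    have := congrArg Real.sqrt hσ1
    rwa [Real.sqrt_sq_eq_abs, Real.sqrt_one] at this
  -- a bound for the vertical derivative of the bump
  obtain ⟨C, hC⟩ : ∃ C, ∀ x, ‖fderiv ℝ χ x (Pi.single 2 1)‖ ≤ C := by
    have hc : Continuous (fun x => fderiv ℝ χ x (Pi.single 2 1)) :=
      (hχ.continuous_fderiv (by norm_num)).clm_apply continuous_const
    have hs : HasCompactSupport (fun x => fderiv ℝ χ x (Pi.single 2 1)) := by
      have := χ.hasCompactSupport.fderiv (𝕜 := ℝ)
      apply this.mono'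
      intro x hx
      apply subset_tsupport
      intro h0
      apply hx
      simp only [h0]
      rfl
    exact hs.exists_bound_of_continuous hc
  have hC0 : 0 ≤ C := le_trans (norm_nonneg _) (hC 0)
  let W : ℕ → V3 → V3 := fun n x => vec 0 (σ * χ (((n : ℝ) + 1)⁻¹ • x))
  have hpos : ∀ n : ℕ, (0 : ℝ) < ((n : ℝ) + 1)⁻¹ := fun n => by positivity
  have hW : ∀ n, IsTest A (W n) := by
    intro n
    refine ⟨?_, ?_, ?_⟩
    · rw [contDiff_pi]
      intro i
      fin_cases i
      · exact contDiff_const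
      · exact contDiff_const
      · exact contDiff_const.mul (hχ.comp (contDiff_const_smul _))
    · have h1 : HasCompactSupport (fun x : V3 => χ (((n : ℝ) + 1)⁻¹ • x)) :=
        χ.hasCompactSupport.comp_smul (hpos n).ne'
      apply h1.mono
      intro x hx h0
      apply hx
      funext i
      fin_cases i <;> simp [W, vec, h0]
    · intro x
      rw [frame_vert, mul_pow, hσ1, one_mul]
      have h0 : 0 ≤ χ (((n : ℝ) + 1)⁻¹ • x) := χ.nonneg
      have h1 : χ (((n : ℝ) + 1)⁻¹ • x) ≤ 1 := χ.le_one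
      nlinarith
  -- divergence
  have hdiv : ∀ n x, dvg A (W n) x = |A.trace| * χ (((n : ℝ) + 1)⁻¹ • x) +
      σ * (((n : ℝ) + 1)⁻¹ * fderiv ℝ χ (((n : ℝ) + 1)⁻¹ • x) (Pi.single 2 1)) := by
    intro n x
    have hWd : DifferentiableAt ℝ (W n) x := ((hW n).1.differentiable (by norm_num)).differentiableAt
    unfold dvg
    rw [Fin.sum_univ_three, fderiv_comp_apply hWd, fderiv_comp_apply hWd, fderiv_comp_apply hWd]
    have e0 : (fun x => W n x 0) = fun _ => (0 : ℝ) := by
      funext x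
      simp [W, vec]
    have e1 : (fun x => W n x 1) = fun _ => (0 : ℝ) := by
      funext x
      simp [W, vec]
    have e2 : (fun x => W n x 2) = fun x => σ * χ (((n : ℝ) + 1)⁻¹ • x) := by
      funext x
      simp [W, vec]
    rw [e0, e1, e2]
    have hl : HasFDerivAt (fun x : V3 => ((n : ℝ) + 1)⁻¹ • x)
        (((n : ℝ) + 1)⁻¹ • ContinuousLinearMap.id ℝ V3) x :=
      (((n : ℝ) + 1)⁻¹ • ContinuousLinearMap.id ℝ V3).hasFDerivAt
    have h3 := ((((hχd _).hasFDerivAt).comp x hl).const_mul σ).fderiv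
    simp only [Function.comp_def] at h3
    rw [h3]
    simp only [fderiv_fun_const, Pi.zero_apply, _root_.zero_apply, zero_add, _root_.smul_apply,
      ContinuousLinearMap.comp_apply, ContinuousLinearMap.id_apply, map_smul, smul_eq_mul]
    have e3 : W n x 2 = σ * χ (((n : ℝ) + 1)⁻¹ • x) := by simp [W, vec]
    rw [e3, ← hσ2]
    ring
  -- lower bound for the integrals
  have hχc : ∀ n : ℕ, Continuous (fun x : V3 => χ (((n : ℝ) + 1)⁻¹ • x)) := fun n =>
    hχ.continuous.comp (continuous_const_smul _)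
  have hI1 : ∀ n : ℕ, IntegrableOn (fun x : V3 => χ (((n : ℝ) + 1)⁻¹ • x) *
      Real.exp (-(x 2 * A.trace))) Ω := by
    intro n
    apply Integrable.mono' hint
    · exact ((hχc n).mul (by fun_prop)).aestronglyMeasurable
    · filter_upwards with x
      rw [norm_mul, Real.norm_eq_abs, Real.norm_eq_abs, abs_of_nonneg χ.nonneg,
        abs_of_pos (Real.exp_pos _)]
      have h1 : χ (((n : ℝ) + 1)⁻¹ • x) ≤ 1 := χ.le_one
      nlinarith [Real.exp_pos (-(x 2 * A.trace))]
  have hI2 : ∀ n : ℕ, IntegrableOn (fun x : V3 => dvg A (W n) x *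
      Real.exp (-(x 2 * A.trace))) Ω := by
    intro n
    have hcd : Continuous (fun x => dvg A (W n) x) := by
      simp only [hdiv]
      have h1 : Continuous (fun x : V3 => fderiv ℝ χ (((n : ℝ) + 1)⁻¹ • x) (Pi.single 2 1)) :=
        ((hχ.continuous_fderiv (by norm_num)).comp (continuous_const_smul _)).clm_apply
          continuous_const
      have h2 := hχc n
      fun_prop
    apply Integrable.mono' (hint.const_mul (|A.trace| + C))
    · exact (hcd.mul (by fun_prop)).aestronglyMeasurable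
    · filter_upwards with x
      rw [norm_mul, Real.norm_eq_abs (Real.exp _), abs_of_pos (Real.exp_pos _)]
      apply mul_le_mul_of_nonneg_right _ (Real.exp_pos _).le
      rw [hdiv]
      refine le_trans (norm_add_le _ _) ?_
      apply add_le_add
      · rw [norm_mul, Real.norm_eq_abs, abs_abs, Real.norm_eq_abs, abs_of_nonneg χ.nonneg]
        have h1 : χ (((n : ℝ) + 1)⁻¹ • x) ≤ 1 := χ.le_one
        have := abs_nonneg A.trace
        nlinarith
      · rw [norm_mul, norm_mul, Real.norm_eq_abs, hσa, one_mul, Real.norm_eq_abs,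
          abs_of_pos (hpos n)]
        have h1 : ((n : ℝ) + 1)⁻¹ ≤ 1 := by
          apply inv_le_one_of_one_le₀
          linarith [(Nat.cast_nonneg n : (0 : ℝ) ≤ n)]
        have h2 := hC (((n : ℝ) + 1)⁻¹ • x)
        have h3 := norm_nonneg (fderiv ℝ χ (((n : ℝ) + 1)⁻¹ • x) (Pi.single 2 1))
        have h4 := (hpos n).le
        nlinarith
  have hlow : ∀ n : ℕ, |A.trace| * (∫ x in Ω, χ (((n : ℝ) + 1)⁻¹ • x) *
      Real.exp (-(x 2 * A.trace))) - ((n : ℝ) + 1)⁻¹ * (C * vol A Ω) ≤ dint A (W n) Ω := by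
    intro n
    unfold vol dint
    rw [← integral_const_mul, ← integral_const_mul, ← integral_const_mul, ← integral_sub]
    · apply setIntegral_mono_on _ (hI2 n) hm
      · intro x _
        rw [hdiv]
        have h2 := hC (((n : ℝ) + 1)⁻¹ • x)
        have h4 := (hpos n).le
        have h5 : -(((n : ℝ) + 1)⁻¹ * C) ≤
            σ * (((n : ℝ) + 1)⁻¹ * fderiv ℝ χ (((n : ℝ) + 1)⁻¹ • x) (Pi.single 2 1)) := by
          have h6 : |σ * (((n : ℝ) + 1)⁻¹ * fderiv ℝ χ (((n : ℝ) + 1)⁻¹ • x) (Pi.single 2 1))| ≤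
              ((n : ℝ) + 1)⁻¹ * C := by
            rw [abs_mul, hσa, one_mul, abs_mul, abs_of_pos (hpos n)]
            exact mul_le_mul_of_nonneg_left (by rw [← Real.norm_eq_abs]; exact h2) h4
          exact (abs_le.1 h6).1
        have h7 := Real.exp_pos (-(x 2 * A.trace))
        have h8 := mul_le_mul_of_nonneg_right h5 h7.le
        nlinarith
      · exact ((hI1 n).const_mul _).sub ((hint.const_mul _).const_mul _)
    · exact (hI1 n).const_mul _
    · exact (hint.const_mul _).const_mul _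
  -- limit
  have hlim1 : Tendsto (fun n : ℕ => ∫ x in Ω, χ (((n : ℝ) + 1)⁻¹ • x) *
      Real.exp (-(x 2 * A.trace))) atTop (𝓝 (vol A Ω)) := by
    apply tendsto_integral_of_dominated_convergence
      (fun x : V3 => Real.exp (-(x 2 * A.trace)))
    · intro n
      exact (hI1 n).aestronglyMeasurable
    · exact hint
    · intro n
      filter_upwards with x
      rw [norm_mul, Real.norm_eq_abs, Real.norm_eq_abs, abs_of_nonneg χ.nonneg,
        abs_of_pos (Real.exp_pos _)]
      have h1 : χ (((n : ℝ) + 1)⁻¹ • x) ≤ 1 := χ.le_one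
      nlinarith [Real.exp_pos (-(x 2 * A.trace))]
    · filter_upwards with x
      have ht : Tendsto (fun n : ℕ => ((n : ℝ) + 1)⁻¹ • x) atTop (𝓝 0) := by
        have h1 : Tendsto (fun n : ℕ => ((n : ℝ) + 1)⁻¹) atTop (𝓝 0) := by
          simpa [one_div] using tendsto_one_div_add_atTop_nhds_zero_nat (𝕜 := ℝ)
        simpa using h1.smul_const x
      have h2 : ∀ᶠ n : ℕ in atTop, χ (((n : ℝ) + 1)⁻¹ • x) *
          Real.exp (-(x 2 * A.trace)) = Real.exp (-(x 2 * A.trace)) := by
        have h3 := ht.eventually (Metric.closedBall_mem_nhds (0 : V3) one_pos)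
        filter_upwards [h3] with n hn
        have : χ (((n : ℝ) + 1)⁻¹ • x) = 1 := χ.one_of_mem_closedBall hn
        rw [this, one_mul]
      exact tendsto_const_nhds.congr' (h2.mono fun n hn => hn.symm)
  have hlim2 : Tendsto (fun n : ℕ => |A.trace| * (∫ x in Ω, χ (((n : ℝ) + 1)⁻¹ • x) *
      Real.exp (-(x 2 * A.trace))) - ((n : ℝ) + 1)⁻¹ * (C * vol A Ω)) atTop
      (𝓝 (|A.trace| * vol A Ω)) := by
    have h1 : Tendsto (fun n : ℕ => ((n : ℝ) + 1)⁻¹) atTop (𝓝 0) := by
      simpa [one_div] using tendsto_one_div_add_atTop_nhds_zero_nat (𝕜 := ℝ)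
    simpa using (hlim1.const_mul |A.trace|).sub (h1.mul_const (C * vol A Ω))
  refine le_of_tendsto' (ENNReal.tendsto_ofReal hlim2) ?_
  intro n
  refine le_trans (ENNReal.ofReal_le_ofReal (hlow n)) ?_
  exact le_iSup₂ (f := fun (W : V3 → V3) (_ : IsTest A W) => ENNReal.ofReal (dint A W Ω)) (W n)
    (hW n)

variable {A : M2} {H : ℝ} (S : HSphere A H)

theorem quad_strict : (area A S.f - 2 * H * algVol S) ^ 2 <
    (4 * H ^ 2 - A.trace ^ 2) * algVol S ^ 2 := by
  have h1 := S.minkowski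
  have h2 := S.flux_id
  have h3 := S.cauchy_strict
  rw [← S.sint_N2, ← S.sint_N2sq, ← S.area_eq, h2] at h3
  have h4 : (sint A S.f fun p => (S.N p 2) ^ 2) = 4 * H * algVol S - area A S.f := by linarith
  rw [h4] at h3
  nlinarith

include S in
theorem trace_lt (hH : 0 ≤ H) : |A.trace| < 2 * H := by
  obtain ⟨h0, hV⟩ := S.H_pos hH
  have hq := quad_strict S
  have h1 : 0 < (4 * H ^ 2 - A.trace ^ 2) * algVol S ^ 2 := lt_of_le_of_lt (sq_nonneg _) hq
  have h2 : 0 < 4 * H ^ 2 - A.trace ^ 2 := pos_of_mul_pos_left h1 (by positivity)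
  apply abs_lt_of_sq_lt_sq _ (by linarith)
  nlinarith

theorem lower_strict : 2 * H * algVol S < area A S.f := by
  have h1 := S.minkowski
  have h2 := S.m2_lt
  rw [← S.sint_N2sq, ← S.area_eq] at h2
  linarith

theorem upper_strict (hH : 0 ≤ H) :
    area A S.f < (2 * H + Real.sqrt (4 * H ^ 2 - A.trace ^ 2)) * algVol S := by
  obtain ⟨_, hV⟩ := S.H_pos hH
  have hq := quad_strict S
  have h1 : 0 < (4 * H ^ 2 - A.trace ^ 2) * algVol S ^ 2 := lt_of_le_of_lt (sq_nonneg _) hq
  have h2 : 0 < 4 * H ^ 2 - A.trace ^ 2 := pos_of_mul_pos_left h1 (by positivity)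
  have h3 : area A S.f - 2 * H * algVol S < Real.sqrt (4 * H ^ 2 - A.trace ^ 2) * algVol S := by
    apply lt_of_pow_lt_pow_left₀ 2 (by positivity)
    rw [mul_pow, Real.sq_sqrt h2.le]
    exact hq
  linarith

/-- The perimeter of a set bounded by the sphere is at most the area of the sphere. -/
theorem perim_le_area {B : Set V3} (hB : Bounds S B) :
    perim A B ≤ ENNReal.ofReal (area A S.f) := by
  obtain ⟨ε, hε, h⟩ := hB
  apply iSup₂_le
  intro W hW
  apply ENNReal.ofReal_le_ofReal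
  rw [h W hW.1, S.sint_eq, S.area_eq]
  unfold HSphere.ar
  have hGc := S.contDiff_G.continuous
  have hWG : ContDiff ℝ 1 (fun q => frame A (S.G q) (W (S.G q))) :=
    contDiff_frame A S.contDiff_G1 (hW.1.comp S.contDiff_G1)
  have hc1 := hWG.continuous
  have hc2 := S.continuous_nn
  have hc3 := S.continuous_cc.abs
  rw [← dbl_const_mul]
  apply dbl_mono
  · have : Continuous (fun q => (frame A (S.G q) (W (S.G q)) ⬝ᵥ S.nn q)) := by fun_prop
    exact continuous_const.mul (this.mul hc3)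
  · exact hc3
  · intro t s
    have h1 := hW.2.2 (S.f (sph t s))
    have h2 := S.nn_unit (t, s)
    change ε * ((frame A (S.f (sph t s)) (W (S.f (sph t s))) ⬝ᵥ S.nn (t, s)) * |S.cc (t, s)|) ≤ _
    generalize frame A (S.f (sph t s)) (W (S.f (sph t s))) = w at *
    generalize S.nn (t, s) = n at *
    have h3 : ε * (w ⬝ᵥ n) ≤ 1 := by
      rw [dot3] at h1 h2 ⊢
      rcases hε with rfl | rfl
      · nlinarith [sq_nonneg (w 0 - n 0), sq_nonneg (w 1 - n 1), sq_nonneg (w 2 - n 2)]
      · nlinarith [sq_nonneg (w 0 + n 0), sq_nonneg (w 1 + n 1), sq_nonneg (w 2 + n 2)]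
    have := mul_le_mul_of_nonneg_right h3 (abs_nonneg (S.cc (t, s)))
    linarith

/-- Near isoperimetry, strict, for all measurable competitors. -/
theorem near_isoperimetric' (hA : A.trace ≠ 0) (hH : 0 ≤ H) {B : Set V3} (hB : Bounds S B)
    {Ω : Set V3} (hm : MeasurableSet Ω) (hv : vol A B ≤ vol A Ω) :
    ENNReal.ofReal (area A S.f) <
      ENNReal.ofReal ((2 * H + Real.sqrt (4 * H ^ 2 - A.trace ^ 2)) / |A.trace|) * perim A Ω := by
  have h1 := upper_strict S hH
  have h2 := vol_of_bounds S hH hB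
  obtain ⟨h3, h3'⟩ := S.H_pos hH
  have hτ : 0 < |A.trace| := abs_pos.2 hA
  have hk : 0 < (2 * H + Real.sqrt (4 * H ^ 2 - A.trace ^ 2)) / |A.trace| := by
    have := Real.sqrt_nonneg (4 * H ^ 2 - A.trace ^ 2)
    positivity
  refine lt_of_lt_of_le ?_ (mul_le_mul_right (perim_ge' A hm) _)
  rw [← ENNReal.ofReal_mul hk.le]
  have hV : 0 < vol A Ω := by
    rw [← h2] at h3'
    linarith
  have e : (2 * H + Real.sqrt (4 * H ^ 2 - A.trace ^ 2)) / |A.trace| * (|A.trace| * vol A Ω) =
      (2 * H + Real.sqrt (4 * H ^ 2 - A.trace ^ 2)) * vol A Ω := by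
    field_simp
  rw [e]
  apply (ENNReal.ofReal_lt_ofReal_iff _).2
  · refine lt_of_lt_of_le h1 ?_
    apply mul_le_mul_of_nonneg_left
    · rw [← h2]
      exact hv
    · have := Real.sqrt_nonneg (4 * H ^ 2 - A.trace ^ 2)
      linarith
  · have := Real.sqrt_nonneg (4 * H ^ 2 - A.trace ^ 2)
    positivity

end Pool.Agent.CMC
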