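import Pool.Agent.CMC.Gen2

open MeasureTheory Matrix

noncomputable section

set_option linter.unusedSimpArgs false

namespace Pool.Agent.CMC

/-! ### Automorphisms -/

/-- the differential at the identity of the left translation by `x` -/
def dL (A : M2) (x w : V3) : V3 := vec ((NormedSpace.exp (x 2 • A)).mulVec (hor w)) (w 2)

theorem em_mul_exp (A : M2) (z : ℝ) : em A z * NormedSpace.exp (z • A) = 1 := by
  have h := em_add A z (-z)
  rw [add_neg_cancel, em_zero] at h
  have : em A (-z) = NormedSpace.exp (z • A) := by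
    unfold em
    rw [neg_neg]
  rw [← this, ← h]

theorem exp_mul_em (A : M2) (z : ℝ) : NormedSpace.exp (z • A) * em A z = 1 := by
  have h := em_add A (-z) z
  rw [neg_add_cancel, em_zero] at h
  have : em A (-z) = NormedSpace.exp (z • A) := by
    unfold em
    rw [neg_neg]
  rw [← this, ← h]

theorem hor_vec (h : Fin 2 → ℝ) (c : ℝ) : hor (vec h c) = h := by
  funext i
  fin_cases i <;> rfl

theorem vec2 (h : Fin 2 → ℝ) (c : ℝ) : vec h c 2 = c := rfl

theorem dL_frame (A : M2) (x v : V3) : dL A x (frame A x v) = v := by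
  unfold dL frame
  rw [hor_vec, vec2, Matrix.mulVec_mulVec, exp_mul_em, Matrix.one_mulVec]
  exact vec_hor v

theorem frame_dL (A : M2) (x w : V3) : frame A x (dL A x w) = w := by
  unfold dL frame
  rw [hor_vec, vec2, Matrix.mulVec_mulVec, em_mul_exp, Matrix.one_mulVec]
  exact vec_hor w

theorem gmul_zero (A : M2) (x : V3) : gmul A x 0 = x := by
  unfold gmul
  have : hor (0 : V3) = 0 := by
    funext i
    fin_cases i <;> rfl
  rw [this, Matrix.mulVec_zero, add_zero]
  simp only [Pi.zero_apply, add_zero]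
  exact vec_hor x

theorem hasFDerivAt_gmul (A : M2) (x : V3) (w : V3) :
    HasDerivAt (fun r : ℝ => gmul A x (r • w)) (dL A x w) 0 := by
  rw [hasDerivAt_pi]
  intro i
  fin_cases i
  · have e : (fun r : ℝ => gmul A x (r • w) ⟨0, by norm_num⟩) = fun r =>
        r * (dL A x w 0) + x 0 := by
      funext r
      simp [gmul, dL, vec, hor, Matrix.mulVec, dotProduct, Fin.sum_univ_two]
      ring
    rw [e]
    simpa using ((hasDerivAt_id (0 : ℝ)).mul_const (dL A x w 0)).add_const (x 0)
  · have e : (fun r : ℝ => gmul A x (r • w) ⟨1, by norm_num⟩) = fun r =>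
        r * (dL A x w 1) + x 1 := by
      funext r
      simp [gmul, dL, vec, hor, Matrix.mulVec, dotProduct, Fin.sum_univ_two]
      ring
    rw [e]
    simpa using ((hasDerivAt_id (0 : ℝ)).mul_const (dL A x w 1)).add_const (x 1)
  · have e : (fun r : ℝ => gmul A x (r • w) ⟨2, by norm_num⟩) = fun r =>
        r * (dL A x w 2) + x 2 := by
      funext r
      simp [gmul, dL, vec]
      ring
    rw [e]
    simpa using ((hasDerivAt_id (0 : ℝ)).mul_const (dL A x w 2)).add_const (x 2)

theorem hom_zero {A : M2} {φ : V3 → V3} (hom : ∀ x y, φ (gmul A x y) = gmul A (φ x) (φ y)) :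
    φ 0 = 0 := by
  have h := hom 0 0
  rw [gmul_zero] at h
  have h2 := congrFun h 2
  simp only [gmul, vec2] at h2
  have hz : φ 0 2 = 0 := by linarith
  have h0 := congrArg hor h
  unfold gmul at h0
  rw [hor_vec, hz, zero_smul, NormedSpace.exp_zero, Matrix.one_mulVec] at h0
  have h00 : hor (φ 0) = 0 := by
    have := congrArg (fun v => v - hor (φ 0)) h0
    simp only [sub_self, add_sub_cancel_right] at this
    exact this.symm
  rw [← vec_hor (φ 0), h00, hz]
  funext i
  fin_cases i <;> rfl

/-- In the left-invariant frame, the differential of an automorphism is constant. -/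
theorem frame_hom {A : M2} {φ : V3 → V3} (hφ : Differentiable ℝ φ)
    (hom : ∀ x y, φ (gmul A x y) = gmul A (φ x) (φ y)) (x v : V3) :
    frame A (φ x) (fderiv ℝ φ x v) = fderiv ℝ φ 0 (frame A x v) := by
  set w := frame A x v with hw
  have hv : v = dL A x w := (dL_frame A x v).symm
  have h1 : HasDerivAt (fun r : ℝ => φ (gmul A x (r • w))) (fderiv ℝ φ x v) 0 := by
    have hg := hasFDerivAt_gmul A x w
    have h0 : gmul A x ((0 : ℝ) • w) = x := by rw [zero_smul, gmul_zero]
    have hd : HasFDerivAt φ (fderiv ℝ φ x) (gmul A x ((0 : ℝ) • w)) := by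
      rw [h0]
      exact (hφ x).hasFDerivAt
    rw [hv]
    exact hd.comp_hasDerivAt (0 : ℝ) hg
  have hs : HasDerivAt (fun r : ℝ => φ (r • w)) (fderiv ℝ φ 0 w) 0 := by
    have hd : HasFDerivAt φ (fderiv ℝ φ 0) ((0 : ℝ) • w) := by
      rw [zero_smul]
      exact (hφ 0).hasFDerivAt
    have hl : HasDerivAt (fun r : ℝ => r • w) w 0 := by
      simpa using (hasDerivAt_id (0 : ℝ)).smul_const w
    exact hd.comp_hasDerivAt (0 : ℝ) hl
  have hi := hasDerivAt_pi.1 hs
  have h2 : HasDerivAt (fun r : ℝ => gmul A (φ x) (φ (r • w))) (dL A (φ x) (fderiv ℝ φ 0 w)) 0 := by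
    rw [hasDerivAt_pi]
    intro i
    fin_cases i
    · have e : (fun r : ℝ => gmul A (φ x) (φ (r • w)) ⟨0, by norm_num⟩) = fun r =>
          (NormedSpace.exp (φ x 2 • A)) 0 0 * φ (r • w) 0 +
            (NormedSpace.exp (φ x 2 • A)) 0 1 * φ (r • w) 1 + φ x 0 := by
        funext r
        simp [gmul, vec, hor, Matrix.mulVec, dotProduct, Fin.sum_univ_two]
        ring
      rw [e]
      refine ((((hi 0).const_mul _).add ((hi 1).const_mul _)).add_const _).congr_deriv ?_
      simp [dL, vec, hor, Matrix.mulVec, dotProduct, Fin.sum_univ_two]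
    · have e : (fun r : ℝ => gmul A (φ x) (φ (r • w)) ⟨1, by norm_num⟩) = fun r =>
          (NormedSpace.exp (φ x 2 • A)) 1 0 * φ (r • w) 0 +
            (NormedSpace.exp (φ x 2 • A)) 1 1 * φ (r • w) 1 + φ x 1 := by
        funext r
        simp [gmul, vec, hor, Matrix.mulVec, dotProduct, Fin.sum_univ_two]
        ring
      rw [e]
      refine ((((hi 0).const_mul _).add ((hi 1).const_mul _)).add_const _).congr_deriv ?_
      simp [dL, vec, hor, Matrix.mulVec, dotProduct, Fin.sum_univ_two]
    · have e : (fun r : ℝ => gmul A (φ x) (φ (r • w)) ⟨2, by norm_num⟩) = fun r =>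
          φ (r • w) 2 + φ x 2 := by
        funext r
        simp [gmul, vec]
        ring
      rw [e]
      exact (hi 2).add_const _
  have e : (fun r : ℝ => φ (gmul A x (r • w))) = fun r => gmul A (φ x) (φ (r • w)) := by
    funext r
    exact hom _ _
  rw [e] at h1
  rw [h1.unique h2, frame_dL]

/-- The horizontal block of a linear map of `ℝ³`. -/
def blk (D : V3 →L[ℝ] V3) : M2 := fun i j => D (vec (Pi.single j 1) 0) (Fin.castSucc i)

/-- The image of the vertical vector. -/
def blu (D : V3 →L[ℝ] V3) : Fin 2 → ℝ := fun i => D (vec 0 1) (Fin.castSucc i)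

theorem lin_expand (D : V3 →L[ℝ] V3) (w : V3) (i : Fin 2) :
    D w (Fin.castSucc i) = blk D i 0 * w 0 + blk D i 1 * w 1 + w 2 * blu D i := by
  have hw : w = w 0 • vec (Pi.single 0 1) 0 + w 1 • vec (Pi.single 1 1) 0 + w 2 • vec 0 1 := by
    funext j
    fin_cases j <;> simp [vec]
  conv_lhs => rw [hw]
  simp only [map_add, map_smul, Pi.add_apply, Pi.smul_apply, smul_eq_mul, blk, blu]
  ring

/-- The horizontal block of an automorphism over `X / ℝ²` commutes with `A`. -/
theorem blk_comm {A : M2} {φ : V3 → V3} (hφ : Differentiable ℝ φ)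
    (hom : ∀ x y, φ (gmul A x y) = gmul A (φ x) (φ y)) (h2 : ∀ x, φ x 2 = x 2) :
    blk (fderiv ℝ φ 0) * A = A * blk (fderiv ℝ φ 0) := by
  set B := blk (fderiv ℝ φ 0) with hBdef
  -- `b (e^{zA} p) = e^{zA} b p`
  have hcomm : ∀ (z : ℝ) (p : Fin 2 → ℝ), hor (φ (vec ((NormedSpace.exp (z • A)).mulVec p) 0)) =
      (NormedSpace.exp (z • A)).mulVec (hor (φ (vec p 0))) := by
    intro z p
    have e1 : gmul A (vec 0 z) (vec p 0) = gmul A (vec ((NormedSpace.exp (z • A)).mulVec p) 0)
        (vec 0 z) := by
      unfold gmul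
      simp only [hor_vec, vec2, zero_add, add_zero, Matrix.mulVec_zero]
    have e2 := congrArg φ e1
    rw [hom, hom] at e2
    have e3 := congrArg hor e2
    unfold gmul at e3
    simp only [hor_vec, h2, vec2, zero_smul, NormedSpace.exp_zero, Matrix.one_mulVec] at e3
    have e4 := congrArg (fun v => v - hor (φ (vec 0 z))) e3
    simp only [add_sub_cancel_right, add_sub_cancel_left] at e4
    exact e4.symm
  -- differentiate in `p` at `0`
  have hφ0 := hom_zero hom
  have hdir : ∀ p : Fin 2 → ℝ, ∀ i : Fin 2,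
      HasDerivAt (fun r : ℝ => hor (φ (vec (r • p) 0)) i) (B.mulVec p i) 0 := by
    intro p i
    have hd : HasFDerivAt φ (fderiv ℝ φ 0) ((0 : ℝ) • vec p 0) := by
      rw [zero_smul]
      exact (hφ 0).hasFDerivAt
    have hl : HasDerivAt (fun r : ℝ => r • vec p 0) (vec p 0) 0 := by
      simpa using (hasDerivAt_id (0 : ℝ)).smul_const (vec p 0)
    have hh := hasDerivAt_pi.1 (hd.comp_hasDerivAt (0 : ℝ) hl) (Fin.castSucc i)
    have e : (fun r : ℝ => hor (φ (vec (r • p) 0)) i) =
        fun r : ℝ => (φ ∘ fun r : ℝ => r • vec p 0) r (Fin.castSucc i) := by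
      funext r
      have : vec (r • p) 0 = r • vec p 0 := by
        funext j
        fin_cases j <;> simp [vec]
      simp only [Function.comp_apply, this]
      fin_cases i <;> rfl
    rw [e]
    refine hh.congr_deriv ?_
    rw [lin_expand]
    simp [Matrix.mulVec, dotProduct, Fin.sum_univ_two, vec, hBdef]
  have hexp : ∀ (z : ℝ) (p : Fin 2 → ℝ),
      B.mulVec ((NormedSpace.exp (z • A)).mulVec p) = (NormedSpace.exp (z • A)).mulVec (B.mulVec p) := by
    intro z p
    funext i
    have d1 := hdir ((NormedSpace.exp (z • A)).mulVec p) i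
    have d2 := ((hdir p 0).const_mul ((NormedSpace.exp (z • A)) i 0)).add
      ((hdir p 1).const_mul ((NormedSpace.exp (z • A)) i 1))
    have e : (fun r : ℝ => hor (φ (vec (r • (NormedSpace.exp (z • A)).mulVec p) 0)) i) =
        fun r : ℝ => (NormedSpace.exp (z • A)) i 0 * hor (φ (vec (r • p) 0)) 0 +
          (NormedSpace.exp (z • A)) i 1 * hor (φ (vec (r • p) 0)) 1 := by
      funext r
      rw [← Matrix.mulVec_smul, hcomm]
      simp [Matrix.mulVec, dotProduct, Fin.sum_univ_two]
    rw [e] at d1
    have := d1.unique d2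
    rw [this]
    simp [Matrix.mulVec, dotProduct, Fin.sum_univ_two]
  -- differentiate in `z` at `0`
  have hem : ∀ z : ℝ, B * em A z = em A z * B := by
    intro z
    have h := hexp (-z)
    have e : NormedSpace.exp ((-z) • A) = em A z := rfl
    rw [e] at h
    apply Matrix.ext_of_mulVec_single
    intro j
    rw [← Matrix.mulVec_mulVec, ← Matrix.mulVec_mulVec]
    exact h _
  ext i j
  have l1 : HasDerivAt (fun z => (B * em A z) i j) (-(B * (A * em A 0)) i j) 0 := by
    have := ((hasDerivAt_em A 0 0 j).const_mul (B i 0)).add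
      ((hasDerivAt_em A 0 1 j).const_mul (B i 1))
    have e : (fun z => (B * em A z) i j) = fun z => B i 0 * em A z 0 j + B i 1 * em A z 1 j := by
      funext z
      simp [Matrix.mul_apply, Fin.sum_univ_two]
    rw [e]
    refine this.congr_deriv ?_
    simp only [Matrix.mul_apply, Fin.sum_univ_two]
    ring
  have l2 : HasDerivAt (fun z => (em A z * B) i j) (-((A * em A 0) * B) i j) 0 := by
    have := ((hasDerivAt_em A 0 i 0).mul_const (B 0 j)).add
      ((hasDerivAt_em A 0 i 1).mul_const (B 1 j))
    have e : (fun z => (em A z * B) i j) = fun z => em A z i 0 * B 0 j + em A z i 1 * B 1 j := by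
      funext z
      simp [Matrix.mul_apply, Fin.sum_univ_two]
    rw [e]
    refine this.congr_deriv ?_
    simp only [Matrix.mul_apply, Fin.sum_univ_two]
    ring
  have e : (fun z => (B * em A z) i j) = fun z => (em A z * B) i j := by
    funext z
    rw [hem]
  rw [e] at l1
  have := l1.unique l2
  rw [em_zero, mul_one] at this
  linarith

end Pool.Agent.CMC
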