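import Pool.Agent.CMC.Orbit

open MeasureTheory Matrix

noncomputable section

set_option linter.unusedSimpArgs false

namespace Pool.Agent.CMC

variable {A : M2} {H : ℝ} (S : HSphere A H)

/-- The adjugate of a `2 × 2` matrix. -/
def adj (B : M2) : M2 := !![B 1 1, -B 0 1; -B 1 0, B 0 0]

theorem adj_comm {B : M2} (hB : B * A = A * B) : adj B * A = A * adj B := by
  have b00 := congrFun (congrFun hB 0) 0
  have b01 := congrFun (congrFun hB 0) 1
  have b10 := congrFun (congrFun hB 1) 0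
  have b11 := congrFun (congrFun hB 1) 1
  simp only [Matrix.mul_apply, Fin.sum_univ_two] at b00 b01 b10 b11
  ext i j
  fin_cases i <;> fin_cases j <;>
  simp [adj, Matrix.mul_apply, Fin.sum_univ_two] <;> linarith

/-- Cauchy-Schwarz against the test vector `(σ n_h, n_3)`. -/
theorem cross_test {D : V3 →L[ℝ] V3} (h2 : ∀ w, D w 2 = w 2) (a b n : V3) (c σ : ℝ)
    (hσ : σ ^ 2 = 1) (hn : n ⬝ᵥ n = 1) (hc : a ⨯₃ b = c • n) :
    |c| * (qf (σ • adj (blk D)) (-(adj (blk D)).mulVec (blu D)) n + (blk D).det * n 2 ^ 2) ≤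
      Real.sqrt ((D a ⨯₃ D b) ⬝ᵥ (D a ⨯₃ D b)) := by
  have hc' : ∀ i, (a ⨯₃ b) i = c * n i := fun i => by rw [hc]; rfl
  have c0 := hc' 0
  have c1 := hc' 1
  have c2 := hc' 2
  rw [cross0] at c0
  rw [cross1] at c1
  rw [cross2] at c2
  have a0 := lin_expand D a 0
  have a1 := lin_expand D a 1
  have b0 := lin_expand D b 0
  have b1 := lin_expand D b 1
  simp only [Fin.castSucc_zero] at a0 b0
  change D a 1 = _ at a1
  change D b 1 = _ at b1
  have a2 := h2 a
  have b2 := h2 b
  set x := D a ⨯₃ D b with hx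
  -- inner product with the test vector
  have hip : (σ * n 0) * x 0 + (σ * n 1) * x 1 + n 2 * x 2 =
      c * (qf (σ • adj (blk D)) (-(adj (blk D)).mulVec (blu D)) n + (blk D).det * n 2 ^ 2) := by
    rw [hx, cross0, cross1, cross2, a0, a1, b0, b1, a2, b2, qf_eq, Matrix.det_fin_two]
    simp only [Matrix.smul_apply, smul_eq_mul, adj, Matrix.of_apply, Matrix.cons_val',
      Matrix.cons_val_zero, Matrix.cons_val_one, Matrix.cons_val_fin_one, Pi.neg_apply,
      Matrix.mulVec, dotProduct, Fin.sum_univ_two]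
    linear_combination
      (σ * n 0 * blk D 1 1 - σ * n 1 * blk D 0 1 +
        n 2 * (blk D 0 1 * blu D 1 - blk D 1 1 * blu D 0)) * c0 +
      (σ * n 1 * blk D 0 0 - σ * n 0 * blk D 1 0 -
        n 2 * (blk D 0 0 * blu D 1 - blk D 1 0 * blu D 0)) * c1 +
      (n 2 * (blk D 0 0 * blk D 1 1 - blk D 0 1 * blk D 1 0)) * c2
  have hn' : n 0 * n 0 + n 1 * n 1 + n 2 * n 2 = 1 := by
    rw [← dot3]
    exact hn
  have hcs : ((σ * n 0) * x 0 + (σ * n 1) * x 1 + n 2 * x 2) ^ 2 ≤ x ⬝ᵥ x := by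
    rw [dot3]
    have hu : (σ * n 0) ^ 2 + (σ * n 1) ^ 2 + n 2 ^ 2 = 1 := by
      linear_combination hn' + (n 0 ^ 2 + n 1 ^ 2) * hσ
    generalize σ * n 0 = p at *
    generalize σ * n 1 = q at *
    generalize n 2 = r at *
    nlinarith [sq_nonneg (p * x 1 - q * x 0), sq_nonneg (p * x 2 - r * x 0),
      sq_nonneg (q * x 2 - r * x 1), hu]
  rw [hip] at hcs
  set Q := qf (σ • adj (blk D)) (-(adj (blk D)).mulVec (blu D)) n + (blk D).det * n 2 ^ 2
  calc |c| * Q ≤ |c * Q| := by
        rw [abs_mul]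
        exact mul_le_mul_of_nonneg_left (le_abs_self _) (abs_nonneg _)
    _ = Real.sqrt ((c * Q) ^ 2) := (Real.sqrt_sq_eq_abs _).symm
    _ ≤ _ := Real.sqrt_le_sqrt hcs

theorem dbl_mono {u v : ℝ × ℝ → ℝ} (hu : Continuous u) (hv : Continuous v)
    (h : ∀ t s, u (t, s) ≤ v (t, s)) : dbl u ≤ dbl v := by
  have : 0 ≤ dbl (fun q => v q + (-1) * u q) := by
    apply dbl_nonneg
    intro t s
    linarith [h t s]
  rw [dbl_add hv (by fun_prop), dbl_const_mul] at this
  linarith

namespace HSphere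

/-- The area of the image of the sphere under a map whose differential is constant in the frame. -/
theorem area_image_ge {φ : V3 → V3} (hφ : Differentiable ℝ φ)
    (hom : ∀ x y, φ (gmul A x y) = gmul A (φ x) (φ y)) (h2 : ∀ x, φ x 2 = x 2) (σ : ℝ)
    (hσ : σ ^ 2 = 1) :
    σ * (blk (fderiv ℝ φ 0)).trace * (area A S.f - 2 * H * algVol S) +
      (blk (fderiv ℝ φ 0)).det * (4 * H * algVol S - area A S.f) ≤ area A (φ ∘ S.f) := by
  set D := fderiv ℝ φ 0 with hD
  have hD2 : ∀ w, D w 2 = w 2 := by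
    intro w
    have h := hasFDerivAt_pi'.1 (hφ 0).hasFDerivAt 2
    have e : (fun x => φ x 2) = fun x : V3 => x 2 := by
      funext x
      exact h2 x
    rw [e] at h
    have := congrArg (fun L : V3 →L[ℝ] ℝ => L w) (h.unique (hasFDerivAt_apply (𝕜 := ℝ) 2 (0 : V3)))
    exact this
  have hB := blk_comm hφ hom h2
  rw [← hD] at hB
  -- frame components of the image
  have hdfr : ∀ t s v, dfr A (φ ∘ S.f) (sph t s) v = D (dfr A S.f (sph t s) v) := by
    intro t s v
    unfold dfr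
    have h1 : DifferentiableAt ℝ S.f (sph t s) :=
      (S.smooth_f _ (sph_dot t s)).differentiableAt (by norm_num)
    have := (((hφ (S.f (sph t s))).hasFDerivAt).comp (sph t s) h1.hasFDerivAt).fderiv
    rw [this]
    exact frame_hom hφ hom _ _
  have hjac : ∀ t s, jac A (φ ∘ S.f) t s =
      Real.sqrt ((D (S.va (t, s)) ⨯₃ D (S.vb (t, s))) ⬝ᵥ (D (S.va (t, s)) ⨯₃ D (S.vb (t, s)))) := by
    intro t s
    unfold jac
    rw [hdfr, hdfr, ← va_eq, ← vb_eq]
  have h1 := S.continuous_cc.abs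
  have hn2 := S.continuous_nn2
  have hva := S.continuous_va
  have hvb := S.continuous_vb
  have hq := S.continuous_qf (σ • adj (blk D)) (-(adj (blk D)).mulVec (blu D))
  have e1 : area A (φ ∘ S.f) = dbl (fun q => Real.sqrt ((D (S.va q) ⨯₃ D (S.vb q)) ⬝ᵥ
      (D (S.va q) ⨯₃ D (S.vb q)))) := by
    unfold area sint dbl
    simp only [hjac, one_mul]
  have hcont : Continuous (fun q => Real.sqrt ((D (S.va q) ⨯₃ D (S.vb q)) ⬝ᵥ
      (D (S.va q) ⨯₃ D (S.vb q)))) := by
    apply Real.continuous_sqrt.comp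
    have d1 : Continuous (fun q => D (S.va q)) := D.continuous.comp hva
    have d2 : Continuous (fun q => D (S.vb q)) := D.continuous.comp hvb
    simp only [dot3, cross0, cross1, cross2]
    fun_prop
  have hle : dbl (fun q => qf (σ • adj (blk D)) (-(adj (blk D)).mulVec (blu D)) (S.nn q) *
      |S.cc q| + (blk D).det * ((S.nn q 2) ^ 2 * |S.cc q|)) ≤ area A (φ ∘ S.f) := by
    rw [e1]
    apply dbl_mono (by fun_prop) hcont
    intro t s
    have := cross_test hD2 (S.va (t, s)) (S.vb (t, s)) (S.nn (t, s)) (S.cc (t, s)) σ hσ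
      (S.nn_unit _) (S.cross_eq t s)
    refine le_trans (le_of_eq ?_) this
    ring
  rw [dbl_add (by fun_prop) (by fun_prop), dbl_const_mul] at hle
  have hadj : (σ • adj (blk D)) * A = A * (σ • adj (blk D)) := by
    rw [Matrix.smul_mul, Matrix.mul_smul, adj_comm hB]
  have h3 := S.mq_eq hadj (-(adj (blk D)).mulVec (blu D))
  unfold mq at h3
  rw [h3] at hle
  have h4 := S.minkowski
  have h5 := S.algVol_eq
  rw [sint_N2sq] at h4
  have h6 : (σ • adj (blk D)).trace = σ * (blk D).trace := by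
    rw [Matrix.trace_fin_two, Matrix.trace_fin_two]
    simp only [adj, Matrix.smul_apply, smul_eq_mul, Matrix.of_apply, Matrix.cons_val',
      Matrix.cons_val_zero, Matrix.cons_val_one, Matrix.cons_val_fin_one]
    ring
  have h7 := S.area_eq
  unfold m2 at h4
  rw [h6] at hle
  have h8 : S.vf = -2 * algVol S := by linarith
  have h9 : dbl (fun q => S.nn q 2 ^ 2 * |S.cc q|) = 4 * H * algVol S - area A S.f := by linarith
  rw [h9, h8, ← h7] at hle
  refine le_trans (le_of_eq ?_) hle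
  ring

end HSphere

end Pool.Agent.CMC
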