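import Pool.Agent.CMC.Window

open MeasureTheory Matrix

noncomputable section

namespace Pool.Agent.CMC

theorem vol_nonneg (A : M2) (Ω : Set V3) : 0 ≤ vol A Ω :=
  integral_nonneg fun _ => (Real.exp_pos _).le

theorem frame_vert (A : M2) (x : V3) (c : ℝ) :
    frame A x (vec 0 c) ⬝ᵥ frame A x (vec 0 c) = c ^ 2 := by
  rw [dot3]
  simp [frame, vec, hor, Matrix.mulVec, dotProduct, Fin.sum_univ_two]
  ring

/-- The perimeter is at least `|tr A|` times the volume. -/
theorem perim_ge (A : M2) {Ω : Set V3} (hm : MeasurableSet Ω) (hb : Bornology.IsBounded Ω) :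
    ENNReal.ofReal (|A.trace| * vol A Ω) ≤ perim A Ω := by
  obtain ⟨R, hR⟩ := hb.subset_ball (0 : V3)
  have hR' : Ω ⊂ Metric.ball (0 : V3) (max R 1 + 0) ∨ True := Or.inr trivial
  have hpos : (0 : ℝ) < max R 1 := lt_of_lt_of_le one_pos (le_max_right _ _)
  let χ : ContDiffBump (0 : V3) := ⟨max R 1, max R 1 + 1, hpos, by linarith⟩
  have hχ : ContDiff ℝ 1 χ := χ.contDiff
  obtain ⟨σ, hσ1, hσ2⟩ : ∃ σ : ℝ, (σ ^ 2 = 1) ∧ -(A.trace * σ) = |A.trace| := by
    by_cases h : 0 ≤ A.trace
    · exact ⟨-1, by norm_num, by rw [abs_of_nonneg h]; ring⟩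
    · exact ⟨1, by norm_num, by rw [abs_of_neg (not_le.1 h)]; ring⟩
  let W : V3 → V3 := fun x => vec 0 (σ * χ x)
  have hW : IsTest A W := by
    refine ⟨?_, ?_, ?_⟩
    · rw [contDiff_pi]
      intro i
      fin_cases i
      · exact contDiff_const
      · exact contDiff_const
      · exact contDiff_const.mul hχ
    · apply HasCompactSupport.of_support_subset_isCompact χ.hasCompactSupport.isCompact
      intro x hx
      apply subset_tsupport
      intro h0
      apply hx
      funext i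
      fin_cases i <;> simp [W, vec, h0]
    · intro x
      rw [frame_vert, mul_pow, hσ1, one_mul]
      have h0 : 0 ≤ χ x := χ.nonneg
      have h1 : χ x ≤ 1 := χ.le_one
      nlinarith
  refine le_trans ?_ (le_iSup₂ (f := fun (W : V3 → V3) (_ : IsTest A W) =>
    ENNReal.ofReal (dint A W Ω)) W hW)
  apply ENNReal.ofReal_le_ofReal
  unfold dint vol
  rw [← integral_const_mul]
  apply le_of_eq
  apply setIntegral_congr_fun hm
  intro x hx
  have hxb : x ∈ Metric.ball (0 : V3) (max R 1) :=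
    Metric.ball_subset_ball (le_max_left _ _) (hR hx)
  have hev : W =ᶠ[nhds x] fun _ => vec 0 σ := by
    filter_upwards [Metric.isOpen_ball.mem_nhds hxb] with y hy
    have : χ y = 1 := χ.one_of_mem_closedBall (Metric.ball_subset_closedBall hy)
    simp only [W, this, mul_one]
  have hd : dvg A W x = |A.trace| := by
    unfold dvg
    rw [hev.fderiv_eq, hev.eq_of_nhds]
    have : fderiv ℝ (fun _ : V3 => vec 0 σ) x = 0 := by
      exact (hasFDerivAt_const _ _).fderiv
    rw [this, ← hσ2]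
    simp [vec]
  simp only [hd]

variable {A : M2} {H : ℝ} (S : HSphere A H)

theorem dvg_W (A : M2) (x : V3) : dvg A (fun x => vec (hor x) 0) x = 2 := by
  unfold dvg
  have hd : DifferentiableAt ℝ (fun x : V3 => vec (hor x) 0) x := by
    rw [differentiableAt_pi]
    intro i
    fin_cases i
    · exact differentiableAt_apply 0 x
    · exact differentiableAt_apply 1 x
    · exact differentiableAt_const _
  have e : ∀ i, fderiv ℝ (fun x : V3 => vec (hor x) 0) x (Pi.single i 1) i =
      fderiv ℝ (fun x : V3 => vec (hor x) 0 i) x (Pi.single i 1) := by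
    intro i
    exact fderiv_comp_apply hd _ i
  rw [Fin.sum_univ_three, e 0, e 1, e 2]
  have f0 : (fun x : V3 => vec (hor x) 0 0) = fun x => x 0 := rfl
  have f1 : (fun x : V3 => vec (hor x) 0 1) = fun x => x 1 := rfl
  have f2 : (fun x : V3 => vec (hor x) 0 2) = fun x => 0 := rfl
  rw [f0, f1, f2, (hasFDerivAt_apply (𝕜 := ℝ) 0 x).fderiv, (hasFDerivAt_apply (𝕜 := ℝ) 1 x).fderiv]
  simp [vec]
  norm_num

/-- If the sphere bounds `B` then its algebraic volume is the volume of `B`. -/
theorem vol_of_bounds (hH : 0 ≤ H) {B : Set V3} (hB : Bounds S B) : vol A B = algVol S := by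
  obtain ⟨ε, hε, h⟩ := hB
  have hW : ContDiff ℝ 1 (fun x : V3 => vec (hor x) 0) := by
    rw [contDiff_pi]
    intro i
    fin_cases i
    · exact contDiff_apply ℝ ℝ 0
    · exact contDiff_apply ℝ ℝ 1
    · exact contDiff_const
  have h1 := h _ hW
  have h2 : dint A (fun x => vec (hor x) 0) B = 2 * vol A B := by
    unfold dint vol
    simp only [dvg_W]
    rw [integral_const_mul]
  rw [h2] at h1
  have h3 := S.sint_W
  have h4 := S.algVol_eq
  rw [h3] at h1
  obtain ⟨_, hV⟩ := S.H_pos hH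
  have h5 := vol_nonneg A B
  rcases hε with rfl | rfl
  · linarith
  · linarith

/-- Near isoperimetry. -/
theorem near_isoperimetric (hH : 0 ≤ H) {B : Set V3} (hB : Bounds S B) {Ω : Set V3}
    (hm : MeasurableSet Ω) (hb : Bornology.IsBounded Ω) (hv : vol A B ≤ vol A Ω) :
    ENNReal.ofReal (|A.trace| * area A S.f) ≤
      ENNReal.ofReal (2 * H + Real.sqrt (4 * H ^ 2 - A.trace ^ 2)) * perim A Ω := by
  have h1 := S.upper hH
  have h2 := vol_of_bounds S hH hB
  have h3 := S.H_pos hH
  have hk : 0 ≤ 2 * H + Real.sqrt (4 * H ^ 2 - A.trace ^ 2) := by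
    have := Real.sqrt_nonneg (4 * H ^ 2 - A.trace ^ 2)
    linarith
  refine le_trans ?_ (mul_le_mul_right (perim_ge A hm hb) _)
  rw [← ENNReal.ofReal_mul hk]
  apply ENNReal.ofReal_le_ofReal
  have h4 : (2 * H + Real.sqrt (4 * H ^ 2 - A.trace ^ 2)) * algVol S ≤
      (2 * H + Real.sqrt (4 * H ^ 2 - A.trace ^ 2)) * vol A Ω := by
    apply mul_le_mul_of_nonneg_left _ hk
    rw [← h2]
    exact hv
  calc |A.trace| * area A S.f ≤ |A.trace| *
      ((2 * H + Real.sqrt (4 * H ^ 2 - A.trace ^ 2)) * vol A Ω) :=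
        mul_le_mul_of_nonneg_left (h1.trans h4) (abs_nonneg _)
    _ = _ := by ring

end Pool.Agent.CMC
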