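import Pool.Agent.CMC.Near

open MeasureTheory Matrix Filter Topology

noncomputable section

set_option linter.unusedSimpArgs false

namespace Pool.Agent.CMC

/-- The automorphism `(p, z) ↦ (L p, z)` of `X_A`. -/
def scl (L : ℝ) (x : V3) : V3 := vec (L • hor x) (x 2)

theorem scl0 (L : ℝ) (x : V3) : scl L x 0 = L * x 0 := by simp [scl, vec, hor]
theorem scl1 (L : ℝ) (x : V3) : scl L x 1 = L * x 1 := by simp [scl, vec, hor]
theorem scl2 (L : ℝ) (x : V3) : scl L x 2 = x 2 := rfl

theorem scl_scl {L M : ℝ} (x : V3) : scl L (scl M x) = scl (L * M) x := by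
  funext i
  fin_cases i
  · change scl L (scl M x) 0 = scl (L * M) x 0
    rw [scl0, scl0, scl0]
    ring
  · change scl L (scl M x) 1 = scl (L * M) x 1
    rw [scl1, scl1, scl1]
    ring
  · rfl

theorem scl_one (x : V3) : scl 1 x = x := by
  funext i
  fin_cases i
  · change scl 1 x 0 = x 0
    rw [scl0, one_mul]
  · change scl 1 x 1 = x 1
    rw [scl1, one_mul]
  · rfl

/-- `scl` as a linear map -/
def sclL (L : ℝ) : V3 →L[ℝ] V3 := LinearMap.toContinuousLinearMap
  { toFun := scl L
    map_add' := by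
      intro x y
      funext i
      fin_cases i
      · change scl L (x + y) 0 = scl L x 0 + scl L y 0
        rw [scl0, scl0, scl0, Pi.add_apply]
        ring
      · change scl L (x + y) 1 = scl L x 1 + scl L y 1
        rw [scl1, scl1, scl1, Pi.add_apply]
        ring
      · rfl
    map_smul' := by
      intro c x
      funext i
      fin_cases i
      · change scl L (c • x) 0 = c * scl L x 0
        rw [scl0, scl0, Pi.smul_apply, smul_eq_mul]
        ring
      · change scl L (c • x) 1 = c * scl L x 1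
        rw [scl1, scl1, Pi.smul_apply, smul_eq_mul]
        ring
      · rfl }

theorem sclL_apply (L : ℝ) (x : V3) : sclL L x = scl L x := rfl

theorem sclL_det (L : ℝ) : (sclL L).det = L ^ 2 := by
  rw [ContinuousLinearMap.det, ← LinearMap.det_toMatrix', Matrix.det_fin_three]
  simp only [LinearMap.toMatrix'_apply, ContinuousLinearMap.coe_coe]
  have e : ∀ i j : Fin 3, (sclL L) (fun j' => if j' = j then 1 else 0) i =
      scl L (fun j' => if j' = j then 1 else 0) i := fun i j => rfl
  have f0 : ∀ w : V3, sclL L w 0 = L * w 0 := fun w => scl0 L w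
  have f1 : ∀ w : V3, sclL L w 1 = L * w 1 := fun w => scl1 L w
  have f2 : ∀ w : V3, sclL L w 2 = w 2 := fun w => rfl
  simp [f0, f1, f2]
  ring

theorem frame_scl (A : M2) (L : ℝ) (x u : V3) : frame A (scl L x) (scl L u) = scl L (frame A x u) := by
  funext i
  fin_cases i
  · change frame A (scl L x) (scl L u) 0 = scl L (frame A x u) 0
    rw [scl0]
    simp [frame, scl, vec, hor, Matrix.mulVec, dotProduct, Fin.sum_univ_two]
    ring
  · change frame A (scl L x) (scl L u) 1 = scl L (frame A x u) 1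
    rw [scl1]
    simp [frame, scl, vec, hor, Matrix.mulVec, dotProduct, Fin.sum_univ_two]
    ring
  · rfl

theorem integral_scl {L : ℝ} (hL : 0 < L) {Ω : Set V3} (hm : MeasurableSet Ω) (g : V3 → ℝ) :
    (∫ x in scl L '' Ω, g x) = L ^ 2 * ∫ x in Ω, g (scl L x) := by
  have hinj : Set.InjOn (scl L) Ω := by
    intro x _ y _ h
    have := congrArg (scl L⁻¹) h
    rwa [scl_scl, scl_scl, inv_mul_cancel₀ hL.ne', scl_one, scl_one] at this
  have h := integral_image_eq_integral_abs_det_fderiv_smul volume hm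
    (f := scl L) (f' := fun _ => sclL L) (fun x _ => ((sclL L).hasFDerivAt).hasFDerivWithinAt)
    hinj g
  rw [h]
  simp only [sclL_det, smul_eq_mul]
  rw [integral_const_mul, abs_of_pos (by positivity)]

theorem vol_scl (A : M2) {L : ℝ} (hL : 0 < L) {Ω : Set V3} (hm : MeasurableSet Ω) :
    vol A (scl L '' Ω) = L ^ 2 * vol A Ω := by
  unfold vol
  rw [integral_scl hL hm]
  rfl

theorem differentiable_scl (L : ℝ) : Differentiable ℝ (scl L) := (sclL L).differentiable

theorem fderiv_scl (L : ℝ) (x : V3) : fderiv ℝ (scl L) x = sclL L := (sclL L).hasFDerivAt.fderiv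

/-- the divergence is invariant -/
theorem dvg_scl (A : M2) {L : ℝ} (hL : L ≠ 0) {U : V3 → V3} (hU : Differentiable ℝ U) (x : V3) :
    dvg A (fun y => scl L (U (scl L⁻¹ y))) (scl L x) = dvg A U x := by
  have hf : fderiv ℝ (fun y => scl L (U (scl L⁻¹ y))) (scl L x) =
      (sclL L).comp ((fderiv ℝ U x).comp (sclL L⁻¹)) := by
    have h1 : HasFDerivAt (scl L⁻¹) (sclL L⁻¹) (scl L x) := (sclL L⁻¹).hasFDerivAt
    have e : scl L⁻¹ (scl L x) = x := by rw [scl_scl, inv_mul_cancel₀ hL, scl_one]
    have h2 : HasFDerivAt U (fderiv ℝ U x) (scl L⁻¹ (scl L x)) := by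
      rw [e]
      exact (hU x).hasFDerivAt
    have h3 : HasFDerivAt (scl L) (sclL L) (U (scl L⁻¹ (scl L x))) := (sclL L).hasFDerivAt
    exact (h3.comp (scl L x) (h2.comp (scl L x) h1)).fderiv
  unfold dvg
  rw [hf, Fin.sum_univ_three, Fin.sum_univ_three]
  have e : scl L⁻¹ (scl L x) = x := by rw [scl_scl, inv_mul_cancel₀ hL, scl_one]
  simp only [ContinuousLinearMap.comp_apply, sclL_apply, scl0, scl1, scl2, e]
  have s0 : scl L⁻¹ (Pi.single 0 1) = L⁻¹ • (Pi.single 0 1 : V3) := by
    funext i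
    fin_cases i
    · change scl L⁻¹ (Pi.single 0 1) 0 = _
      rw [scl0]
      simp
    · change scl L⁻¹ (Pi.single 0 1) 1 = _
      rw [scl1]
      simp
    · change scl L⁻¹ (Pi.single 0 1) 2 = _
      rw [scl2]
      simp
  have s1 : scl L⁻¹ (Pi.single 1 1) = L⁻¹ • (Pi.single 1 1 : V3) := by
    funext i
    fin_cases i
    · change scl L⁻¹ (Pi.single 1 1) 0 = _
      rw [scl0]
      simp
    · change scl L⁻¹ (Pi.single 1 1) 1 = _
      rw [scl1]
      simp
    · change scl L⁻¹ (Pi.single 1 1) 2 = _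
      rw [scl2]
      simp
  have s2 : scl L⁻¹ (Pi.single 2 1) = (Pi.single 2 1 : V3) := by
    funext i
    fin_cases i
    · change scl L⁻¹ (Pi.single 2 1) 0 = _
      rw [scl0]
      simp
    · change scl L⁻¹ (Pi.single 2 1) 1 = _
      rw [scl1]
      simp
    · rfl
  rw [s0, s1, s2, map_smul, map_smul]
  simp only [Pi.smul_apply, smul_eq_mul]
  field_simp

theorem dint_scl (A : M2) {L : ℝ} (hL : 0 < L) {Ω : Set V3} (hm : MeasurableSet Ω) {U : V3 → V3}
    (hU : Differentiable ℝ U) :
    dint A (fun y => scl L (U (scl L⁻¹ y))) (scl L '' Ω) = L ^ 2 * dint A U Ω := by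
  unfold dint
  rw [integral_scl hL hm]
  simp only [dvg_scl A hL.ne' hU, scl2]

theorem dint_scl' (A : M2) {L : ℝ} (hL : 0 < L) {Ω : Set V3} (hm : MeasurableSet Ω) {W : V3 → V3}
    (hW : Differentiable ℝ W) :
    dint A W (scl L '' Ω) = L ^ 2 * dint A (fun y => scl L⁻¹ (W (scl L y))) Ω := by
  have hU : Differentiable ℝ (fun y => scl L⁻¹ (W (scl L y))) :=
    (differentiable_scl _).comp (hW.comp (differentiable_scl _))
  rw [← dint_scl A hL hm hU]
  congr 1
  funext y
  rw [scl_scl, scl_scl, mul_inv_cancel₀ hL.ne', scl_one, scl_one]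

theorem contDiff_scl (L : ℝ) : ContDiff ℝ 1 (scl L) := (sclL L).contDiff

theorem compact_scl {L : ℝ} (hL : L ≠ 0) {W : V3 → V3} (hW : HasCompactSupport W) (M : ℝ) :
    HasCompactSupport (fun y => scl M (W (scl L y))) := by
  have hc : IsCompact (scl L⁻¹ '' tsupport W) :=
    hW.isCompact.image (contDiff_scl L⁻¹).continuous
  apply HasCompactSupport.of_support_subset_isCompact hc
  intro y hy
  refine ⟨scl L y, ?_, ?_⟩
  · apply subset_tsupport
    intro h0
    apply hy
    have e : W (scl L y) = 0 := h0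
    change scl M (W (scl L y)) = 0
    rw [e]
    exact map_zero (sclL M)
  · rw [scl_scl, inv_mul_cancel₀ hL, scl_one]

theorem scl_dot (L : ℝ) (w : V3) : scl L w ⬝ᵥ scl L w = L ^ 2 * (w 0 ^ 2 + w 1 ^ 2) + w 2 ^ 2 := by
  rw [dot3, scl0, scl1, scl2]
  ring

/-- Upper bound for the perimeter of the dilated set. -/
theorem perim_scl_le (A : M2) {L : ℝ} (hL : 1 ≤ L) {Ω : Set V3} (hm : MeasurableSet Ω) :
    perim A (scl L '' Ω) ≤ ENNReal.ofReal (L ^ 2) * perim A Ω := by
  have hL0 : 0 < L := by linarith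
  apply iSup₂_le
  intro W hW
  have hWd : Differentiable ℝ W := hW.1.differentiable (by norm_num)
  rw [dint_scl' A hL0 hm hWd, ENNReal.ofReal_mul (by positivity)]
  apply mul_le_mul_right
  apply le_iSup₂ (f := fun (W : V3 → V3) (_ : IsTest A W) => ENNReal.ofReal (dint A W Ω))
    (fun y => scl L⁻¹ (W (scl L y)))
  refine ⟨(contDiff_scl _).comp (hW.1.comp (contDiff_scl _)), compact_scl hL0.ne' hW.2.1 _, ?_⟩
  intro x
  have h1 := hW.2.2 (scl L x)
  set w := frame A x (scl L⁻¹ (W (scl L x))) with hw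
  have e : frame A (scl L x) (W (scl L x)) = scl L w := by
    rw [hw, ← frame_scl, scl_scl, mul_inv_cancel₀ hL0.ne', scl_one]
  rw [e, scl_dot] at h1
  rw [dot3]
  have h2 : 1 ≤ L ^ 2 := by nlinarith
  nlinarith [sq_nonneg (w 0), sq_nonneg (w 1)]

theorem continuous_dvg (A : M2) {W : V3 → V3} (hW : ContDiff ℝ 1 W) : Continuous (dvg A W) := by
  have h1 : ∀ i : Fin 3, Continuous (fun x => fderiv ℝ W x (Pi.single i 1) i) := fun i =>
    (continuous_apply i).comp
      ((hW.continuous_fderiv (by norm_num)).clm_apply continuous_const)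
  have h2 : Continuous (fun x => W x 2) := (continuous_apply 2).comp hW.continuous
  unfold dvg
  exact (continuous_finsetSum _ fun i _ => h1 i).sub (continuous_const.mul h2)

theorem integrableOn_bdd {Ω : Set V3} {R : ℝ} (hR : Ω ⊆ Metric.ball 0 R) {c : V3 → ℝ}
    (hc : Continuous c) : IntegrableOn c Ω :=
  (hc.continuousOn.integrableOn_compact (isCompact_closedBall (0 : V3) R)).mono_set
    (hR.trans Metric.ball_subset_closedBall)

theorem continuous_dens (A : M2) : Continuous (fun x : V3 => Real.exp (-(x 2 * A.trace))) :=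
  Real.continuous_exp.comp (((continuous_apply 2).mul continuous_const).neg)

theorem dint_combo (A : M2) {Ω : Set V3} (hm : MeasurableSet Ω) {R : ℝ}
    (hR : Ω ⊆ Metric.ball (0 : V3) R) (χ : ContDiffBump (0 : V3))
    (hχR : Metric.ball (0 : V3) R ⊆ Metric.ball (0 : V3) χ.rIn) {U₀ : V3 → V3}
    (hU₀ : ContDiff ℝ 1 U₀) {α γ σ : ℝ} (hσ2 : -(A.trace * σ) = |A.trace|) :
    dint A (fun x => α • U₀ x + vec 0 (γ * (σ * χ x))) Ω =
      α * dint A U₀ Ω + γ * (|A.trace| * vol A Ω) := by
  have hχ : ContDiff ℝ 1 χ := χ.contDiff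
  have hE : ContDiff ℝ 1 (fun x : V3 => vec 0 (γ * (σ * χ x))) := by
    rw [contDiff_pi]
    intro i
    fin_cases i
    · exact contDiff_const
    · exact contDiff_const
    · exact contDiff_const.mul (contDiff_const.mul hχ)
  have hU₀d : Differentiable ℝ U₀ := hU₀.differentiable (by norm_num)
  have hpt : ∀ x ∈ Ω, dvg A (fun x => α • U₀ x + vec 0 (γ * (σ * χ x))) x *
      Real.exp (-(x 2 * A.trace)) =
      α * (dvg A U₀ x * Real.exp (-(x 2 * A.trace))) +
        γ * (|A.trace| * Real.exp (-(x 2 * A.trace))) := by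
    intro x hx
    have hxb : x ∈ Metric.ball (0 : V3) χ.rIn := hχR (hR hx)
    have hev : (fun x : V3 => vec 0 (γ * (σ * χ x))) =ᶠ[nhds x] fun _ => vec 0 (γ * σ) := by
      filter_upwards [Metric.isOpen_ball.mem_nhds hxb] with y hy
      have : χ y = 1 := χ.one_of_mem_closedBall (Metric.ball_subset_closedBall hy)
      simp only [this, mul_one]
    have hfd : fderiv ℝ (fun x => α • U₀ x + vec 0 (γ * (σ * χ x))) x = α • fderiv ℝ U₀ x := by
      have h1 : fderiv ℝ (fun x : V3 => vec 0 (γ * (σ * χ x))) x = 0 := by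
        rw [hev.fderiv_eq]
        exact (hasFDerivAt_const _ _).fderiv
      have h2 : HasFDerivAt (fun x : V3 => vec 0 (γ * (σ * χ x)))
          (fderiv ℝ (fun x : V3 => vec 0 (γ * (σ * χ x))) x) x :=
        (hE.differentiable (by norm_num) x).hasFDerivAt
      rw [h1] at h2
      have h3 := (((hU₀d x).hasFDerivAt.const_smul α).add h2).fderiv
      rw [add_zero] at h3
      exact h3
    have hval : (α • U₀ x + vec 0 (γ * (σ * χ x))) 2 = α * U₀ x 2 + γ * σ := by
      have h1 := congrFun hev.eq_of_nhds 2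
      have h2 : vec 0 (γ * (σ * χ x)) 2 = γ * σ := h1
      simp only [Pi.add_apply, Pi.smul_apply, smul_eq_mul, h2]
    unfold dvg
    rw [hfd]
    beta_reduce
    rw [hval, Fin.sum_univ_three, Fin.sum_univ_three, ← hσ2]
    simp only [_root_.smul_apply, Pi.smul_apply, smul_eq_mul]
    ring
  unfold dint vol
  rw [setIntegral_congr_fun hm hpt, integral_add, integral_const_mul, integral_const_mul,
    integral_const_mul]
  · exact (integrableOn_bdd hR ((continuous_dvg A hU₀).mul (continuous_dens A))).const_mul _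
  · exact ((integrableOn_bdd hR (continuous_dens A)).const_mul _).const_mul _

/-- Lower bound with a general pair of coefficients. -/
theorem perim_scl_ge (A : M2) {L : ℝ} (hL : 1 < L) {Ω : Set V3} (hm : MeasurableSet Ω)
    (hb : Bornology.IsBounded Ω) {α γ : ℝ} (hα : 0 ≤ α) (hγ : 0 ≤ γ)
    (hαγ : L ^ 2 * α ^ 2 + γ ^ 2 * L ^ 2 / (L ^ 2 - 1) ≤ 1) :
    ENNReal.ofReal (L ^ 2 * α) * perim A Ω + ENNReal.ofReal (L ^ 2 * γ * (|A.trace| * vol A Ω)) ≤
      perim A (scl L '' Ω) := by
  have hL0 : 0 < L := by linarith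
  have hL1 : 0 < L ^ 2 - 1 := by nlinarith
  obtain ⟨R, hR⟩ := hb.subset_ball (0 : V3)
  have hpos : (0 : ℝ) < max R 1 := lt_of_lt_of_le one_pos (le_max_right _ _)
  let χ : ContDiffBump (0 : V3) := ⟨max R 1, max R 1 + 1, hpos, by linarith⟩
  have hχ : ContDiff ℝ 1 χ := χ.contDiff
  obtain ⟨σ, hσ1, hσ2⟩ : ∃ σ : ℝ, (σ ^ 2 = 1) ∧ -(A.trace * σ) = |A.trace| := by
    by_cases h : 0 ≤ A.trace
    · exact ⟨-1, by norm_num, by rw [abs_of_nonneg h]; ring⟩
    · exact ⟨1, by norm_num, by rw [abs_of_neg (not_le.1 h)]; ring⟩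
  -- for each test field
  have key : ∀ U₀ : V3 → V3, IsTest A U₀ →
      ENNReal.ofReal (L ^ 2 * α * dint A U₀ Ω + L ^ 2 * γ * (|A.trace| * vol A Ω)) ≤
        perim A (scl L '' Ω) := by
    intro U₀ hU₀
    set U : V3 → V3 := fun x => α • U₀ x + vec 0 (γ * (σ * χ x)) with hU
    have hE : ContDiff ℝ 1 (fun x : V3 => vec 0 (γ * (σ * χ x))) := by
      rw [contDiff_pi]
      intro i
      fin_cases i
      · exact contDiff_const
      · exact contDiff_const
      · exact contDiff_const.mul (contDiff_const.mul hχ)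
    have hUc : ContDiff ℝ 1 U := (hU₀.1.const_smul α).add hE
    have hUd : Differentiable ℝ U := hUc.differentiable (by norm_num)
    have hEs : HasCompactSupport (fun x : V3 => vec 0 (γ * (σ * χ x))) := by
      apply HasCompactSupport.of_support_subset_isCompact χ.hasCompactSupport.isCompact
      intro x hx
      apply subset_tsupport
      intro h0
      apply hx
      funext i
      fin_cases i <;> simp [vec, h0]
    have hUs : HasCompactSupport U := by
      have h1 : HasCompactSupport (fun x => α • U₀ x) := by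
        apply hU₀.2.1.mono
        intro x hx h0
        apply hx
        simp [h0]
      exact h1.add hEs
    have hT : IsTest A (fun y => scl L (U (scl L⁻¹ y))) := by
      refine ⟨(contDiff_scl _).comp (hUc.comp (contDiff_scl _)),
        compact_scl (inv_ne_zero hL0.ne') hUs _, ?_⟩
      intro y
      obtain ⟨x, rfl⟩ : ∃ x, y = scl L x :=
        ⟨scl L⁻¹ y, by rw [scl_scl, mul_inv_cancel₀ hL0.ne', scl_one]⟩
      have ex : scl L⁻¹ (scl L x) = x := by rw [scl_scl, inv_mul_cancel₀ hL0.ne', scl_one]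
      simp only [ex]
      rw [frame_scl, scl_dot]
      have h1 := hU₀.2.2 x
      set w := frame A x (U₀ x) with hw
      have e : frame A x (U x) = α • w + vec 0 (γ * (σ * χ x)) := by
        funext i
        fin_cases i <;>
        simp [hU, hw, frame, vec, hor, Matrix.mulVec, dotProduct, Fin.sum_univ_two,
          Matrix.vecHead, Matrix.vecTail] <;> ring
      rw [e]
      simp only [Pi.add_apply, Pi.smul_apply, smul_eq_mul]
      have v0 : vec 0 (γ * (σ * χ x)) 0 = 0 := rfl
      have v1 : vec 0 (γ * (σ * χ x)) 1 = 0 := rfl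
      have v2 : vec 0 (γ * (σ * χ x)) 2 = γ * (σ * χ x) := rfl
      rw [v0, v1, v2, add_zero, add_zero]
      rw [dot3] at h1
      have hχ0 : 0 ≤ χ x := χ.nonneg
      have hχ1 : χ x ≤ 1 := χ.le_one
      set g := γ * (σ * χ x) with hg
      have hg2 : g ^ 2 ≤ γ ^ 2 := by
        rw [hg, mul_pow, mul_pow, hσ1, one_mul]
        have : χ x ^ 2 ≤ 1 := by nlinarith
        nlinarith [sq_nonneg γ]
      have h3 : g ^ 2 * L ^ 2 / (L ^ 2 - 1) ≤ γ ^ 2 * L ^ 2 / (L ^ 2 - 1) := by
        apply div_le_div_of_nonneg_right _ hL1.le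
        nlinarith [sq_nonneg L]
      have h4 : L ^ 2 * ((α * w 0) ^ 2 + (α * w 1) ^ 2) + (α * w 2 + g) ^ 2 ≤
          L ^ 2 * α ^ 2 + g ^ 2 * L ^ 2 / (L ^ 2 - 1) := by
        have h5 : L ^ 2 * α ^ 2 + g ^ 2 * L ^ 2 / (L ^ 2 - 1) -
            (L ^ 2 * ((α * w 0) ^ 2 + (α * w 1) ^ 2) + (α * w 2 + g) ^ 2) =
            L ^ 2 * α ^ 2 * (1 - (w 0 * w 0 + w 1 * w 1 + w 2 * w 2)) +
              ((L ^ 2 - 1) * α * w 2 - g) ^ 2 / (L ^ 2 - 1) := by
          field_simp
          ring
        have h6 : 0 ≤ L ^ 2 * α ^ 2 * (1 - (w 0 * w 0 + w 1 * w 1 + w 2 * w 2)) := by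
          apply mul_nonneg (by positivity)
          linarith
        have h7 : 0 ≤ ((L ^ 2 - 1) * α * w 2 - g) ^ 2 / (L ^ 2 - 1) := by positivity
        linarith
      linarith
    have hd := dint_scl A hL0 hm hUd
    have hdU : dint A U Ω = α * dint A U₀ Ω + γ * (|A.trace| * vol A Ω) :=
      dint_combo A hm hR χ (Metric.ball_subset_ball (le_max_left _ _)) hU₀.1 hσ2
    refine le_trans ?_ (le_iSup₂ (f := fun (W : V3 → V3) (_ : IsTest A W) =>
      ENNReal.ofReal (dint A W (scl L '' Ω))) _ hT)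
    apply ENNReal.ofReal_le_ofReal
    rw [hd, hdU]
    apply le_of_eq
    ring
  -- pass to the supremum
  have hv := vol_nonneg A Ω
  have hc0 : 0 ≤ L ^ 2 * γ * (|A.trace| * vol A Ω) := by positivity
  unfold perim
  rw [ENNReal.mul_iSup]
  simp only [ENNReal.mul_iSup]
  rw [ENNReal.iSup_add]
  apply iSup_le
  intro U₀
  by_cases hU₀ : IsTest A U₀
  · simp only [hU₀, iSup_pos]
    rw [← ENNReal.ofReal_mul (by positivity)]
    by_cases hd : 0 ≤ dint A U₀ Ω
    · rw [← ENNReal.ofReal_add (by positivity) hc0]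
      exact key U₀ hU₀
    · have h1 : ENNReal.ofReal (L ^ 2 * α * dint A U₀ Ω) = 0 := by
        apply ENNReal.ofReal_of_nonpos
        have : dint A U₀ Ω ≤ 0 := (not_le.1 hd).le
        nlinarith [mul_nonneg (sq_nonneg L) hα]
      rw [h1, zero_add]
      have h0 : IsTest A (fun _ => 0) := by
        refine ⟨contDiff_const, ?_, ?_⟩
        · exact HasCompactSupport.zero
        · intro x
          rw [dot3]
          simp [frame, vec, hor, Matrix.mulVec, dotProduct]
      have h2 := key _ h0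
      have h3 : dint A (fun _ => 0) Ω = 0 := by
        unfold dint dvg
        simp
      rw [h3, mul_zero, zero_add] at h2
      exact h2
  · simp only [hU₀, iSup_false, bot_eq_zero', zero_add]
    have h0 : IsTest A (fun _ => 0) := by
      refine ⟨contDiff_const, ?_, ?_⟩
      · exact HasCompactSupport.zero
      · intro x
        rw [dot3]
        simp [frame, vec, hor, Matrix.mulVec, dotProduct]
    have h2 := key _ h0
    have h3 : dint A (fun _ => 0) Ω = 0 := by
      unfold dint dvg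
      simp
    rw [h3, mul_zero, zero_add] at h2
    exact h2

end Pool.Agent.CMC
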