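import Pool.Agent.CMC.Profile

open MeasureTheory Matrix Filter Topology

noncomputable section

set_option linter.unusedSimpArgs false

namespace Pool.Agent.CMC

/-- A compact region of `ℝ³` with smooth boundary: near every boundary point it is a sublevel set
`{ρ ≤ 0}` of a smooth function with non zero differential. -/
def SmoothRegion (Ω : Set V3) : Prop :=
  IsCompact Ω ∧ ∀ p ∈ frontier Ω, ∃ ρ : V3 → ℝ, ContDiffAt ℝ (⊤ : ℕ∞) ρ p ∧ fderiv ℝ ρ p ≠ 0 ∧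
    ∀ᶠ x in 𝓝 p, (x ∈ Ω ↔ ρ x ≤ 0)

/-- An isoperimetric domain of `X_A` (of positive volume): a compact region with smooth boundary
whose perimeter is minimal among all such regions with the same volume. -/
def IsIsoperimetric (A : M2) (Ω : Set V3) : Prop :=
  SmoothRegion Ω ∧ 0 < vol A Ω ∧
    ∀ Ω' : Set V3, SmoothRegion Ω' → vol A Ω' = vol A Ω → perim A Ω ≤ perim A Ω'

/-- `scl` as a homeomorphism -/
def sclH {L : ℝ} (hL : L ≠ 0) : V3 ≃ₜ V3 where
  toFun := scl L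
  invFun := scl L⁻¹
  left_inv x := by rw [scl_scl, inv_mul_cancel₀ hL, scl_one]
  right_inv x := by rw [scl_scl, mul_inv_cancel₀ hL, scl_one]
  continuous_toFun := (contDiff_scl L).continuous
  continuous_invFun := (contDiff_scl L⁻¹).continuous

theorem SmoothRegion.scl {Ω : Set V3} (h : SmoothRegion Ω) {L : ℝ} (hL : L ≠ 0) :
    SmoothRegion (scl L '' Ω) := by
  refine ⟨h.1.image (contDiff_scl L).continuous, ?_⟩
  intro p hp
  have hf : frontier (CMC.scl L '' Ω) = CMC.scl L '' frontier Ω := ((sclH hL).image_frontier Ω).symm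
  rw [hf] at hp
  obtain ⟨q, hq, rfl⟩ := hp
  obtain ⟨ρ, h1, h2, h3⟩ := h.2 q hq
  have e : CMC.scl L⁻¹ (CMC.scl L q) = q := by rw [scl_scl, inv_mul_cancel₀ hL, scl_one]
  refine ⟨ρ ∘ CMC.scl L⁻¹, ?_, ?_, ?_⟩
  · have hc : ContDiffAt ℝ (⊤ : ℕ∞) (CMC.scl L⁻¹) (CMC.scl L q) := (sclL L⁻¹).contDiff.contDiffAt
    rw [← e] at h1
    exact h1.comp _ hc
  · have hd : HasFDerivAt ρ (fderiv ℝ ρ q) (CMC.scl L⁻¹ (CMC.scl L q)) := by
      rw [e]
      exact (h1.differentiableAt (by simp)).hasFDerivAt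
    have hd2 := (hd.comp (CMC.scl L q)
      (show HasFDerivAt (CMC.scl L⁻¹) (sclL L⁻¹) (CMC.scl L q) from (sclL L⁻¹).hasFDerivAt)).fderiv
    rw [hd2]
    intro h0
    apply h2
    ext v
    have := congrArg (fun K : V3 →L[ℝ] ℝ => K (CMC.scl L v)) h0
    simp only [ContinuousLinearMap.comp_apply, sclL_apply, scl_scl, inv_mul_cancel₀ hL, scl_one] at this
    exact this
  · have ht : Tendsto (CMC.scl L⁻¹) (𝓝 (CMC.scl L q)) (𝓝 q) := by
      have := (contDiff_scl L⁻¹).continuous.tendsto (CMC.scl L q)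
      rwa [e] at this
    filter_upwards [ht.eventually h3] with x hx
    rw [Function.comp_apply, ← hx]
    constructor
    · rintro ⟨y, hy, rfl⟩
      rwa [scl_scl, inv_mul_cancel₀ hL, scl_one]
    · intro hx'
      exact ⟨CMC.scl L⁻¹ x, hx', by rw [scl_scl, mul_inv_cancel₀ hL, scl_one]⟩

theorem SmoothRegion.measurable {Ω : Set V3} (h : SmoothRegion Ω) : MeasurableSet Ω :=
  h.1.measurableSet

theorem scl_image_image {L M : ℝ} (Ω : Set V3) (h : L * M = 1) :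
    scl L '' (scl M '' Ω) = Ω := by
  rw [Set.image_image]
  have : (fun x => scl L (scl M x)) = id := by
    funext x
    rw [scl_scl, h, scl_one]
    rfl
  rw [this, Set.image_id]

/-- Area over volume is nonincreasing along isoperimetric domains. -/
theorem profile_ratio (A : M2) {Ω₁ Ω₂ : Set V3} (h1 : IsIsoperimetric A Ω₁)
    (h2 : IsIsoperimetric A Ω₂) (hv : vol A Ω₁ ≤ vol A Ω₂) :
    ENNReal.ofReal (vol A Ω₁) * perim A Ω₂ ≤ ENNReal.ofReal (vol A Ω₂) * perim A Ω₁ := by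
  obtain ⟨s1, p1, m1⟩ := h1
  obtain ⟨s2, p2, m2⟩ := h2
  set V₁ := vol A Ω₁ with hV1
  set V₂ := vol A Ω₂ with hV2
  set L := Real.sqrt (V₂ / V₁) with hL
  have hL2 : L ^ 2 = V₂ / V₁ := Real.sq_sqrt (by positivity)
  have hL0 : 0 < L := Real.sqrt_pos.2 (by positivity)
  have hL1 : 1 ≤ L := by
    rw [hL, Real.one_le_sqrt, le_div_iff₀ p1, one_mul]
    exact hv
  have hvs : vol A (scl L '' Ω₁) = V₂ := by
    rw [vol_scl A hL0 s1.measurable, hL2, ← hV1]
    field_simp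
  have h3 := m2 _ (s1.scl hL0.ne') hvs
  have h4 := perim_scl_le A hL1 s1.measurable
  have h5 := h3.trans h4
  calc ENNReal.ofReal V₁ * perim A Ω₂ ≤ ENNReal.ofReal V₁ * (ENNReal.ofReal (L ^ 2) * perim A Ω₁) :=
        mul_le_mul_right h5 _
    _ = ENNReal.ofReal V₂ * perim A Ω₁ := by
        rw [← mul_assoc, ← ENNReal.ofReal_mul p1.le, hL2]
        congr 2
        field_simp

/-- Monotonicity of `I(V)² / V - τ² V` along isoperimetric domains. -/
theorem profile_square (A : M2) {Ω₁ Ω₂ : Set V3} (h1 : IsIsoperimetric A Ω₁)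
    (h2 : IsIsoperimetric A Ω₂) (hv : vol A Ω₁ ≤ vol A Ω₂) :
    ENNReal.ofReal (vol A Ω₂) * perim A Ω₁ ^ 2 +
        ENNReal.ofReal (A.trace ^ 2 * vol A Ω₁ * vol A Ω₂ * (vol A Ω₂ - vol A Ω₁)) ≤
      ENNReal.ofReal (vol A Ω₁) * perim A Ω₂ ^ 2 := by
  obtain ⟨s1, p1, m1⟩ := h1
  obtain ⟨s2, p2, m2⟩ := h2
  set V₁ := vol A Ω₁ with hV1
  set V₂ := vol A Ω₂ with hV2
  rcases eq_or_lt_of_le hv with heq | hlt
  · rw [heq, sub_self, mul_zero, ENNReal.ofReal_zero, add_zero]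
    apply mul_le_mul_right
    apply pow_le_pow_left'
    exact m1 _ s2 heq.symm
  by_cases htop : perim A Ω₂ = ⊤
  · rw [htop]
    have : ENNReal.ofReal V₁ * (⊤ : ENNReal) ^ 2 = ⊤ := by
      rw [ENNReal.top_pow two_ne_zero]
      exact ENNReal.mul_top (by simpa using p1)
    rw [this]
    exact le_top
  set L := Real.sqrt (V₂ / V₁) with hL
  have hL2 : L ^ 2 = V₂ / V₁ := Real.sq_sqrt (by positivity)
  have hL0 : 0 < L := Real.sqrt_pos.2 (by positivity)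
  have hL1 : 1 < L := by
    rw [hL, Real.lt_sqrt (by norm_num), one_pow, lt_div_iff₀ p1, one_mul]
    exact hlt
  have hLm : 0 < L ^ 2 - 1 := by nlinarith
  set Ω' := scl L⁻¹ '' Ω₂ with hΩ'
  have sΩ' : SmoothRegion Ω' := s2.scl (inv_ne_zero hL0.ne')
  have hvs : vol A Ω' = V₁ := by
    rw [vol_scl A (inv_pos.2 hL0) s2.measurable, ← hV2, inv_pow, hL2]
    field_simp
  have hback : scl L '' Ω' = Ω₂ := scl_image_image Ω₂ (mul_inv_cancel₀ hL0.ne')
  have h3 : perim A Ω₁ ≤ perim A Ω' := m1 _ sΩ' hvs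
  have hge := fun α γ (hα : 0 ≤ α) (hγ : 0 ≤ γ)
    (hc : L ^ 2 * α ^ 2 + γ ^ 2 * L ^ 2 / (L ^ 2 - 1) ≤ 1) =>
    perim_scl_ge A hL1 sΩ'.measurable sΩ'.1.isBounded hα hγ hc
  simp only [hback, hvs] at hge
  -- finiteness
  have hfin : perim A Ω' ≠ ⊤ := by
    intro htop'
    have h4 := hge L⁻¹ 0 (by positivity) le_rfl (by
      have : L ^ 2 * L⁻¹ ^ 2 = 1 := by
        field_simp
      rw [this]
      simp)
    rw [htop', ENNReal.mul_top (by
      have : 0 < L ^ 2 * L⁻¹ := by positivity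
      simpa using this), top_add, top_le_iff] at h4
    exact htop h4
  set P' := (perim A Ω').toReal with hP'
  set P₂ := (perim A Ω₂).toReal with hP₂
  have hP'0 : 0 ≤ P' := ENNReal.toReal_nonneg
  have hP₂0 : 0 ≤ P₂ := ENNReal.toReal_nonneg
  have eP' : perim A Ω' = ENNReal.ofReal P' := (ENNReal.ofReal_toReal hfin).symm
  have eP₂ : perim A Ω₂ = ENNReal.ofReal P₂ := (ENNReal.ofReal_toReal htop).symm
  have key : L ^ 2 * (P' ^ 2 + (L ^ 2 - 1) * (A.trace ^ 2 * V₁ ^ 2)) ≤ P₂ ^ 2 := by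
    set R := Real.sqrt (P' ^ 2 + (L ^ 2 - 1) * (A.trace ^ 2 * V₁ ^ 2)) with hR
    have hRn : 0 ≤ P' ^ 2 + (L ^ 2 - 1) * (A.trace ^ 2 * V₁ ^ 2) := by positivity
    have hR2 : R ^ 2 = P' ^ 2 + (L ^ 2 - 1) * (A.trace ^ 2 * V₁ ^ 2) := Real.sq_sqrt hRn
    rw [← hR2]
    rcases eq_or_lt_of_le (Real.sqrt_nonneg
      (P' ^ 2 + (L ^ 2 - 1) * (A.trace ^ 2 * V₁ ^ 2))) with h0 | hpos
    · rw [← hR] at h0
      rw [← h0]
      nlinarith
    rw [← hR] at hpos
    have h5 := hge (P' / (L * R)) ((L ^ 2 - 1) * (|A.trace| * V₁) / (L * R)) (by positivity)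
      (by positivity) (by
        have : L ^ 2 * (P' / (L * R)) ^ 2 +
            ((L ^ 2 - 1) * (|A.trace| * V₁) / (L * R)) ^ 2 * L ^ 2 / (L ^ 2 - 1) = 1 := by
          have ha : |A.trace| ^ 2 = A.trace ^ 2 := sq_abs _
          field_simp
          rw [hR2, ha]
          ring
        exact this.le)
    rw [eP', eP₂, ← ENNReal.ofReal_mul (by positivity), ← ENNReal.ofReal_add (by positivity)
      (by positivity), ENNReal.ofReal_le_ofReal_iff hP₂0] at h5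
    have h6 : L ^ 2 * (P' / (L * R)) * P' + L ^ 2 * ((L ^ 2 - 1) * (|A.trace| * V₁) / (L * R)) *
        (|A.trace| * V₁) = L * R := by
      have ha : |A.trace| ^ 2 = A.trace ^ 2 := sq_abs _
      field_simp
      rw [hR2, ha]
      ring
    rw [h6] at h5
    have h7 : 0 ≤ L * R := by positivity
    calc L ^ 2 * R ^ 2 = (L * R) ^ 2 := by ring
      _ ≤ P₂ ^ 2 := pow_le_pow_left₀ h7 h5 2
  have h8 : V₂ * P' ^ 2 + A.trace ^ 2 * V₁ * V₂ * (V₂ - V₁) ≤ V₁ * P₂ ^ 2 := by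
    rw [hL2] at key
    have h9 := mul_le_mul_of_nonneg_left key p1.le
    have h10 : V₁ * (V₂ / V₁ * (P' ^ 2 + (V₂ / V₁ - 1) * (A.trace ^ 2 * V₁ ^ 2))) =
        V₂ * P' ^ 2 + A.trace ^ 2 * V₁ * V₂ * (V₂ - V₁) := by
      field_simp
    linarith
  calc ENNReal.ofReal V₂ * perim A Ω₁ ^ 2 + ENNReal.ofReal (A.trace ^ 2 * V₁ * V₂ * (V₂ - V₁))
      ≤ ENNReal.ofReal V₂ * perim A Ω' ^ 2 + ENNReal.ofReal (A.trace ^ 2 * V₁ * V₂ * (V₂ - V₁)) := by
        gcongr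
    _ = ENNReal.ofReal (V₂ * P' ^ 2 + A.trace ^ 2 * V₁ * V₂ * (V₂ - V₁)) := by
        rw [eP', ← ENNReal.ofReal_pow hP'0, ← ENNReal.ofReal_mul p2.le, ← ENNReal.ofReal_add]
        · positivity
        · have : 0 ≤ V₂ - V₁ := by linarith
          positivity
    _ ≤ ENNReal.ofReal (V₁ * P₂ ^ 2) := ENNReal.ofReal_le_ofReal h8
    _ = ENNReal.ofReal V₁ * perim A Ω₂ ^ 2 := by
        rw [eP₂, ← ENNReal.ofReal_pow hP₂0, ← ENNReal.ofReal_mul p1.le]

end Pool.Agent.CMC
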