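import Pool.Agent.CMC.Stokes

open MeasureTheory Matrix

noncomputable section

namespace Pool.Agent.CMC

/-! ### Spherical coordinates -/

theorem sph_dot (t s : ℝ) : sph t s ⬝ᵥ sph t s = 1 := by
  rw [dot3]
  simp only [sph, Matrix.cons_val_zero, Matrix.cons_val_one, Matrix.cons_val]
  have h1 := Real.sin_sq_add_cos_sq t
  have h2 := Real.sin_sq_add_cos_sq s
  linear_combination (Real.sin t ^ 2) * h2 + h1

theorem sph_dot_sphT (t s : ℝ) : sph t s ⬝ᵥ sphT t s = 0 := by
  rw [dot3]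
  simp only [sph, sphT, Matrix.cons_val_zero, Matrix.cons_val_one, Matrix.cons_val]
  have h2 := Real.sin_sq_add_cos_sq s
  linear_combination (Real.sin t * Real.cos t) * h2

theorem sph_dot_sphS (t s : ℝ) : sph t s ⬝ᵥ sphS t s = 0 := by
  rw [dot3]
  simp only [sph, sphS, Matrix.cons_val_zero, Matrix.cons_val_one, Matrix.cons_val]
  ring

theorem sphTS_indep {t : ℝ} (s : ℝ) (h : Real.sin t ≠ 0) :
    LinearIndependent ℝ ![sphT t s, sphS t s] := by
  rw [← crossProduct_ne_zero_iff_linearIndependent]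
  intro h0
  apply h
  have e0 := congrFun h0 0
  have e1 := congrFun h0 1
  have e2 := congrFun h0 2
  rw [cross0] at e0
  rw [cross1] at e1
  rw [cross2] at e2
  simp only [sphT, sphS, Matrix.cons_val_zero, Matrix.cons_val_one, Matrix.cons_val,
    Pi.zero_apply] at e0 e1 e2
  have h1 := Real.sin_sq_add_cos_sq t
  have h2 := Real.sin_sq_add_cos_sq s
  have a0 : Real.sin t ^ 2 * Real.cos s = 0 := by linear_combination e0
  have a1 : Real.sin t ^ 2 * Real.sin s = 0 := by linear_combination e1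
  have : Real.sin t ^ 2 = 0 := by
    linear_combination Real.cos s * a0 + Real.sin s * a1 - Real.sin t ^ 2 * h2
  exact pow_eq_zero_iff (two_ne_zero) |>.1 this

theorem contDiff_sph {n : WithTop ℕ∞} : ContDiff ℝ n (fun q : ℝ × ℝ => sph q.1 q.2) := by
  rw [contDiff_pi]
  have hs1 : ContDiff ℝ n (fun q : ℝ × ℝ => Real.sin q.1) := Real.contDiff_sin.comp contDiff_fst
  have hc1 : ContDiff ℝ n (fun q : ℝ × ℝ => Real.cos q.1) := Real.contDiff_cos.comp contDiff_fst
  have hs2 : ContDiff ℝ n (fun q : ℝ × ℝ => Real.sin q.2) := Real.contDiff_sin.comp contDiff_snd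
  have hc2 : ContDiff ℝ n (fun q : ℝ × ℝ => Real.cos q.2) := Real.contDiff_cos.comp contDiff_snd
  intro i
  fin_cases i
  · exact hs1.mul hc2
  · exact hs1.mul hs2
  · exact hc1

theorem fderiv_sph_fst (t s : ℝ) :
    fderiv ℝ (fun q : ℝ × ℝ => sph q.1 q.2) (t, s) (1, 0) = sphT t s := by
  have h1 := hasDerivAt_fst (contDiff_sph (n := 1)) t s
  have h2 : HasDerivAt (fun r => sph r s) (sphT t s) t := by
    rw [hasDerivAt_pi]
    intro i
    fin_cases i
    · exact (Real.hasDerivAt_sin t).mul_const _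
    · exact (Real.hasDerivAt_sin t).mul_const _
    · exact Real.hasDerivAt_cos t
  exact h1.unique h2

theorem fderiv_sph_snd (t s : ℝ) :
    fderiv ℝ (fun q : ℝ × ℝ => sph q.1 q.2) (t, s) (0, 1) = sphS t s := by
  have h1 := hasDerivAt_snd (contDiff_sph (n := 1)) t s
  have h2 : HasDerivAt (fun r => sph t r) (sphS t s) s := by
    rw [hasDerivAt_pi]
    intro i
    fin_cases i
    · have := (Real.hasDerivAt_cos s).const_mul (Real.sin t)
      simp only [mul_neg] at this
      exact this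
    · exact (Real.hasDerivAt_sin s).const_mul (Real.sin t)
    · exact hasDerivAt_const s (Real.cos t)
  exact h1.unique h2

/-! ### The sphere in spherical coordinates -/

variable {A : M2} {H : ℝ} (S : HSphere A H)

namespace HSphere

/-- the immersion in spherical coordinates -/
def G (q : ℝ × ℝ) : V3 := S.f (sph q.1 q.2)
/-- the normal in spherical coordinates -/
def nn (q : ℝ × ℝ) : V3 := S.N (sph q.1 q.2)
/-- first tangent vector -/
def va (q : ℝ × ℝ) : V3 := frame A (S.G q) (fderiv ℝ S.G q (1, 0))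
/-- second tangent vector -/
def vb (q : ℝ × ℝ) : V3 := frame A (S.G q) (fderiv ℝ S.G q (0, 1))
/-- the horizontal position field -/
def vv (q : ℝ × ℝ) : V3 := frame A (S.G q) (vec (hor (S.G q)) 0)
/-- signed area density -/
def cc (q : ℝ × ℝ) : ℝ := S.nn q ⬝ᵥ (S.va q ⨯₃ S.vb q)

theorem contDiff_G : ContDiff ℝ 2 S.G := by
  rw [contDiff_iff_contDiffAt]
  intro q
  exact (S.smooth_f _ (sph_dot q.1 q.2)).comp q contDiff_sph.contDiffAt

theorem contDiff_nn : ContDiff ℝ 1 S.nn := by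
  rw [contDiff_iff_contDiffAt]
  intro q
  exact (S.smooth_N _ (sph_dot q.1 q.2)).comp q contDiff_sph.contDiffAt

theorem contDiff_G1 : ContDiff ℝ 1 S.G := S.contDiff_G.of_le (by norm_num)

theorem contDiff_DG (d : ℝ × ℝ) : ContDiff ℝ 1 (fun q => fderiv ℝ S.G q d) :=
  (S.contDiff_G.fderiv_right (m := 1) (by norm_num)).clm_apply contDiff_const

theorem contDiff_va : ContDiff ℝ 1 S.va := contDiff_frame A S.contDiff_G1 (S.contDiff_DG _)

theorem contDiff_vb : ContDiff ℝ 1 S.vb := contDiff_frame A S.contDiff_G1 (S.contDiff_DG _)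

theorem contDiff_hG : ContDiff ℝ 1 (fun q => vec (hor (S.G q)) 0) := by
  have h := contDiff_pi.1 S.contDiff_G1
  rw [contDiff_pi]
  intro i
  fin_cases i
  · exact h 0
  · exact h 1
  · exact contDiff_const

theorem contDiff_vv : ContDiff ℝ 1 S.vv := contDiff_frame A S.contDiff_G1 S.contDiff_hG

theorem fderiv_G (t s : ℝ) (d : ℝ × ℝ) : fderiv ℝ S.G (t, s) d =
    fderiv ℝ S.f (sph t s) (fderiv ℝ (fun q : ℝ × ℝ => sph q.1 q.2) (t, s) d) := by
  have h1 : DifferentiableAt ℝ S.f (sph t s) :=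
    (S.smooth_f _ (sph_dot t s)).differentiableAt (by norm_num)
  have h2 : DifferentiableAt ℝ (fun q : ℝ × ℝ => sph q.1 q.2) (t, s) :=
    (contDiff_sph (n := 1)).contDiffAt.differentiableAt (by norm_num)
  have := (h1.hasFDerivAt.comp (t, s) h2.hasFDerivAt).fderiv
  have e : S.G = S.f ∘ fun q : ℝ × ℝ => sph q.1 q.2 := rfl
  rw [e, this]
  rfl

theorem fderiv_nn (t s : ℝ) (d : ℝ × ℝ) : fderiv ℝ S.nn (t, s) d =
    fderiv ℝ S.N (sph t s) (fderiv ℝ (fun q : ℝ × ℝ => sph q.1 q.2) (t, s) d) := by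
  have h1 : DifferentiableAt ℝ S.N (sph t s) :=
    (S.smooth_N _ (sph_dot t s)).differentiableAt (by norm_num)
  have h2 : DifferentiableAt ℝ (fun q : ℝ × ℝ => sph q.1 q.2) (t, s) :=
    (contDiff_sph (n := 1)).contDiffAt.differentiableAt (by norm_num)
  have := (h1.hasFDerivAt.comp (t, s) h2.hasFDerivAt).fderiv
  have e : S.nn = S.N ∘ fun q : ℝ × ℝ => sph q.1 q.2 := rfl
  rw [e, this]
  rfl

theorem va_eq (t s : ℝ) : S.va (t, s) = dfr A S.f (sph t s) (sphT t s) := by
  unfold va dfr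
  rw [fderiv_G, fderiv_sph_fst]
  rfl

theorem vb_eq (t s : ℝ) : S.vb (t, s) = dfr A S.f (sph t s) (sphS t s) := by
  unfold vb dfr
  rw [fderiv_G, fderiv_sph_snd]
  rfl

theorem nn_unit (q : ℝ × ℝ) : S.nn q ⬝ᵥ S.nn q = 1 := S.unit _ (sph_dot _ _)

theorem cross_eq (t s : ℝ) :
    S.va (t, s) ⨯₃ S.vb (t, s) = S.cc (t, s) • S.nn (t, s) := by
  have ha : S.nn (t, s) ⬝ᵥ S.va (t, s) = 0 := by
    rw [va_eq]
    exact S.normal _ _ (sph_dot t s) (sph_dot_sphT t s)
  have hb : S.nn (t, s) ⬝ᵥ S.vb (t, s) = 0 := by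
    rw [vb_eq]
    exact S.normal _ _ (sph_dot t s) (sph_dot_sphS t s)
  exact cross_eq_smul ha hb (S.nn_unit _)

theorem jac_eq (t s : ℝ) : jac A S.f t s = |S.cc (t, s)| := by
  unfold jac
  rw [← va_eq, ← vb_eq, cross_eq, smul_dotProduct, dotProduct_smul, nn_unit, smul_eq_mul,
    smul_eq_mul, mul_one, ← sq, Real.sqrt_sq_eq_abs]

theorem cc_ne_zero {t : ℝ} (s : ℝ) (h : Real.sin t ≠ 0) : S.cc (t, s) ≠ 0 := by
  intro h0
  have hc := S.cross_eq t s
  rw [h0, zero_smul] at hc
  have hli : ¬ LinearIndependent ℝ ![S.va (t, s), S.vb (t, s)] := by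
    rw [← crossProduct_ne_zero_iff_linearIndependent, not_not]
    exact hc
  rw [va_eq, vb_eq] at hli
  apply hli
  have hT := sphTS_indep s h
  rw [LinearIndependent.pair_iff] at hT ⊢
  intro x y hxy
  apply hT x y
  by_contra hne
  have hne2 : fderiv ℝ S.f (sph t s) (x • sphT t s + y • sphS t s) ≠ 0 := by
    apply S.immersion _ _ (sph_dot t s) _ hne
    rw [dotProduct_add, dotProduct_smul, dotProduct_smul, sph_dot_sphT, sph_dot_sphS]
    simp
  apply hne2
  apply frame_injective A (S.f (sph t s))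
  rw [← hxy, map_add, map_smul, map_smul]
  unfold dfr
  funext i
  fin_cases i <;>
  simp [frame, vec, hor, Matrix.mulVec, dotProduct, Fin.sum_univ_two] <;> ring

end HSphere

end Pool.Agent.CMC
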