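import Pool.Agent.CMC.Surf
import Pool.Agent.CMC.Alg

open MeasureTheory Matrix

noncomputable section

namespace Pool.Agent.CMC

theorem hasDerivAt_fst {E : Type*} [NormedAddCommGroup E] [NormedSpace ℝ E] {u : ℝ × ℝ → E}
    (hu : ContDiff ℝ 1 u) (t s : ℝ) :
    HasDerivAt (fun r => u (r, s)) (fderiv ℝ u (t, s) (1, 0)) t := by
  have h1 : HasDerivAt (fun r : ℝ => (r, s)) ((1 : ℝ), (0 : ℝ)) t :=
    (hasDerivAt_id t).prodMk (hasDerivAt_const t s)
  exact (((hu.differentiable (by norm_num)).differentiableAt (x := (t, s))).hasFDerivAt).comp_hasDerivAt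
    t h1

theorem hasDerivAt_snd {E : Type*} [NormedAddCommGroup E] [NormedSpace ℝ E] {u : ℝ × ℝ → E}
    (hu : ContDiff ℝ 1 u) (t s : ℝ) :
    HasDerivAt (fun r => u (t, r)) (fderiv ℝ u (t, s) (0, 1)) s := by
  have h1 : HasDerivAt (fun r : ℝ => (t, r)) ((0 : ℝ), (1 : ℝ)) s :=
    (hasDerivAt_const s t).prodMk (hasDerivAt_id s)
  exact (((hu.differentiable (by norm_num)).differentiableAt (x := (t, s))).hasFDerivAt).comp_hasDerivAt
    s h1

theorem continuous_fderiv_apply' {u : ℝ × ℝ → ℝ} (hu : ContDiff ℝ 1 u) (d : ℝ × ℝ) :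
    Continuous (fun q => fderiv ℝ u q d) :=
  (hu.continuous_fderiv (by norm_num)).clm_apply continuous_const

/-- Continuous functions on the plane: the inner integral is continuous. -/
theorem continuous_inner {u : ℝ × ℝ → ℝ} (hu : Continuous u) (a b : ℝ) :
    Continuous (fun t => ∫ s in a..b, u (t, s)) :=
  intervalIntegral.continuous_parametric_intervalIntegral_of_continuous' (f := fun t s => u (t, s))
    hu a b

theorem swap_integral {u : ℝ × ℝ → ℝ} (hu : Continuous u) (a b c d : ℝ) :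
    (∫ t in a..b, ∫ s in c..d, u (t, s)) = ∫ s in c..d, ∫ t in a..b, u (t, s) := by
  apply MeasureTheory.intervalIntegral_intervalIntegral_swap (F := fun t s => u (t, s))
  exact (hu.continuousOn.integrableOn_compact (isCompact_uIcc.prod isCompact_uIcc)).mono_set
    (Set.prod_mono Set.uIoc_subset_uIcc Set.uIoc_subset_uIcc)

/-- Stokes' theorem on the sphere in spherical coordinates. -/
theorem stokes {bs bt : ℝ × ℝ → ℝ} (hbs : ContDiff ℝ 1 bs) (hbt : ContDiff ℝ 1 bt)
    (h0 : ∀ s, bs (0, s) = 0) (h1 : ∀ s, bs (Real.pi, s) = 0)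
    (hp : ∀ t, bt (t, 2 * Real.pi) = bt (t, 0)) :
    (∫ t in (0 : ℝ)..Real.pi, ∫ s in (0 : ℝ)..(2 * Real.pi),
      (fderiv ℝ bs (t, s) (1, 0) - fderiv ℝ bt (t, s) (0, 1))) = 0 := by
  have c1 := continuous_fderiv_apply' hbs (1, 0)
  have c2 := continuous_fderiv_apply' hbt (0, 1)
  have e1 : ∀ t : ℝ, (∫ s in (0 : ℝ)..(2 * Real.pi),
      (fderiv ℝ bs (t, s) (1, 0) - fderiv ℝ bt (t, s) (0, 1))) =
      (∫ s in (0 : ℝ)..(2 * Real.pi), fderiv ℝ bs (t, s) (1, 0)) -
        ∫ s in (0 : ℝ)..(2 * Real.pi), fderiv ℝ bt (t, s) (0, 1) := by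
    intro t
    apply intervalIntegral.integral_sub
    · exact (c1.comp (Continuous.prodMk_right t)).intervalIntegrable _ _
    · exact (c2.comp (Continuous.prodMk_right t)).intervalIntegrable _ _
  simp only [e1]
  have e2 : ∀ t : ℝ, (∫ s in (0 : ℝ)..(2 * Real.pi), fderiv ℝ bt (t, s) (0, 1)) = 0 := by
    intro t
    have := intervalIntegral.integral_eq_sub_of_hasDerivAt (a := 0) (b := 2 * Real.pi)
      (fun s _ => hasDerivAt_snd hbt t s)
      ((c2.comp (Continuous.prodMk_right t)).intervalIntegrable _ _)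
    rw [this, hp t, sub_self]
  simp only [e2, sub_zero]
  rw [swap_integral c1]
  have e3 : ∀ s : ℝ, (∫ t in (0 : ℝ)..Real.pi, fderiv ℝ bs (t, s) (1, 0)) = 0 := by
    intro s
    have := intervalIntegral.integral_eq_sub_of_hasDerivAt (a := 0) (b := Real.pi)
      (fun t _ => hasDerivAt_fst hbs t s)
      ((c1.comp (Continuous.prodMk_left s)).intervalIntegrable _ _)
    rw [this, h0 s, h1 s, sub_self]
  simp only [e3]
  simp

end Pool.Agent.CMC
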