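import Pool.Agent.CMC.Orbit2

open MeasureTheory Matrix

noncomputable section

set_option linter.unusedSimpArgs false

namespace Pool.Agent.CMC

theorem dbl_eq_zero {u : ℝ × ℝ → ℝ} (hu : Continuous u) (h0 : ∀ q, 0 ≤ u q) (h : dbl u = 0)
    {t s : ℝ} (ht : t ∈ Set.Icc (0 : ℝ) Real.pi) (hs : s ∈ Set.Icc (0 : ℝ) (2 * Real.pi)) :
    u (t, s) = 0 := by
  by_contra hne
  have hpos : 0 < u (t, s) := lt_of_le_of_ne (h0 _) (Ne.symm hne)
  have hp : (0 : ℝ) < 2 * Real.pi := by positivity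
  have hin : 0 < ∫ s in (0 : ℝ)..(2 * Real.pi), u (t, s) := by
    apply intervalIntegral.integral_pos hp
    · exact (hu.comp (Continuous.prodMk_right t)).continuousOn
    · intro x _
      exact h0 _
    · exact ⟨s, hs, hpos⟩
  have : 0 < dbl u := by
    unfold dbl
    apply intervalIntegral.integral_pos Real.pi_pos
    · exact (continuous_inner hu _ _).continuousOn
    · intro x _
      apply intervalIntegral.integral_nonneg hp.le
      intro y _
      exact h0 _
    · exact ⟨t, ht, hin⟩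
  linarith

theorem exists_sph (p : V3) (hp : p ⬝ᵥ p = 1) :
    ∃ t ∈ Set.Icc (0 : ℝ) Real.pi, ∃ s ∈ Set.Icc (0 : ℝ) (2 * Real.pi), sph t s = p := by
  rw [dot3] at hp
  have hz1 : -1 ≤ p 2 := by nlinarith [mul_self_nonneg (p 0), mul_self_nonneg (p 1)]
  have hz2 : p 2 ≤ 1 := by nlinarith [mul_self_nonneg (p 0), mul_self_nonneg (p 1)]
  refine ⟨Real.arccos (p 2), ⟨Real.arccos_nonneg _, Real.arccos_le_pi _⟩, ?_⟩
  have hcos : Real.cos (Real.arccos (p 2)) = p 2 := Real.cos_arccos hz1 hz2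
  set r := Real.sin (Real.arccos (p 2)) with hr
  have hr2 : r ^ 2 = p 0 ^ 2 + p 1 ^ 2 := by
    have := Real.sin_sq_add_cos_sq (Real.arccos (p 2))
    rw [hcos, ← hr] at this
    nlinarith
  by_cases h0 : r = 0
  · refine ⟨0, ⟨le_rfl, by positivity⟩, ?_⟩
    have hp0 : p 0 = 0 := by
      rw [h0] at hr2
      nlinarith [sq_nonneg (p 0), sq_nonneg (p 1)]
    have hp1 : p 1 = 0 := by
      rw [h0] at hr2
      nlinarith [sq_nonneg (p 0), sq_nonneg (p 1)]
    funext i
    fin_cases i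
    · simp [sph, ← hr, h0, hp0]
    · simp [sph, ← hr, h0, hp1]
    · simp [sph, hcos]
  · set z : ℂ := ⟨p 0 / r, p 1 / r⟩ with hz
    have hn : z.re ^ 2 + z.im ^ 2 = 1 := by
      simp only [hz, div_pow]
      rw [← add_div, ← hr2]
      exact div_self (pow_ne_zero 2 h0)
    have hnorm : ‖z‖ = 1 := by
      rw [← sq_eq_sq₀ (norm_nonneg _) zero_le_one, one_pow, Complex.sq_norm, Complex.normSq_apply]
      nlinarith
    have hz0 : z ≠ 0 := by
      intro h
      rw [h, norm_zero] at hnorm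
      exact zero_ne_one hnorm
    have hc : Real.cos z.arg = p 0 / r := by
      rw [Complex.cos_arg hz0, hnorm, div_one]
    have hs : Real.sin z.arg = p 1 / r := by
      rw [Complex.sin_arg, hnorm, div_one]
    have key : ∀ s, Real.cos s = p 0 / r → Real.sin s = p 1 / r → sph (Real.arccos (p 2)) s = p := by
      intro s h1 h2
      funext i
      fin_cases i
      · simp only [sph, Fin.zero_eta, Fin.isValue, Matrix.cons_val_zero, ← hr, h1]
        field_simp
      · simp only [sph, Fin.mk_one, Fin.isValue, Matrix.cons_val_one, Matrix.cons_val_zero, ← hr, h2]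
        field_simp
      · simp [sph, hcos]
    by_cases ha : 0 ≤ z.arg
    · exact ⟨z.arg, ⟨ha, by linarith [Complex.arg_le_pi z, Real.pi_pos]⟩, key _ hc hs⟩
    · refine ⟨z.arg + 2 * Real.pi, ⟨?_, ?_⟩, key _ ?_ ?_⟩
      · linarith [Complex.neg_pi_lt_arg z, Real.pi_pos]
      · linarith
      · rw [Real.cos_add_two_pi, hc]
      · rw [Real.sin_add_two_pi, hs]

variable {A : M2} {H : ℝ} (S : HSphere A H)

namespace HSphere

theorem exists_max : ∃ t ∈ Set.Icc (0 : ℝ) Real.pi, ∃ s ∈ Set.Icc (0 : ℝ) (2 * Real.pi),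
    ∀ q, S.G q 2 ≤ S.G (t, s) 2 := by
  have hc : Continuous (fun q => S.G q 2) := (continuous_apply 2).comp S.contDiff_G.continuous
  have hK : IsCompact (Set.Icc (0 : ℝ) Real.pi ×ˢ Set.Icc (0 : ℝ) (2 * Real.pi)) :=
    isCompact_Icc.prod isCompact_Icc
  have hne : (Set.Icc (0 : ℝ) Real.pi ×ˢ Set.Icc (0 : ℝ) (2 * Real.pi)).Nonempty :=
    ⟨(0, 0), ⟨⟨le_rfl, Real.pi_pos.le⟩, ⟨le_rfl, by positivity⟩⟩⟩
  obtain ⟨⟨t, s⟩, ⟨ht, hs⟩, hmax⟩ := hK.exists_isMaxOn hne hc.continuousOn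
  refine ⟨t, ht, s, hs, ?_⟩
  intro q
  obtain ⟨t', ht', s', hs', he⟩ := exists_sph (sph q.1 q.2) (sph_dot _ _)
  have := hmax (show (t', s') ∈ Set.Icc (0 : ℝ) Real.pi ×ˢ Set.Icc (0 : ℝ) (2 * Real.pi) from
    ⟨ht', hs'⟩)
  simp only [Set.mem_ofPred_eq] at this
  have e : S.G q = S.G (t', s') := by
    unfold G
    rw [he]
  rw [e]
  exact this

theorem crit {q₀ : ℝ × ℝ} (h : ∀ q, S.G q 2 ≤ S.G q₀ 2) (d : ℝ × ℝ) :
    frame A (S.G q₀) (fderiv ℝ S.G q₀ d) 2 = 0 := by
  have hG1 : DifferentiableAt ℝ S.G q₀ := (S.contDiff_G1.differentiable (by norm_num)).differentiableAt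
  have h1 : fderiv ℝ (fun q => S.G q 2) q₀ = 0 := by
    apply IsLocalMax.fderiv_eq_zero
    exact Filter.Eventually.of_forall h
  have h2 := fderiv_comp_apply hG1 d 2
  rw [h1] at h2
  simpa [frame, vec] using h2

theorem nn2_of_perp {p : V3} (hp : p ⬝ᵥ p = 1) {u v : V3} (hu : p ⬝ᵥ u = 0) (hv : p ⬝ᵥ v = 0)
    (hi : LinearIndependent ℝ ![u, v]) (hu2 : dfr A S.f p u 2 = 0) (hv2 : dfr A S.f p v 2 = 0) :
    (S.N p 2) ^ 2 = 1 := by
  have ha := S.normal p u hp hu
  have hb := S.normal p v hp hv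
  have hn := S.unit p hp
  have hc := cross_eq_smul ha hb hn
  set c := S.N p ⬝ᵥ (dfr A S.f p u ⨯₃ dfr A S.f p v) with hcdef
  have hc0 : c ≠ 0 := by
    intro h0
    rw [h0, zero_smul] at hc
    have hli : ¬ LinearIndependent ℝ ![dfr A S.f p u, dfr A S.f p v] := by
      rw [← crossProduct_ne_zero_iff_linearIndependent, not_not]
      exact hc
    apply hli
    rw [LinearIndependent.pair_iff] at hi ⊢
    intro x y hxy
    apply hi x y
    by_contra hne
    have hne2 : fderiv ℝ S.f p (x • u + y • v) ≠ 0 := by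
      apply S.immersion _ _ hp _ hne
      rw [dotProduct_add, dotProduct_smul, dotProduct_smul, hu, hv]
      simp
    apply hne2
    apply frame_injective A (S.f p)
    rw [← hxy, map_add, map_smul, map_smul]
    unfold dfr
    funext i
    fin_cases i <;>
    simp [frame, vec, hor, Matrix.mulVec, dotProduct, Fin.sum_univ_two] <;> ring
  have h0 := congrFun hc 0
  have h1 := congrFun hc 1
  rw [cross0, hu2, hv2] at h0
  rw [cross1, hu2, hv2] at h1
  simp only [mul_zero, zero_mul, sub_self, Pi.smul_apply, smul_eq_mul] at h0 h1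
  have n0 : S.N p 0 = 0 := (mul_eq_zero.1 h0.symm).resolve_left hc0
  have n1 : S.N p 1 = 0 := (mul_eq_zero.1 h1.symm).resolve_left hc0
  rw [dot3, n0, n1] at hn
  nlinarith

theorem nn2_max {t s : ℝ} (h : ∀ q, S.G q 2 ≤ S.G (t, s) 2) : (S.nn (t, s) 2) ^ 2 = 1 := by
  by_cases hs : Real.sin t = 0
  · -- a pole
    have hall : ∀ s', dfr A S.f (sph t s) (sphT t s') 2 = 0 := by
      intro s'
      have e : sph t s' = sph t s := by simp [sph, hs]
      have h' : ∀ q, S.G q 2 ≤ S.G (t, s') 2 := by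
        intro q
        have : S.G (t, s') = S.G (t, s) := by
          unfold G
          simp only [e]
        rw [this]
        exact h q
      have := S.crit h' (1, 0)
      change S.va (t, s') 2 = 0 at this
      rw [va_eq, e] at this
      exact this
    have hc : Real.cos t ≠ 0 := by
      intro h0
      have := Real.sin_sq_add_cos_sq t
      rw [hs, h0] at this
      norm_num at this
    apply S.nn2_of_perp (sph_dot t s) (u := sphT t 0) (v := sphT t (Real.pi / 2)) _ _ _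
      (hall 0) (hall (Real.pi / 2))
    · rw [dot3]
      simp [sph, sphT, hs]
    · rw [dot3]
      simp [sph, sphT, hs]
    · rw [← crossProduct_ne_zero_iff_linearIndependent]
      intro h0
      have := congrFun h0 2
      rw [cross2] at this
      simp [sphT] at this
      exact hc this
  · exact S.nn2_of_perp (sph_dot t s) (sph_dot_sphT t s) (sph_dot_sphS t s) (sphTS_indep s hs)
      (by rw [← va_eq]; exact S.crit h (1, 0)) (by rw [← vb_eq]; exact S.crit h (0, 1))

/-- `Area - 2HV > 0`. -/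
theorem m2_lt : S.m2 < S.ar := by
  rcases lt_or_eq_of_le S.m2_le with h | h
  · exact h
  exfalso
  have h1 := S.continuous_cc.abs
  have h2 := S.continuous_nn
  have h3 := S.continuous_vv
  set K := dbl (fun q => (S.vv q 0 ^ 2 + S.vv q 1 ^ 2) * |S.cc q|) with hK
  have key : ∀ x y : ℝ, 0 ≤ x ^ 2 * K + (-2 * x * y) * S.vf + y ^ 2 * (S.ar - S.m2) := by
    intro x y
    have hh : 0 ≤ dbl (fun q => x ^ 2 * ((S.vv q 0 ^ 2 + S.vv q 1 ^ 2) * |S.cc q|) +
        (-2 * x * y) * ((S.vv q ⬝ᵥ S.nn q) * |S.cc q|) +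
        (y ^ 2 * |S.cc q| + (-(y ^ 2)) * ((S.nn q 2) ^ 2 * |S.cc q|))) := by
      apply dbl_nonneg
      intro t s
      have hn := S.nn_unit (t, s)
      rw [dot3] at hn
      have hv2 : S.vv (t, s) 2 = 0 := by simp [vv, frame, vec]
      have : x ^ 2 * ((S.vv (t, s) 0 ^ 2 + S.vv (t, s) 1 ^ 2) * |S.cc (t, s)|) +
        (-2 * x * y) * ((S.vv (t, s) ⬝ᵥ S.nn (t, s)) * |S.cc (t, s)|) +
        (y ^ 2 * |S.cc (t, s)| + (-(y ^ 2)) * ((S.nn (t, s) 2) ^ 2 * |S.cc (t, s)|)) =
        ((x * S.vv (t, s) 0 - y * S.nn (t, s) 0) ^ 2 +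
          (x * S.vv (t, s) 1 - y * S.nn (t, s) 1) ^ 2) * |S.cc (t, s)| := by
        rw [dot3, hv2]
        linear_combination (-(y ^ 2) * |S.cc (t, s)|) * hn
      rw [this]
      positivity
    rw [dbl_add (by fun_prop) (by fun_prop), dbl_add (by fun_prop) (by fun_prop),
      dbl_add (by fun_prop) (by fun_prop), dbl_const_mul, dbl_const_mul, dbl_const_mul,
      dbl_const_mul] at hh
    unfold vf ar m2
    linarith
  have hvf : S.vf = 0 := by
    by_contra hne
    have := key 1 ((K + 1) / (2 * S.vf))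
    rw [← h] at this
    have e : (K + 1) / (2 * S.vf) * S.vf = (K + 1) / 2 := by
      field_simp
    nlinarith
  have hm := S.mink
  rw [hvf] at hm
  have := S.ar_pos
  have := S.m2_nonneg
  linarith

/-- strict Cauchy-Schwarz -/
theorem cauchy_strict : S.m1 ^ 2 < S.ar * S.m2 := by
  rcases lt_or_eq_of_le S.cauchy with h | h
  · exact h
  exfalso
  have h1 := S.continuous_cc.abs
  have h2 := S.continuous_nn2
  have hF : dbl (fun q => (S.m1 - S.ar * S.nn q 2) ^ 2 * |S.cc q|) = 0 := by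
    have e : (fun q => (S.m1 - S.ar * S.nn q 2) ^ 2 * |S.cc q|) = fun q =>
        S.m1 ^ 2 * |S.cc q| + (-2 * S.m1 * S.ar) * (S.nn q 2 * |S.cc q|) +
          S.ar ^ 2 * ((S.nn q 2) ^ 2 * |S.cc q|) := by
      funext q
      ring
    rw [e, dbl_add (by fun_prop) (by fun_prop), dbl_add (by fun_prop) (by fun_prop),
      dbl_const_mul, dbl_const_mul, dbl_const_mul]
    have : S.m1 ^ 2 * S.ar + -2 * S.m1 * S.ar * S.m1 + S.ar ^ 2 * S.m2 = 0 := by
      rw [h]
      linear_combination (-2 * S.ar) * h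
    exact this
  have hp := S.ar_pos
  obtain ⟨t₀, ht₀, s₀, hs₀, hmax⟩ := S.exists_max
  have hN := S.nn2_max hmax
  -- the value at interior points
  have hint : ∀ t ∈ Set.Ioo (0 : ℝ) Real.pi, ∀ s ∈ Set.Icc (0 : ℝ) (2 * Real.pi),
      S.m1 - S.ar * S.nn (t, s) 2 = 0 := by
    intro t ht s hs
    have := dbl_eq_zero (u := fun q => (S.m1 - S.ar * S.nn q 2) ^ 2 * |S.cc q|)
      (by fun_prop) (fun q => by positivity) hF (Set.Ioo_subset_Icc_self ht) hs
    have hc := abs_pos.2 (S.cc_ne_zero s (Real.sin_pos_of_pos_of_lt_pi ht.1 ht.2).ne')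
    have h3 := (mul_eq_zero.1 this).resolve_right hc.ne'
    exact pow_eq_zero_iff (two_ne_zero) |>.1 h3
  have hall : ∀ t ∈ Set.Icc (0 : ℝ) Real.pi, ∀ s ∈ Set.Icc (0 : ℝ) (2 * Real.pi),
      S.m1 - S.ar * S.nn (t, s) 2 = 0 := by
    intro t ht s hs
    have hcont : Continuous (fun t => S.m1 - S.ar * S.nn (t, s) 2) := by
      have := h2.comp (Continuous.prodMk_left s)
      exact continuous_const.sub (continuous_const.mul this)
    have hcl : Set.Icc (0 : ℝ) Real.pi ⊆ closure (Set.Ioo (0 : ℝ) Real.pi) := by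
      rw [closure_Ioo Real.pi_pos.ne]
    have := isClosed_singleton (x := (0 : ℝ)) |>.preimage hcont
    have hsub : Set.Ioo (0 : ℝ) Real.pi ⊆ (fun t => S.m1 - S.ar * S.nn (t, s) 2) ⁻¹' {0} :=
      fun x hx => hint x hx s hs
    exact (closure_minimal hsub this) (hcl ht)
  have hκ := hall t₀ ht₀ s₀ hs₀
  have hsq : S.m1 ^ 2 = S.ar ^ 2 := by
    have : S.m1 = S.ar * S.nn (t₀, s₀) 2 := by linarith
    rw [this, mul_pow, hN, mul_one]
  have hlt := S.m2_lt
  rw [hsq] at h
  nlinarith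

end HSphere

end Pool.Agent.CMC
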