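import Pool.Agent.CMC.Em

open MeasureTheory Matrix

noncomputable section

set_option linter.unusedSimpArgs false

namespace Pool.Agent.CMC

theorem vec_hor (u : V3) : vec (hor u) (u 2) = u := by
  funext i
  fin_cases i <;> rfl

theorem fderiv_comp_apply {E : Type*} [NormedAddCommGroup E] [NormedSpace ℝ E] {u : E → V3} {q : E}
    (hu : DifferentiableAt ℝ u q) (d : E) (i : Fin 3) :
    (fderiv ℝ u q d) i = fderiv ℝ (fun q => u q i) q d := by
  have h := (hasFDerivAt_pi'.1 hu.hasFDerivAt i).fderiv
  rw [h]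
  rfl

theorem contDiff_frame (A : M2) {E : Type*} [NormedAddCommGroup E] [NormedSpace ℝ E]
    {G w : E → V3} (hG : ContDiff ℝ 1 G) (hw : ContDiff ℝ 1 w) :
    ContDiff ℝ 1 (fun q => frame A (G q) (w q)) := by
  have hG2 : ContDiff ℝ 1 (fun q => G q 2) := contDiff_pi.1 hG 2
  have hwi := contDiff_pi.1 hw
  have he : ∀ i j, ContDiff ℝ 1 (fun q => em A (G q 2) i j) := fun i j =>
    (contDiff_em A i j).comp hG2
  rw [contDiff_pi]
  intro i
  fin_cases i
  · have : (fun q => frame A (G q) (w q) ⟨0, by norm_num⟩) =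
        fun q => em A (G q 2) 0 0 * w q 0 + em A (G q 2) 0 1 * w q 1 := by
      funext q
      simp [frame, vec, hor, Matrix.mulVec, dotProduct, Fin.sum_univ_two]
    rw [this]
    exact ((he 0 0).mul (hwi 0)).add ((he 0 1).mul (hwi 1))
  · have : (fun q => frame A (G q) (w q) ⟨1, by norm_num⟩) =
        fun q => em A (G q 2) 1 0 * w q 0 + em A (G q 2) 1 1 * w q 1 := by
      funext q
      simp [frame, vec, hor, Matrix.mulVec, dotProduct, Fin.sum_univ_two]
    rw [this]
    exact ((he 1 0).mul (hwi 0)).add ((he 1 1).mul (hwi 1))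
  · exact hwi 2

theorem fderiv_frame (A : M2) {E : Type*} [NormedAddCommGroup E] [NormedSpace ℝ E]
    {G w : E → V3} (hG : ContDiff ℝ 1 G) (hw : ContDiff ℝ 1 w) (q d : E) :
    fderiv ℝ (fun q => frame A (G q) (w q)) q d = frame A (G q) (fderiv ℝ w q d) -
      (fderiv ℝ G q d) 2 • vec (A.mulVec (hor (frame A (G q) (w q)))) 0 := by
  have hG1 : DifferentiableAt ℝ G q := (hG.differentiable (by norm_num)).differentiableAt
  have hw1 : DifferentiableAt ℝ w q := (hw.differentiable (by norm_num)).differentiableAt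
  have hGi := fun i => (hasFDerivAt_pi'.1 hG1.hasFDerivAt i)
  have hwi := fun i => (hasFDerivAt_pi'.1 hw1.hasFDerivAt i)
  have he := fun i j => (hasDerivAt_em A (G q 2) i j).comp_hasFDerivAt q (hGi 2)
  have hd := ((contDiff_frame A hG hw).differentiable (by norm_num)).differentiableAt (x := q)
  funext i
  rw [fderiv_comp_apply hd d i]
  fin_cases i
  · have : (fun q => frame A (G q) (w q) ⟨0, by norm_num⟩) =
        fun q => em A (G q 2) 0 0 * w q 0 + em A (G q 2) 0 1 * w q 1 := by
      funext q
      simp [frame, vec, hor, Matrix.mulVec, dotProduct, Fin.sum_univ_two]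
    rw [this]
    have h := (((he 0 0).mul (hwi 0)).add ((he 0 1).mul (hwi 1))).fderiv
    simp only [Function.comp_def] at h
    erw [h]
    simp [frame, vec, hor, Matrix.mulVec, dotProduct, Fin.sum_univ_two, Matrix.mul_apply]
    ring
  · have : (fun q => frame A (G q) (w q) ⟨1, by norm_num⟩) =
        fun q => em A (G q 2) 1 0 * w q 0 + em A (G q 2) 1 1 * w q 1 := by
      funext q
      simp [frame, vec, hor, Matrix.mulVec, dotProduct, Fin.sum_univ_two]
    rw [this]
    have h := (((he 1 0).mul (hwi 0)).add ((he 1 1).mul (hwi 1))).fderiv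
    simp only [Function.comp_def] at h
    erw [h]
    simp [frame, vec, hor, Matrix.mulVec, dotProduct, Fin.sum_univ_two, Matrix.mul_apply]
    ring
  · have h := (hwi 2).fderiv
    have e : (fun q => frame A (G q) (w q) ⟨2, by norm_num⟩) = fun q => w q 2 := rfl
    rw [e]
    erw [h]
    simp [frame, vec]

end Pool.Agent.CMC
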