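import Pool.Agent.CMC.Ints

open MeasureTheory Matrix

noncomputable section

namespace Pool.Agent.CMC

variable {A : M2} {H : ℝ} (S : HSphere A H)

namespace HSphere

theorem area_eq : area A S.f = S.ar := by
  unfold area
  rw [sint_eq]
  unfold ar
  congr 1
  funext q
  rw [one_mul]

theorem sint_N2 : (sint A S.f fun p => S.N p 2) = S.m1 := by
  rw [sint_eq]
  rfl

theorem sint_N2sq : (sint A S.f fun p => (S.N p 2) ^ 2) = S.m2 := by
  rw [sint_eq]
  rfl

theorem sint_W : (sint A S.f fun p => frame A (S.f p) (vec (hor (S.f p)) 0) ⬝ᵥ S.N p) = S.vf := by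
  rw [sint_eq]
  rfl

theorem algVol_eq : algVol S = -(1 / 2) * S.vf := by
  unfold algVol
  rw [sint_W]

/-- Minkowski identity. -/
theorem minkowski : area A S.f + (sint A S.f fun p => (S.N p 2) ^ 2) = 4 * H * algVol S := by
  rw [area_eq, sint_N2sq, algVol_eq]
  have := S.mink
  linarith

/-- Flux identity. -/
theorem flux_id : (sint A S.f fun p => S.N p 2) = A.trace * algVol S := by
  rw [sint_N2, algVol_eq]
  have := S.flux
  linarith

theorem area_pos : 0 < area A S.f := by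
  rw [area_eq]
  exact S.ar_pos

theorem H_pos (hH : 0 ≤ H) : 0 < H ∧ 0 < algVol S := by
  have h1 := S.minkowski
  have h2 := S.area_pos
  have h3 : 0 ≤ (sint A S.f fun p => (S.N p 2) ^ 2) := by
    rw [sint_N2sq]
    exact S.m2_nonneg
  have h4 : 0 < H * algVol S := by nlinarith
  have hne : H ≠ 0 := by
    rintro rfl
    simp at h4
  have hpos : 0 < H := lt_of_le_of_ne hH hne.symm
  exact ⟨hpos, (mul_pos_iff_of_pos_left hpos).1 h4⟩

theorem quad : (area A S.f - 2 * H * algVol S) ^ 2 ≤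
    (4 * H ^ 2 - A.trace ^ 2) * algVol S ^ 2 := by
  have h1 := S.minkowski
  have h2 := S.flux_id
  have h3 := S.cauchy
  rw [← sint_N2, ← sint_N2sq, ← area_eq, h2] at h3
  have h4 : (sint A S.f fun p => (S.N p 2) ^ 2) = 4 * H * algVol S - area A S.f := by linarith
  rw [h4] at h3
  nlinarith

include S in
theorem trace_le (hH : 0 ≤ H) : |A.trace| ≤ 2 * H := by
  obtain ⟨_, hV⟩ := S.H_pos hH
  have hq := S.quad
  have h1 : 0 ≤ (4 * H ^ 2 - A.trace ^ 2) * algVol S ^ 2 := le_trans (sq_nonneg _) hq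
  have h2 : 0 ≤ 4 * H ^ 2 - A.trace ^ 2 := nonneg_of_mul_nonneg_left h1 (by positivity)
  apply abs_le_of_sq_le_sq _ (by linarith)
  nlinarith

theorem lower : 2 * H * algVol S ≤ area A S.f := by
  have h1 := S.minkowski
  have h2 := S.m2_le
  rw [← sint_N2sq, ← area_eq] at h2
  linarith

theorem upper (hH : 0 ≤ H) :
    area A S.f ≤ (2 * H + Real.sqrt (4 * H ^ 2 - A.trace ^ 2)) * algVol S := by
  obtain ⟨_, hV⟩ := S.H_pos hH
  have hq := S.quad
  have h1 : 0 ≤ (4 * H ^ 2 - A.trace ^ 2) * algVol S ^ 2 := le_trans (sq_nonneg _) hq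
  have h2 : 0 ≤ 4 * H ^ 2 - A.trace ^ 2 := nonneg_of_mul_nonneg_left h1 (by positivity)
  have h3 : area A S.f - 2 * H * algVol S ≤ Real.sqrt (4 * H ^ 2 - A.trace ^ 2) * algVol S := by
    apply le_of_sq_le_sq _ (by positivity)
    rw [mul_pow, Real.sq_sqrt h2]
    exact hq
  linarith

end HSphere

end Pool.Agent.CMC
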